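import Pool.Agent.Run7.h604.ZH.Book

set_option autoImplicit false
set_option linter.all false

namespace Pool.Agent.Run7.h604.ZH

/-- Noncrossing partial functions to the right. -/
structure NCF {α : Type} [LinearOrder α] (ρ : α → α → Prop) : Prop where
  lt : ∀ i j, ρ i j → i < j
  fn : ∀ i j j', ρ i j → ρ i j' → j = j'
  nc : ∀ i i' j j', ρ i j → ρ i' j' → i < i' → i' < j → j' ≤ j

open Classical in
/-- Three bits at each point. -/
noncomputable def code {α : Type} [LinearOrder α] (ρ : α → α → Prop) : α → Bool × Bool × Bool :=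
  fun i => (decide (∃ j, ρ i j), decide (∃ j, ρ i j ∧ ∀ i', i' < i → ¬ ρ i' j),
    decide (∃ k, ρ k i))

theorem code_step {α : Type} [LinearOrder α] [Finite α] (ρ ρ' : α → α → Prop) (h : NCF ρ)
    (h' : NCF ρ') (b1 : ∀ i, (∃ j, ρ i j) ↔ (∃ j, ρ' i j))
    (b2 : ∀ i, (∃ j, ρ i j ∧ ∀ i', i' < i → ¬ ρ i' j) ↔ (∃ j, ρ' i j ∧ ∀ i', i' < i → ¬ ρ' i' j))
    (b3 : ∀ i, (∃ k, ρ k i) ↔ (∃ k, ρ' k i)) (j : α)
    (ih : ∀ j', j' < j → ∀ i, ρ i j' ↔ ρ' i j') (i : α) (hi : ρ i j) : ρ' i j := by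
  by_contra hn
  -- open arcs agree
  have op : ∀ x, (x < j ∧ ∃ y, j ≤ y ∧ ρ x y) ↔ (x < j ∧ ∃ y, j ≤ y ∧ ρ' x y) := by
    intro x
    constructor
    · rintro ⟨hx, y, hy, hxy⟩
      obtain ⟨z, hz⟩ := (b1 x).1 ⟨y, hxy⟩
      refine ⟨hx, z, ?_, hz⟩
      by_contra hlt
      have := (ih z (not_le.1 hlt) x).2 hz
      have := h.fn x y z hxy this
      exact hlt (this ▸ hy)
    · rintro ⟨hx, y, hy, hxy⟩
      obtain ⟨z, hz⟩ := (b1 x).2 ⟨y, hxy⟩
      refine ⟨hx, z, ?_, hz⟩
      by_contra hlt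
      have := (ih z (not_le.1 hlt) x).1 hz
      have := h'.fn x y z hxy this
      exact hlt (this ▸ hy)
  have hij := h.lt i j hi
  obtain ⟨-, y, hy, hiy⟩ := (op i).1 ⟨hij, j, le_refl _, hi⟩
  have hlow : ∀ x, ρ' x j → i < x := by
    intro x hx
    rcases lt_trichotomy i x with hlt | heq | hgt
    · exact hlt
    · exact absurd (heq ▸ hx) hn
    · exfalso
      have h3 := h'.nc x i j y hx hiy hgt hij
      have : y = j := le_antisymm h3 hy
      exact hn (this ▸ hiy)
  obtain ⟨k0, hk0⟩ := (b3 j).1 ⟨i, hi⟩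
  obtain ⟨m, hm, hmin⟩ := (wellFounded_lt (α := α)).has_min {x | ρ' x j} ⟨k0, hk0⟩
  have him := hlow m hm
  obtain ⟨y', h1, h2⟩ := (b2 m).2 ⟨j, hm, fun i' hi' hi'' => hmin i' hi'' hi'⟩
  have hmj := h'.lt m j hm
  obtain ⟨-, z, hz, hmz⟩ := (op m).2 ⟨hmj, j, le_refl _, hm⟩
  have h4 : z ≤ j := h.nc i m j z hi hmz him hmj
  have h5 : z = j := le_antisymm h4 hz
  subst h5
  have h6 := h.fn m y' z h1 hmz
  subst h6
  exact h2 i him hi

theorem code_inj {α : Type} [LinearOrder α] [Finite α] (ρ ρ' : α → α → Prop) (h : NCF ρ)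
    (h' : NCF ρ') (hc : code ρ = code ρ') : ρ = ρ' := by
  have b1 : ∀ i, (∃ j, ρ i j) ↔ (∃ j, ρ' i j) := by
    intro i
    have := congrArg Prod.fst (congrFun hc i)
    simpa [code] using this
  have b2 : ∀ i, (∃ j, ρ i j ∧ ∀ i', i' < i → ¬ ρ i' j) ↔
      (∃ j, ρ' i j ∧ ∀ i', i' < i → ¬ ρ' i' j) := by
    intro i
    have := congrArg (fun x => x.2.1) (congrFun hc i)
    simpa [code] using this
  have b3 : ∀ i, (∃ k, ρ k i) ↔ (∃ k, ρ' k i) := by
    intro i
    have := congrArg (fun x => x.2.2) (congrFun hc i)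
    simpa [code] using this
  have key : ∀ j i, ρ i j ↔ ρ' i j := by
    intro j
    induction j using (wellFounded_lt (α := α)).induction with
    | _ j ih =>
      intro i
      exact ⟨code_step ρ ρ' h h' b1 b2 b3 j ih i,
        code_step ρ' ρ h' h (fun i => (b1 i).symm) (fun i => (b2 i).symm) (fun i => (b3 i).symm) j
          (fun j' hj' i => (ih j' hj' i).symm) i⟩
  funext i j
  exact propext (key j i)

theorem card_ncf {α : Type} [LinearOrder α] [Finite α] :
    Nat.card {ρ : α → α → Prop // NCF ρ} ≤ 8 ^ Nat.card α := by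
  have h := Nat.card_le_card_of_injective (fun ρ : {ρ : α → α → Prop // NCF ρ} => code ρ.1)
    (fun a b h => Subtype.ext (code_inj a.1 b.1 a.2 b.2 h))
  refine h.trans (le_of_eq ?_)
  rw [Nat.card_fun]
  simp [Nat.card_prod]

/-- Noncrossing graphs on a linear order. -/
def NCG {α : Type} [LinearOrder α] (A : SimpleGraph α) : Prop :=
  ∀ a b c d : α, A.Adj a b → A.Adj c d → a < c → c < b → b < d → False

def rr {α : Type} [LinearOrder α] (A : SimpleGraph α) (i j : α) : Prop :=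
  A.Adj i j ∧ i < j ∧ ∀ j', A.Adj i j' → j' ≤ j

def ll {α : Type} [LinearOrder α] (A : SimpleGraph α) (j i : αᵒᵈ) : Prop :=
  A.Adj (OrderDual.ofDual i) (OrderDual.ofDual j) ∧ OrderDual.ofDual i < OrderDual.ofDual j ∧
    ∀ i', A.Adj i' (OrderDual.ofDual j) → OrderDual.ofDual i ≤ i'

theorem ncf_rr {α : Type} [LinearOrder α] (A : SimpleGraph α) (h : NCG A) : NCF (rr A) where
  lt := fun i j h => h.2.1
  fn := fun i j j' h1 h2 => le_antisymm (h2.2.2 j h1.1) (h1.2.2 j' h2.1)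
  nc := fun i i' j j' h1 h2 h3 h4 => by
    by_contra hlt
    exact h i j i' j' h1.1 h2.1 h3 h4 (not_le.1 hlt)

theorem ncf_ll {α : Type} [LinearOrder α] (A : SimpleGraph α) (h : NCG A) : NCF (ll A) where
  lt := fun i j h => h.2.1
  fn := fun i j j' h1 h2 => le_antisymm (α := α) (h1.2.2 _ h2.1) (h2.2.2 _ h1.1)
  nc := fun i i' j j' h1 h2 h3 h4 => by
    by_contra hlt
    exact h (OrderDual.ofDual j') (OrderDual.ofDual i') (OrderDual.ofDual j) (OrderDual.ofDual i)
      h2.1 h1.1 (not_le.1 hlt) h4 h3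

theorem ncg_det {α : Type} [LinearOrder α] (A : SimpleGraph α) (h : NCG A) (i j : α)
    (hij : i < j) : A.Adj i j ↔ (rr A i j ∨ ll A (OrderDual.toDual j) (OrderDual.toDual i)) := by
  constructor
  · intro ha
    by_contra hcon
    push Not at hcon
    obtain ⟨h1, h2⟩ := hcon
    have h3 : ∃ j', A.Adj i j' ∧ j < j' := by
      by_contra hn
      push Not at hn
      exact h1 ⟨ha, hij, hn⟩
    have h4 : ∃ i', A.Adj i' j ∧ i' < i := by
      by_contra hn
      push Not at hn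
      exact h2 ⟨ha, hij, hn⟩
    obtain ⟨j', e1, e2⟩ := h3
    obtain ⟨i', e3, e4⟩ := h4
    exact h i' j i j' e3 e1 e4 hij e2
  · rintro (h1 | h1)
    · exact h1.1
    · exact h1.1

theorem card_ncg {α : Type} [LinearOrder α] [Finite α] :
    Nat.card {A : SimpleGraph α // NCG A} ≤ 64 ^ Nat.card α := by
  have : Finite αᵒᵈ := inferInstanceAs (Finite α)
  have h := Nat.card_le_card_of_injective
    (fun A : {A : SimpleGraph α // NCG A} =>
      ((⟨rr A.1, ncf_rr A.1 A.2⟩, ⟨ll A.1, ncf_ll A.1 A.2⟩) :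
        {ρ : α → α → Prop // NCF ρ} × {ρ : αᵒᵈ → αᵒᵈ → Prop // NCF ρ}))
    (by
      intro A B hAB
      have e1 : rr A.1 = rr B.1 := congrArg Subtype.val (congrArg Prod.fst hAB)
      have e2 : ll A.1 = ll B.1 := congrArg Subtype.val (congrArg Prod.snd hAB)
      apply Subtype.ext
      ext i j
      rcases lt_trichotomy i j with hlt | heq | hgt
      · rw [ncg_det A.1 A.2 i j hlt, ncg_det B.1 B.2 i j hlt, e1, e2]
      · subst heq
        simp
      · rw [SimpleGraph.adj_comm, ncg_det A.1 A.2 j i hgt, SimpleGraph.adj_comm,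
          ncg_det B.1 B.2 j i hgt, e1, e2])
  rw [Nat.card_prod] at h
  refine h.trans ?_
  calc _ ≤ 8 ^ Nat.card α * 8 ^ Nat.card αᵒᵈ := Nat.mul_le_mul card_ncf card_ncf
    _ = 64 ^ Nat.card α := by
      have : Nat.card αᵒᵈ = Nat.card α := rfl
      rw [this, ← Nat.mul_pow]

theorem exists_perm {n : ℕ} (r : Fin n → ℕ) (hr : Function.Injective r) :
    ∃ σ : Equiv.Perm (Fin n), ∀ x y, σ x < σ y ↔ r x < r y := by
  classical
  let s : Finset ℕ := Finset.univ.image r
  have hs : s.card = n := by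
    rw [Finset.card_image_of_injective _ hr]; simp
  let e := s.orderIsoOfFin hs
  let f : Fin n → Fin n := fun x => e.symm ⟨r x, Finset.mem_image_of_mem r (Finset.mem_univ x)⟩
  have hf : Function.Injective f := by
    intro x y h
    have := e.symm.injective h
    exact hr (Subtype.ext_iff.1 this)
  refine ⟨Equiv.ofBijective f (Finite.injective_iff_bijective.1 hf), fun x y => ?_⟩
  change e.symm _ < e.symm _ ↔ _
  rw [e.symm.lt_iff_lt]
  exact Iff.rfl

theorem small (n : ℕ) : num TwoPageConn n ≤ 4096 ^ n * n.factorial := by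
  let C := {A : SimpleGraph (Fin n) // NCG A}
  have hex : ∀ G : {G : SimpleGraph (Fin n) // TwoPageConn (Fin n) G},
      ∃ x : Equiv.Perm (Fin n) × (C × C), G.1 = (x.2.1.1 ⊔ x.2.2.1).comap x.1 := by
    rintro ⟨G, hf, hc, r, A, B, hr, hG, hA, hB⟩
    obtain ⟨σ, hσ⟩ := exists_perm r hr
    have key : ∀ A : SimpleGraph (Fin n), NonCross r A → NCG (A.comap σ.symm) := by
      intro A hA a b c d h1 h2 h3 h4 h5
      refine hA _ _ _ _ h1 h2 ?_ ?_ ?_
      · rw [← hσ]; simpa using h3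
      · rw [← hσ]; simpa using h4
      · rw [← hσ]; simpa using h5
    refine ⟨(σ, ⟨A.comap σ.symm, key A hA⟩, ⟨B.comap σ.symm, key B hB⟩), ?_⟩
    ext x y
    simp [hG]
  choose φ hφ using hex
  have hinj : Function.Injective φ := by
    intro G H h
    apply Subtype.ext
    rw [hφ G, hφ H, h]
  have h := Nat.card_le_card_of_injective φ hinj
  have hC : Nat.card C ≤ 64 ^ n := by
    have := card_ncg (α := Fin n)
    simpa using this
  rw [Nat.card_prod, Nat.card_prod, Nat.card_perm] at h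
  have h2 : Nat.card (Fin n) = n := by simp
  rw [h2] at h
  refine h.trans ?_
  calc n.factorial * (Nat.card C * Nat.card C) ≤ n.factorial * (64 ^ n * 64 ^ n) := by gcongr
    _ = 4096 ^ n * n.factorial := by rw [← Nat.mul_pow]; ring

end Pool.Agent.Run7.h604.ZH
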