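import Pool.Agent.Run7.h604.ZH.Plan
import Pool.Agent.Run7.h604.ZH.Small

set_option autoImplicit false
set_option linter.all false

namespace Pool.Agent.Run7.h604.ZH

/-- Line representations on `Fin L`. -/
def FR {V : Type} (G : SimpleGraph V) (L : ℕ) : Prop :=
  ∃ (a : Fin L → V) (A : SimpleGraph (Fin L)), LineRep G (fun i => i.1) a A

theorem to_FR {V I : Type} [Finite I] (G : SimpleGraph V) (r : I → ℕ) (a : I → V)
    (A : SimpleGraph I) (h : LineRep G r a A) : FR G (Nat.card I) := by
  classical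
  have : Fintype I := Fintype.ofFinite I
  let s : Finset ℕ := Finset.univ.image r
  have hs : s.card = Nat.card I := by
    rw [Finset.card_image_of_injective _ h.inj, Nat.card_eq_fintype_card, Finset.card_univ]
  let e := s.orderIsoOfFin hs
  let f : I → Fin (Nat.card I) :=
    fun x => e.symm ⟨r x, Finset.mem_image_of_mem r (Finset.mem_univ x)⟩
  have hf : Function.Injective f := by
    intro x y h'
    have := e.symm.injective h'
    exact h.inj (Subtype.ext_iff.1 this)
  have hb : Function.Bijective f := by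
    rw [Fintype.bijective_iff_injective_and_card]
    exact ⟨hf, by rw [Fintype.card_fin, Nat.card_eq_fintype_card]⟩
  let σ : I ≃ Fin (Nat.card I) := Equiv.ofBijective f hb
  have hσ : ∀ x y, (σ x).1 < (σ y).1 ↔ r x < r y := by
    intro x y
    change (e.symm _) < (e.symm _) ↔ _
    rw [e.symm.lt_iff_lt]
    exact Iff.rfl
  have hσ' : ∀ i j : Fin (Nat.card I), i.1 < j.1 → r (σ.symm i) < r (σ.symm j) := by
    intro i j hij
    rw [← hσ]
    simpa using hij
  refine ⟨fun i => a (σ.symm i), A.comap σ.symm, ?_, ?_, ?_, ?_, ?_⟩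
  · intro i j h'; exact Fin.ext h'
  · exact h.surj.comp σ.symm.surjective
  · intro i j k l h1 h2 h3 e1 e2
    exact h.below _ _ _ _ (hσ' _ _ h1) (hσ' _ _ h2) (hσ' _ _ h3) e1 e2
  · intro i j k l h1 h2 h3 h4 h5
    exact h.above _ _ _ _ h1 h2 (hσ' _ _ h3) (hσ' _ _ h4) (hσ' _ _ h5)
  · intro x y
    rw [h.edges]
    constructor
    · rintro ⟨hne, i, j, h1, h2, h3⟩
      exact ⟨hne, σ i, σ j, by simp [h1], by simp [h2], by simpa using h3⟩
    · rintro ⟨hne, i, j, h1, h2, h3⟩
      exact ⟨hne, σ.symm i, σ.symm j, h1, h2, h3⟩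

/-- Two consecutive points with the same vertex can be merged. -/
theorem merge {V : Type} (G : SimpleGraph V) (L : ℕ) (a : Fin L → V) (A : SimpleGraph (Fin L))
    (h : LineRep G (fun i => i.1) a A) (i j : Fin L) (hij : j.1 = i.1 + 1) (ha : a i = a j) :
    ∃ L', L' < L ∧ FR G L' := by
  classical
  let I := {x : Fin L // x ≠ j}
  have hne : i ≠ j := fun e => by rw [e] at hij; omega
  let i0 : I := ⟨i, hne⟩
  -- the projection
  let π : Fin L → I := fun x => if hx : x = j then i0 else ⟨x, hx⟩
  have πj : π j = i0 := by simp [π]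
  have πx : ∀ x : I, π x.1 = x := by
    intro x
    have := x.2
    simp [π, this]
  have aπ : ∀ x, a (π x).1 = a x := by
    intro x
    by_cases hx : x = j
    · subst hx; rw [πj]; exact ha
    · simp [π, hx]
  let A' : SimpleGraph I :=
    { Adj := fun x y => x ≠ y ∧ ∃ u v, π u = x ∧ π v = y ∧ A.Adj u v
      symm := ⟨fun x y ⟨h1, u, v, h2, h3, h4⟩ => ⟨h1.symm, v, u, h3, h2, h4.symm⟩⟩
      loopless := ⟨fun x h => h.1 rfl⟩ }
  -- order comparison is unchanged
  have ord : ∀ u v : Fin L, (π u).1.1 < (π v).1.1 → u.1 < v.1 := by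
    intro u v huv
    by_cases hu : u = j <;> by_cases hv : v = j
    · subst hu; subst hv; omega
    · subst hu
      rw [πj] at huv
      have e : (π v).1 = v := by simp [π, hv]
      rw [e] at huv
      have h3 : i.1 < v.1 := huv
      have h4 : v.1 ≠ u.1 := fun e => hv (Fin.ext e)
      omega
    · subst hv
      rw [πj] at huv
      have e : (π u).1 = u := by simp [π, hu]
      rw [e] at huv
      have h3 : u.1 < i.1 := huv
      omega
    · have e : (π u).1 = u := by simp [π, hu]
      have e' : (π v).1 = v := by simp [π, hv]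
      rw [e, e'] at huv
      exact huv
  have hrep : LineRep G (fun x : I => x.1.1) (fun x : I => a x.1) A' := by
    refine ⟨?_, ?_, ?_, ?_, ?_⟩
    · intro x y e; exact Subtype.ext (Fin.ext e)
    · intro x
      obtain ⟨k, hk⟩ := h.surj x
      exact ⟨π k, (aπ k).trans hk⟩
    · intro x y z t h1 h2 h3 e1 e2
      exact h.below _ _ _ _ h1 h2 h3 e1 e2
    · intro x y z t h1 h2 h3 h4 h5
      obtain ⟨-, u, v, rfl, rfl, huv⟩ := h1
      obtain ⟨-, u', v', rfl, rfl, huv'⟩ := h2
      exact h.above u v u' v' huv huv' (ord _ _ h3) (ord _ _ h4) (ord _ _ h5)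
    · intro x y
      rw [h.edges]
      constructor
      · rintro ⟨hxy, u, v, h1, h2, h3⟩
        refine ⟨hxy, π u, π v, (aπ u).trans h1, (aπ v).trans h2, ?_, u, v, rfl, rfl, h3⟩
        intro e
        apply hxy
        rw [← h1, ← h2, ← aπ u, ← aπ v, e]
      · rintro ⟨hxy, x', y', h1, h2, -, u, v, h3, h4, h5⟩
        refine ⟨hxy, u, v, ?_, ?_, h5⟩
        · rw [← aπ u, h3]; exact h1
        · rw [← aπ v, h4]; exact h2
  refine ⟨Nat.card I, ?_, to_FR G _ _ A' hrep⟩
  have h2 : Nat.card I < Nat.card (Fin L) := by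
    rw [Nat.card_eq_fintype_card, Nat.card_eq_fintype_card]
    exact Fintype.card_subtype_lt (x := j) (by simp)
  simpa using h2

/-- A shortest representation has no two consecutive points with the same vertex. -/
theorem exists_reduced {V : Type} (G : SimpleGraph V) (h : PlanarRep G) :
    ∃ (L : ℕ) (a : Fin L → V) (A : SimpleGraph (Fin L)), LineRep G (fun i => i.1) a A ∧
      ∀ i j : Fin L, j.1 = i.1 + 1 → a i ≠ a j := by
  classical
  have hex : ∃ L, FR G L := by
    obtain ⟨I, r, a, A, hf, hr⟩ := h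
    exact ⟨_, to_FR G r a A hr⟩
  obtain ⟨a, A, hA⟩ := Nat.find_spec hex
  refine ⟨Nat.find hex, a, A, hA, fun i j hij ha => ?_⟩
  obtain ⟨L', h1, h2⟩ := merge G _ a A hA i j hij ha
  exact Nat.find_min hex h1 h2

/-- A reduced representation is short. -/
theorem reduced_le {V : Type} [Finite V] (G : SimpleGraph V) (L : ℕ) (a : Fin L → V)
    (A : SimpleGraph (Fin L)) (h : LineRep G (fun i => i.1) a A)
    (hred : ∀ i j : Fin L, j.1 = i.1 + 1 → a i ≠ a j) : L ≤ Nat.card V * 2 := by
  classical
  have hnext : ∀ i : Fin L, (∃ j, i < j ∧ a i = a j) → i.1 + 1 < L := by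
    rintro i ⟨j, h1, -⟩
    have := j.2
    have : i.1 < j.1 := h1
    omega
  let φ : Fin L → V × Bool := fun i =>
    if hi : ∃ j, i < j ∧ a i = a j then (a ⟨i.1 + 1, hnext i hi⟩, true) else (a i, false)
  -- the point after a repeated one carries a new vertex
  have hnew : ∀ (i : Fin L) (hi : ∃ j, i < j ∧ a i = a j) (k : Fin L),
      a k = a ⟨i.1 + 1, hnext i hi⟩ → i.1 + 1 ≤ k.1 := by
    intro i hi k hk
    by_contra hlt
    obtain ⟨j, hj1, hj2⟩ := hi
    have hj1' : i.1 < j.1 := hj1
    have hki : k.1 ≠ i.1 := by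
      intro e
      have : k = i := Fin.ext e
      rw [this] at hk
      exact hred i _ rfl hk
    have hj3 : j.1 ≠ i.1 + 1 := fun e => hred i j e hj2
    have := h.below k i ⟨i.1 + 1, hnext i ⟨j, hj1, hj2⟩⟩ j (by first | omega | (simp only; omega))
      (by first | omega | (simp only; omega)) (by first | omega | (simp only; omega)) hk hj2
    rw [this] at hk
    exact hred i _ rfl hk
  have hφ : Function.Injective φ := by
    intro i i' hii
    by_cases hi : ∃ j, i < j ∧ a i = a j <;> by_cases hi' : ∃ j, i' < j ∧ a i' = a j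
    · simp only [φ, hi, hi', dif_pos, Prod.mk.injEq, and_true] at hii
      have h1 := hnew i hi _ hii.symm
      have h2 := hnew i' hi' _ hii
      simp only at h1 h2
      exact Fin.ext (by omega)
    · simp [φ, hi, hi'] at hii
    · simp [φ, hi, hi'] at hii
    · simp only [φ, hi, hi', dif_neg, not_false_iff, Prod.mk.injEq, and_true] at hii
      rcases lt_trichotomy i i' with h1 | h1 | h1
      · exact absurd ⟨i', h1, hii⟩ hi
      · exact h1
      · exact absurd ⟨i, h1, hii.symm⟩ hi'
  have := Nat.card_le_card_of_injective φ hφ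
  rw [Nat.card_prod] at this
  simpa using this

/-- Next occurrence. -/
def nxt {V : Type} {L : ℕ} (a : Fin L → V) (i j : Fin L) : Prop :=
  i < j ∧ a i = a j ∧ ∀ m, i < m → m < j → a m ≠ a i

theorem ncf_nxt {V : Type} {L : ℕ} (a : Fin L → V)
    (h : ∀ i j k l : Fin L, i.1 < j.1 → j.1 < k.1 → k.1 < l.1 → a i = a k → a j = a l → a i = a j) :
    NCF (nxt a) where
  lt := fun i j h => h.1
  fn := fun i j j' h1 h2 => by
    rcases lt_trichotomy j j' with h3 | h3 | h3
    · exact absurd h1.2.1.symm (h2.2.2 j h1.1 h3)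
    · exact h3
    · exact absurd h2.2.1.symm (h1.2.2 j' h2.1 h3)
  nc := fun i i' j j' h1 h2 h3 h4 => by
    by_contra hlt
    have := h i i' j j' h3 h4 (not_le.1 hlt) h1.2.1 h2.2.1
    exact h1.2.2 i' h3 h4 this.symm

/-- Equal next-occurrence relations give equal kernels. -/
theorem ker_nxt {V V' : Type} {L : ℕ} (a : Fin L → V) (a' : Fin L → V') (h : nxt a = nxt a')
    (j : Fin L) : ∀ i, i < j → a i = a j → a' i = a' j := by
  induction j using (wellFounded_lt (α := Fin L)).induction with
  | _ j ih =>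
    intro i hij ha
    classical
    let s : Finset (Fin L) := Finset.univ.filter (fun k => k < j ∧ a k = a j)
    have hs : s.Nonempty := ⟨i, by simp [s, hij, ha]⟩
    obtain ⟨k, hk, hmax⟩ := s.exists_max_image id hs
    have hk' : k < j ∧ a k = a j := by simpa [s] using hk
    have hn : nxt a k j := by
      refine ⟨hk'.1, hk'.2, fun m h1 h2 h3 => ?_⟩
      have hm : m ∈ s := by simp [s, h2, h3.trans hk'.2]
      exact absurd (hmax m hm) (not_le.2 h1)
    rw [h] at hn
    have hik : i ≤ k := hmax i (by simp [s, hij, ha])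
    rcases hik.lt_or_eq with h1 | h1
    · exact (ih k hk'.1 i h1 (ha.trans hk'.2.symm)).trans hn.2.1
    · rw [h1]; exact hn.2.1

theorem ker_iff {V V' : Type} {L : ℕ} (a : Fin L → V) (a' : Fin L → V') (h : nxt a = nxt a')
    (i j : Fin L) : a i = a j ↔ a' i = a' j := by
  have key : ∀ {V V' : Type} (a : Fin L → V) (a' : Fin L → V'), nxt a = nxt a' →
      a i = a j → a' i = a' j := by
    intro V V' a a' h e
    rcases lt_trichotomy i j with h1 | h1 | h1
    · exact ker_nxt a a' h j i h1 e
    · rw [h1]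
    · exact (ker_nxt a a' h i j h1 e.symm).symm
  exact ⟨key a a' h, key a' a h.symm⟩

/-- The code of a representation. -/
abbrev Dat (n : ℕ) : Type :=
  Σ L : Fin (n * 2 + 1), {ρ : Fin L.1 → Fin L.1 → Prop // NCF ρ} ×
    {A : SimpleGraph (Fin L.1) // NCG A}

def HasDat {n : ℕ} (G : SimpleGraph (Fin n)) (d : Dat n) : Prop :=
  ∃ a : Fin d.1.1 → Fin n, LineRep G (fun i => i.1) a d.2.2.1 ∧ nxt a = d.2.1.1

theorem exists_dat {n : ℕ} (G : SimpleGraph (Fin n)) (h : PlanarRep G) :
    ∃ d : Dat n, HasDat G d := by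
  obtain ⟨L, a, A, h1, h2⟩ := exists_reduced G h
  have h3 := reduced_le G L a A h1 h2
  rw [Nat.card_eq_fintype_card, Fintype.card_fin] at h3
  exact ⟨⟨⟨L, by omega⟩, ⟨nxt a, ncf_nxt a h1.below⟩, ⟨A, h1.above⟩⟩, a, h1, rfl⟩

theorem dat_iso {n : ℕ} (G G' : SimpleGraph (Fin n)) (d : Dat n) (h : HasDat G d)
    (h' : HasDat G' d) : ∃ σ : Equiv.Perm (Fin n), G' = G.comap σ := by
  obtain ⟨a, h1, h2⟩ := h
  obtain ⟨a', h1', h2'⟩ := h'
  have hk := ker_iff a a' (h2.trans h2'.symm)
  choose s hs using h1'.surj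
  let f : Fin n → Fin n := fun x => a (s x)
  have hf : Function.Injective f := by
    intro x y e
    have := (hk _ _).1 e
    rw [hs, hs] at this
    exact this
  have hfa : ∀ i, f (a' i) = a i := fun i => (hk _ _).2 (hs _)
  refine ⟨Equiv.ofBijective f (Finite.injective_iff_bijective.1 hf), ?_⟩
  ext x y
  change G'.Adj x y ↔ G.Adj (f x) (f y)
  rw [h1.edges, h1'.edges]
  constructor
  · rintro ⟨hne, i, j, e1, e2, e3⟩
    exact ⟨fun e => hne (hf e), i, j, by rw [← e1, hfa], by rw [← e2, hfa], e3⟩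
  · rintro ⟨hne, i, j, e1, e2, e3⟩
    refine ⟨fun e => hne (congrArg f e), i, j, ?_, ?_, e3⟩
    · rw [← hfa] at e1; exact hf e1
    · rw [← hfa] at e2; exact hf e2

theorem card_dat (n : ℕ) : Nat.card (Dat n) ≤ (n * 2 + 1) * 512 ^ (n * 2) := by
  rw [Nat.card_sigma]
  calc ∑ L : Fin (n * 2 + 1), Nat.card ({ρ : Fin L.1 → Fin L.1 → Prop // NCF ρ} ×
        {A : SimpleGraph (Fin L.1) // NCG A})
      ≤ ∑ L : Fin (n * 2 + 1), 512 ^ (n * 2) := by
        apply Finset.sum_le_sum
        intro L _
        rw [Nat.card_prod]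
        have h1 := card_ncf (α := Fin L.1)
        have h2 := card_ncg (α := Fin L.1)
        have e : Nat.card (Fin L.1) = L.1 := by simp
        rw [e] at h1 h2
        calc _ ≤ 8 ^ L.1 * 64 ^ L.1 := Nat.mul_le_mul h1 h2
          _ = 512 ^ L.1 := by rw [← Nat.mul_pow]
          _ ≤ 512 ^ (n * 2) := Nat.pow_le_pow_right (by norm_num) (by have := L.2; omega)
    _ = (n * 2 + 1) * 512 ^ (n * 2) := by
      rw [Finset.sum_const, Finset.card_univ, Fintype.card_fin, smul_eq_mul]

theorem planar_small (n : ℕ) : num PlanarConn n ≤ 786432 ^ n * n.factorial := by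
  classical
  let 𝒢 := {G : SimpleGraph (Fin n) // PlanarConn (Fin n) G}
  have hex : ∀ G : 𝒢, ∃ d : Dat n, HasDat G.1 d := fun G => exists_dat G.1 G.2.2
  choose D hD using hex
  -- a representative of each code
  have hrep : ∀ G : 𝒢, ∃ G0 : 𝒢, D G0 = D G := fun G => ⟨G, rfl⟩
  let R : Dat n → SimpleGraph (Fin n) := fun d => if h : ∃ G0 : 𝒢, D G0 = d then h.choose.1 else ⊥
  have hR : ∀ G : 𝒢, HasDat (R (D G)) (D G) := by
    intro G
    have h : ∃ G0 : 𝒢, D G0 = D G := ⟨G, rfl⟩
    have e : R (D G) = h.choose.1 := by simp only [R]; rw [dif_pos h]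
    rw [e]
    have := hD h.choose
    rwa [h.choose_spec] at this
  have hperm : ∀ G : 𝒢, ∃ σ : Equiv.Perm (Fin n), G.1 = (R (D G)).comap σ :=
    fun G => dat_iso _ _ (D G) (hR G) (hD G)
  choose σ hσ using hperm
  have hinj : Function.Injective (fun G : 𝒢 => (D G, σ G)) := by
    intro G H h
    have h1 : D G = D H := congrArg Prod.fst h
    have h2 : σ G = σ H := congrArg Prod.snd h
    apply Subtype.ext
    rw [hσ G, hσ H, h1, h2]
  have h := Nat.card_le_card_of_injective _ hinj
  rw [Nat.card_prod, Nat.card_perm] at h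
  have h2 : Nat.card (Fin n) = n := by simp
  rw [h2] at h
  have h3 : n * 2 + 1 ≤ 3 ^ n := by
    induction n with
    | zero => simp
    | succ m ih => 
      have : m * 2 + 1 ≤ 3 ^ m := by
        clear * -
        induction m with
        | zero => simp
        | succ m ih => rw [pow_succ]; omega
      rw [pow_succ]; omega
  calc num PlanarConn n ≤ Nat.card (Dat n) * n.factorial := h
    _ ≤ ((n * 2 + 1) * 512 ^ (n * 2)) * n.factorial := Nat.mul_le_mul_right _ (card_dat n)
    _ ≤ (3 ^ n * 512 ^ (n * 2)) * n.factorial := by gcongr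
    _ = 786432 ^ n * n.factorial := by
      rw [mul_comm n 2, pow_mul, ← Nat.mul_pow]
      norm_num

theorem planar_class : BridgeClass PlanarConn where
  fin := fun V G h => planarRep_finite G h.2
  conn := fun V G h => h.1
  iso := by
    rintro V W G H ⟨e⟩ h
    exact ⟨(SimpleGraph.Iso.connected_iff e).1 h.1, planarRep_iso G H e h.2⟩
  one := by
    refine ⟨?_, Fin 1, fun _ => 0, id, ⊥, inferInstance, ?_, ?_, ?_, ?_, ?_⟩
    · exact { preconnected := fun x y => by rw [Subsingleton.elim x y], nonempty := ⟨0⟩ }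
    · intro x y _; exact Subsingleton.elim x y
    · exact Function.surjective_id
    · intro i j k l h; simp at h
    · intro i j k l h; simp at h
    · intro x y; simp
  bridge := planar_bridge
  small := ⟨786432, planar_small⟩

end Pool.Agent.Run7.h604.ZH
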