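import Pool.Agent.Run7.h604.ZH.Tree

set_option autoImplicit false
set_option linter.all false

namespace Pool.Agent.Run7.h604.ZH

open Filter Topology

variable {P : (V : Type) → SimpleGraph V → Prop}

/-- The normalised number of members. -/
noncomputable def w (P : (V : Type) → SimpleGraph V → Prop) (n : ℕ) : ℝ :=
  (n : ℝ) * (num P n : ℝ) / (2 * (n.factorial : ℝ))

theorem w_pos (hP : BridgeClass P) (n : ℕ) (hn : 1 ≤ n) : 0 < w P n := by
  have h1 : (0 : ℝ) < num P n := by exact_mod_cast num_pos hP n hn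
  have h2 : (0 : ℝ) < n := by exact_mod_cast hn
  have h3 : (0 : ℝ) < n.factorial := by exact_mod_cast Nat.factorial_pos n
  unfold w
  positivity

theorem choose_fact (n m : ℕ) :
    (((n + m).choose m : ℕ) : ℝ) * (m.factorial : ℝ) * (n.factorial : ℝ) =
      ((n + m).factorial : ℝ) := by
  have := Nat.choose_mul_factorial_mul_factorial (Nat.le_add_left m n)
  rw [Nat.add_sub_cancel] at this
  exact_mod_cast this

theorem w_super (hP : BridgeClass P) (n m : ℕ) (hn : 1 ≤ n) (hm : 1 ≤ m) :
    w P n * w P m ≤ w P (n + m) := by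
  obtain ⟨k, rfl⟩ : ∃ k, m = k + 1 := ⟨m - 1, by omega⟩
  have h := count_super hP k n
  have h' : (((n + (k + 1)).choose (k + 1) : ℕ) : ℝ) *
      ((((k + 1 : ℕ) : ℝ) * (num P (k + 1) : ℝ)) * ((n : ℝ) * (num P n : ℝ))) ≤
      (num P (n + (k + 1)) : ℝ) * (((n + (k + 1) : ℕ) : ℝ) * 2) := by exact_mod_cast h
  have hc := choose_fact n (k + 1)
  have f1 : (0 : ℝ) < (n.factorial : ℝ) := by exact_mod_cast Nat.factorial_pos n
  have f2 : (0 : ℝ) < ((k + 1).factorial : ℝ) := by exact_mod_cast Nat.factorial_pos (k + 1)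
  have f3 : (0 : ℝ) < ((n + (k + 1)).factorial : ℝ) := by
    exact_mod_cast Nat.factorial_pos (n + (k + 1))
  have f4 : (0 : ℝ) < (((n + (k + 1)).choose (k + 1) : ℕ) : ℝ) := by
    exact_mod_cast Nat.choose_pos (Nat.le_add_left (k + 1) n)
  unfold w
  rw [div_mul_div_comm, div_le_div_iff₀ (by positivity) (by positivity), ← hc]
  nlinarith [mul_le_mul_of_nonneg_left h' (mul_pos f1 f2).le]

theorem w_le (hP : BridgeClass P) : ∃ L : ℝ, ∀ n : ℕ, 1 ≤ n → Real.log (w P n) ≤ L * n := by
  obtain ⟨K, hK⟩ := hP.small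
  refine ⟨Real.log (2 * K + 1), fun n hn => ?_⟩
  have h1 : (num P n : ℝ) ≤ (K : ℝ) ^ n * n.factorial := by exact_mod_cast hK n
  have f1 : (0 : ℝ) < (n.factorial : ℝ) := by exact_mod_cast Nat.factorial_pos n
  have h2 : (n : ℝ) ≤ 2 ^ n := by exact_mod_cast (Nat.lt_two_pow_self (n := n)).le
  have h3 : w P n ≤ (2 * K + 1) ^ n := by
    unfold w
    rw [div_le_iff₀ (by positivity)]
    have h5 : ((2 : ℝ) * K) ^ n ≤ (2 * K + 1) ^ n :=
      pow_le_pow_left₀ (by positivity) (by linarith) n
    calc (n : ℝ) * (num P n : ℝ) ≤ 2 ^ n * ((K : ℝ) ^ n * n.factorial) := by gcongr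
      _ = (2 * (K : ℝ)) ^ n * n.factorial := by rw [mul_pow]; ring
      _ ≤ (2 * K + 1) ^ n * n.factorial := by gcongr
      _ ≤ (2 * K + 1) ^ n * (2 * n.factorial) := by
        have : (0 : ℝ) ≤ (2 * K + 1) ^ n := by positivity
        nlinarith
  have h4 := Real.log_le_log (w_pos hP n hn) h3
  rw [Real.log_pow] at h4
  linarith

/-- The growth constant. -/
theorem growth (hP : BridgeClass P) : ∃ l : ℝ,
    (∀ n : ℕ, 1 ≤ n → w P n ≤ Real.exp (-(l * n))) ∧
    ∀ ε : ℝ, 0 < ε → ∀ᶠ n : ℕ in atTop, Real.exp (-((l + ε) * n)) ≤ w P n := by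
  let u : ℕ → ℝ := fun n => if n = 0 then 0 else -Real.log (w P n)
  have hu : ∀ n, 1 ≤ n → u n = -Real.log (w P n) := fun n hn => by
    simp only [u]; rw [if_neg (by omega)]
  have hsub : Subadditive u := by
    intro m n
    rcases Nat.eq_zero_or_pos m with rfl | hm
    · simp [u]
    rcases Nat.eq_zero_or_pos n with rfl | hn
    · simp [u]
    rw [hu _ hm, hu _ hn, hu _ (by omega)]
    have := Real.log_le_log (mul_pos (w_pos hP m hm) (w_pos hP n hn)) (w_super hP m n hm hn)
    rw [Real.log_mul (w_pos hP m hm).ne' (w_pos hP n hn).ne'] at this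
    linarith
  obtain ⟨L, hL⟩ := w_le hP
  have hbdd : BddBelow (Set.range fun n => u n / n) := by
    refine ⟨min 0 (-L), ?_⟩
    rintro x ⟨n, rfl⟩
    rcases Nat.eq_zero_or_pos n with rfl | hn
    · simp
    · have hn' : (0 : ℝ) < n := by exact_mod_cast hn
      refine (min_le_right _ _).trans ?_
      simp only
      rw [le_div_iff₀ hn', hu n hn]
      have := hL n hn
      linarith
  refine ⟨hsub.lim, fun n hn => ?_, fun ε hε => ?_⟩
  · have h1 := hsub.lim_le_div hbdd (n := n) (by omega)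
    have hn' : (0 : ℝ) < n := by exact_mod_cast hn
    rw [le_div_iff₀ hn', hu n hn] at h1
    rw [← Real.log_le_iff_le_exp (w_pos hP n hn)]
    linarith
  · have h1 := hsub.tendsto_lim hbdd
    have h2 : ∀ᶠ n : ℕ in atTop, u n / n < hsub.lim + ε :=
      h1.eventually (gt_mem_nhds (by linarith))
    filter_upwards [h2, eventually_ge_atTop 1] with n h3 hn
    have hn' : (0 : ℝ) < n := by exact_mod_cast hn
    rw [div_lt_iff₀ hn', hu n hn] at h3
    rw [← Real.le_log_iff_exp_le (w_pos hP n hn)]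
    linarith

/-- Repeated insertion. -/
theorem insertion (hP : BridgeClass P) {k : ℕ} (T : SimpleGraph (Fin (k + 1))) (hT : P _ T)
    (n : ℕ) (hn : k + 1 < n) (i : ℕ) :
    (Nat.card (AtMost P T n 0) : ℝ) / n.factorial *
        ((n : ℝ) / (k + 1).factorial) ^ i / i.factorial ≤
      (Nat.card (AtMost P T (n + i * (k + 1)) i) : ℝ) / (n + i * (k + 1)).factorial := by
  induction i with
  | zero => simp
  | succ i ih =>
    have h := count_ins hP T hT (n + i * (k + 1)) i (by nlinarith [Nat.zero_le (i * (k + 1))])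
    have e : n + (i + 1) * (k + 1) = n + i * (k + 1) + (k + 1) := by ring
    rw [e]
    set N := n + i * (k + 1) with hN
    have hNn : (n : ℝ) ≤ N := by
      have : n ≤ N := by rw [hN]; exact Nat.le_add_right _ _
      exact_mod_cast this
    have h' : (((N + (k + 1)).choose (k + 1) : ℕ) : ℝ) *
        ((N : ℝ) * (Nat.card (AtMost P T N i) : ℝ)) ≤
        ((i : ℝ) + 1) * (Nat.card (AtMost P T (N + (k + 1)) (i + 1)) : ℝ) := by exact_mod_cast h
    have hc := choose_fact N (k + 1)
    have f1 : (0 : ℝ) < (N.factorial : ℝ) := by exact_mod_cast Nat.factorial_pos N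
    have f2 : (0 : ℝ) < ((k + 1).factorial : ℝ) := by exact_mod_cast Nat.factorial_pos (k + 1)
    have f4 : (0 : ℝ) < (((N + (k + 1)).choose (k + 1) : ℕ) : ℝ) := by
      exact_mod_cast Nat.choose_pos (Nat.le_add_left (k + 1) N)
    have fi : (0 : ℝ) < (i : ℝ) + 1 := by positivity
    have fif : (0 : ℝ) < (i.factorial : ℝ) := by exact_mod_cast Nat.factorial_pos i
    set A : ℝ := (Nat.card (AtMost P T N i) : ℝ) with hA
    set B : ℝ := (Nat.card (AtMost P T (N + (k + 1)) (i + 1)) : ℝ) with hB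
    have hA0 : 0 ≤ A := Nat.cast_nonneg _
    have step : (n : ℝ) / (k + 1).factorial / (i + 1) * (A / N.factorial) ≤
        B / (N + (k + 1)).factorial := by
      rw [← hc, div_div, div_mul_div_comm, div_le_div_iff₀ (by positivity) (by positivity)]
      have h1 : (n : ℝ) * A ≤ N * A := mul_le_mul_of_nonneg_right hNn hA0
      have h2 : (((N + (k + 1)).choose (k + 1) : ℕ) : ℝ) * (n * A) ≤ (i + 1) * B :=
        (mul_le_mul_of_nonneg_left h1 f4.le).trans h'
      nlinarith [mul_le_mul_of_nonneg_left h2 (mul_pos f2 f1).le]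
    refine le_trans (le_of_eq ?_) (le_trans (mul_le_mul_of_nonneg_left ih
      (by positivity : (0 : ℝ) ≤ (n : ℝ) / (k + 1).factorial / (i + 1))) step)
    have hfi : ((i + 1).factorial : ℝ) = ((i : ℝ) + 1) * i.factorial := by
      rw [Nat.factorial_succ]; push_cast; ring
    rw [hfi, pow_succ]
    field_simp

/-- Graphs without a pendant copy of `T` are exponentially rare. -/
theorem rare (hP : BridgeClass P) {k : ℕ} (T : SimpleGraph (Fin (k + 1))) (hT : P _ T) :
    ∃ K κ : ℝ, 0 ≤ K ∧ 0 < κ ∧ ∀ n : ℕ, 1 ≤ n →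
      (Nat.card (AtMost P T n 0) : ℝ) ≤ K * Real.exp (-(κ * n)) * num P n := by
  obtain ⟨l, hup, hlow⟩ := growth hP
  set h : ℝ := ((k + 1 : ℕ) : ℝ) with hh
  set Q : ℝ := ((k + 1).factorial : ℝ) * Real.exp (-(l * h)) with hQ
  have fQ : 0 < Q := by
    have : (0 : ℝ) < ((k + 1).factorial : ℝ) := by exact_mod_cast Nat.factorial_pos (k + 1)
    positivity
  set δ : ℝ := Real.exp (-1) / Q with hδ
  have fδ : 0 < δ := by positivity
  -- upper bound for the graphs without copies
  have up : ∀ n : ℕ, k + 1 < n → (Nat.card (AtMost P T n 0) : ℝ) / n.factorial ≤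
      2 * Real.exp 1 * Real.exp (-(l * n)) * Real.exp (-(δ * n)) := by
    intro n hn
    have hn' : (0 : ℝ) < n := by exact_mod_cast (by omega : 0 < n)
    set i : ℕ := ⌊δ * n⌋₊ with hi
    have i1 : (i : ℝ) ≤ δ * n := Nat.floor_le (by positivity)
    have i2 : δ * n < i + 1 := Nat.lt_floor_add_one _
    set N : ℕ := n + i * (k + 1) with hN
    have hN1 : 1 ≤ N := by omega
    have e1 := insertion hP T hT n hn i
    have e2 : (Nat.card (AtMost P T N i) : ℝ) / N.factorial ≤ 2 * Real.exp (-(l * N)) := by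
      have fN : (0 : ℝ) < (N.factorial : ℝ) := by exact_mod_cast Nat.factorial_pos N
      have g1 : (Nat.card (AtMost P T N i) : ℝ) ≤ num P N := by exact_mod_cast atMost_le P T N i
      have g2 := hup N hN1
      unfold w at g2
      rw [div_le_iff₀ (by positivity)] at g2 ⊢
      have g3 : (1 : ℝ) ≤ N := by exact_mod_cast hN1
      have g4 : (0 : ℝ) ≤ num P N := Nat.cast_nonneg _
      nlinarith
    have e3 : Real.exp (-(l * N)) = Real.exp (-(l * n)) * Real.exp (-(l * h)) ^ i := by
      rw [← Real.exp_nat_mul, ← Real.exp_add]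
      congr 1
      rw [hN, hh]
      push_cast
      ring
    have ff : (0 : ℝ) < ((k + 1).factorial : ℝ) := by exact_mod_cast Nat.factorial_pos (k + 1)
    have fi : (0 : ℝ) < (i.factorial : ℝ) := by exact_mod_cast Nat.factorial_pos i
    have e4 := e1.trans e2
    rw [e3] at e4
    set X : ℝ := (Nat.card (AtMost P T n 0) : ℝ) / n.factorial with hX
    set E : ℝ := Real.exp (-(l * n)) with hE
    set F : ℝ := Real.exp (-(l * h)) with hF
    have fE : 0 < E := Real.exp_pos _
    have fF : 0 < F := Real.exp_pos _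
    have e5 : X ≤ 2 * E * ((i.factorial : ℝ) * (Q / n) ^ i) := by
      rw [div_le_iff₀ fi] at e4
      have g : (0 : ℝ) < ((n : ℝ) / (k + 1).factorial) ^ i := by positivity
      have e6 : X ≤ (2 * (E * F ^ i) * i.factorial) / ((n : ℝ) / (k + 1).factorial) ^ i := by
        rw [le_div_iff₀ g]; exact e4
      refine e6.trans (le_of_eq ?_)
      rw [hQ]
      rw [div_pow, div_pow, mul_pow]
      field_simp
    have e7 : (i.factorial : ℝ) * (Q / n) ^ i ≤ Real.exp 1 * Real.exp (-(δ * n)) := by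
      have g1 : (i.factorial : ℝ) ≤ (i : ℝ) ^ i := by exact_mod_cast Nat.factorial_le_pow i
      have g2 : (i : ℝ) * (Q / n) ≤ Real.exp (-1) := by
        have : (i : ℝ) * (Q / n) ≤ δ * n * (Q / n) :=
          mul_le_mul_of_nonneg_right i1 (by positivity)
        refine this.trans (le_of_eq ?_)
        rw [hδ]
        field_simp
      calc (i.factorial : ℝ) * (Q / n) ^ i ≤ (i : ℝ) ^ i * (Q / n) ^ i :=
            mul_le_mul_of_nonneg_right g1 (by positivity)
        _ = ((i : ℝ) * (Q / n)) ^ i := by rw [mul_pow]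
        _ ≤ Real.exp (-1) ^ i := pow_le_pow_left₀ (by positivity) g2 i
        _ = Real.exp (-(i : ℝ)) := by
          rw [← Real.exp_nat_mul]
          congr 1
          ring
        _ ≤ Real.exp (1 + -(δ * n)) := Real.exp_le_exp.2 (by linarith)
        _ = Real.exp 1 * Real.exp (-(δ * n)) := Real.exp_add _ _
    calc X ≤ 2 * E * ((i.factorial : ℝ) * (Q / n) ^ i) := e5
      _ ≤ 2 * E * (Real.exp 1 * Real.exp (-(δ * n))) :=
        mul_le_mul_of_nonneg_left e7 (by positivity)
      _ = 2 * Real.exp 1 * E * Real.exp (-(δ * n)) := by ring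
  obtain ⟨N0, hN0⟩ := eventually_atTop.1 (hlow (δ / 2) (by positivity))
  set κ : ℝ := δ / 4 with hκ
  have fκ : 0 < κ := by positivity
  set M : ℕ := max N0 (k + 2) with hM
  refine ⟨Real.exp 1 * (1 / κ) + Real.exp (κ * M), κ, by positivity, fκ, fun n hn => ?_⟩
  have hn' : (0 : ℝ) < n := by exact_mod_cast hn
  have fn : (0 : ℝ) < (n.factorial : ℝ) := by exact_mod_cast Nat.factorial_pos n
  have hnum : (0 : ℝ) ≤ num P n := Nat.cast_nonneg _
  rcases Nat.lt_or_ge n M with hlt | hge
  · have g1 : (Nat.card (AtMost P T n 0) : ℝ) ≤ num P n := by exact_mod_cast atMost_le P T n 0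
    have g2 : (n : ℝ) ≤ M := by exact_mod_cast hlt.le
    have g3 : 1 ≤ Real.exp (κ * M) * Real.exp (-(κ * n)) := by
      rw [← Real.exp_add]
      exact Real.one_le_exp (by nlinarith)
    have g4 : 0 ≤ Real.exp 1 * (1 / κ) * Real.exp (-(κ * n)) := by positivity
    have g5 : 1 ≤ (Real.exp 1 * (1 / κ) + Real.exp (κ * M)) * Real.exp (-(κ * n)) := by
      rw [add_mul]; linarith
    calc (Nat.card (AtMost P T n 0) : ℝ) ≤ 1 * num P n := by rw [one_mul]; exact g1
      _ ≤ _ := mul_le_mul_of_nonneg_right g5 hnum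
  · have g1 := up n (by have := le_max_right N0 (k + 2); omega)
    have g2 := hN0 n (by have := le_max_left N0 (k + 2); omega)
    rw [div_le_iff₀ fn] at g1
    unfold w at g2
    rw [le_div_iff₀ (by positivity)] at g2
    -- g2 : exp(-((l+δ/2) n)) * (2 * n!) ≤ n * num
    have g3 : κ * n ≤ Real.exp (κ * n) := by
      have := Real.add_one_le_exp (κ * n); linarith
    have e1 : Real.exp (-(l * n)) * Real.exp (-(δ * n)) =
        Real.exp (-((l + δ / 2) * n)) * Real.exp (-(κ * n)) * Real.exp (-(κ * n)) := by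
      rw [← Real.exp_add, ← Real.exp_add, ← Real.exp_add]
      congr 1
      rw [hκ]; ring
    set a := Real.exp (-((l + δ / 2) * n)) with ha
    set b := Real.exp (-(κ * n)) with hb
    have fb : 0 < b := Real.exp_pos _
    have e2 : Real.exp (κ * n) * b = 1 := by
      rw [hb, ← Real.exp_add, add_neg_cancel, Real.exp_zero]
    have g4 : κ * n * b ≤ 1 := by
      calc κ * n * b ≤ Real.exp (κ * n) * b := mul_le_mul_of_nonneg_right g3 fb.le
        _ = 1 := e2
    have g5 : (n : ℝ) * b ≤ 1 / κ := by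
      rw [le_div_iff₀ fκ]; linarith
    have fe : 0 < Real.exp 1 := Real.exp_pos _
    calc (Nat.card (AtMost P T n 0) : ℝ)
        ≤ 2 * Real.exp 1 * Real.exp (-(l * n)) * Real.exp (-(δ * n)) * n.factorial := g1
      _ = Real.exp 1 * b * b * (a * (2 * n.factorial)) := by
        have : 2 * Real.exp 1 * Real.exp (-(l * n)) * Real.exp (-(δ * n)) * (n.factorial : ℝ) =
          2 * Real.exp 1 * (Real.exp (-(l * n)) * Real.exp (-(δ * n))) * n.factorial := by ring
        rw [this, e1]; ring
      _ ≤ Real.exp 1 * b * b * (n * num P n) :=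
        mul_le_mul_of_nonneg_left g2 (by positivity)
      _ = Real.exp 1 * (n * b) * b * num P n := by ring
      _ ≤ Real.exp 1 * (1 / κ) * b * num P n := by gcongr
      _ ≤ (Real.exp 1 * (1 / κ) + Real.exp (κ * M)) * b * num P n := by
        have : 0 < Real.exp (κ * M) := Real.exp_pos _
        gcongr
        linarith

end Pool.Agent.Run7.h604.ZH
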