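import Pool.Agent.Run7.h604.ZH.Psm

set_option autoImplicit false
set_option linter.all false

namespace Pool.Agent.Run7.h604.ZH

open Polynomial Pool.Agent.H207R2.BL

/-- The value of the chromatic polynomial is at most `2 ^ |E| q ^ |V|` for `q ≥ 1`. -/
theorem chr_bound {V : Type} [Fintype V] (G : SimpleGraph V) (q : ℝ) (hq : 1 ≤ q) :
    |(chr G).eval q| ≤ 2 ^ (Nat.card G.edgeSet) * q ^ (Nat.card V) := by
  classical
  let c : Finset (Sym2 V) → ℕ := fun A => Nat.card (Quotient (comp A))
  let p : ℝ[X] := ∑ A ∈ G.edgeFinset.powerset, C ((-1 : ℝ) ^ A.card) * X ^ c A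
  have hp : IsChrom G p := by
    intro k
    rw [card_coloring]
    simp_rw [pr_expand]
    rw [Finset.sum_comm]
    simp only [p, Polynomial.eval_finsetSum, Polynomial.eval_mul, Polynomial.eval_C,
      Polynomial.eval_pow, Polynomial.eval_X]
    refine Finset.sum_congr rfl (fun A _ => ?_)
    have h1 := sum_ind k (comp A) (comp A)
    rw [sup_idem] at h1
    rw [← Finset.mul_sum]
    have h2 : ∑ g : V → Fin k, ind (comp A) g = ∑ g : V → Fin k, ind (comp A) g * ind (comp A) g := by
      refine Finset.sum_congr rfl (fun g _ => ?_)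
      unfold ind
      split_ifs <;> simp
    rw [h2, h1]
  rw [← eq_chr hp]
  simp only [p, Polynomial.eval_finsetSum, Polynomial.eval_mul, Polynomial.eval_C,
    Polynomial.eval_pow, Polynomial.eval_X]
  calc |∑ A ∈ G.edgeFinset.powerset, (-1 : ℝ) ^ A.card * q ^ c A|
      ≤ ∑ A ∈ G.edgeFinset.powerset, |(-1 : ℝ) ^ A.card * q ^ c A| :=
        Finset.abs_sum_le_sum_abs _ _
    _ ≤ ∑ A ∈ G.edgeFinset.powerset, q ^ (Nat.card V) := by
        apply Finset.sum_le_sum
        intro A _
        rw [abs_mul, abs_pow, abs_neg, abs_one, one_pow, one_mul, abs_of_nonneg (by positivity)]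
        apply pow_le_pow_right₀ hq
        exact Nat.card_le_card_of_surjective _ Quotient.mk_surjective
    _ = 2 ^ (Nat.card G.edgeSet) * q ^ (Nat.card V) := by
        rw [Finset.sum_const, Finset.card_powerset, nsmul_eq_mul]
        congr 1
        push_cast
        congr 1
        rw [Nat.card_eq_fintype_card, ← SimpleGraph.edgeFinset_card]

/-- A noncrossing graph on `L` points has at most `2 L` edges. -/
theorem ncg_edges {L : ℕ} (A : SimpleGraph (Fin L)) (h : NCG A) :
    Nat.card {x : Fin L × Fin L // x.1 < x.2 ∧ A.Adj x.1 x.2} ≤ L * 2 := by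
  classical
  have hinj : Function.Injective (fun x : {x : Fin L × Fin L // x.1 < x.2 ∧ A.Adj x.1 x.2} =>
      if rr A x.1.1 x.1.2 then (x.1.1, true) else (x.1.2, false)) := by
    rintro ⟨⟨i, j⟩, h1, h2⟩ ⟨⟨i', j'⟩, h1', h2'⟩ he
    simp only at he h1 h2 h1' h2'
    have hl : ∀ i j : Fin L, i < j → A.Adj i j → ¬ rr A i j →
        ll A (OrderDual.toDual j) (OrderDual.toDual i) := by
      intro i j hij ha hr
      exact ((ncg_det A h i j hij).1 ha).resolve_left hr
    by_cases r1 : rr A i j <;> by_cases r2 : rr A i' j'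
    · rw [if_pos r1, if_pos r2] at he
      have e : i = i' := congrArg Prod.fst he
      subst e
      have := (ncf_rr A h).fn i j j' r1 r2
      subst this
      rfl
    · rw [if_pos r1, if_neg r2] at he
      exact absurd (congrArg Prod.snd he) (by simp)
    · rw [if_neg r1, if_pos r2] at he
      exact absurd (congrArg Prod.snd he) (by simp)
    · rw [if_neg r1, if_neg r2] at he
      have e : j = j' := congrArg Prod.fst he
      subst e
      have := (ncf_ll A h).fn _ _ _ (hl i j h1 h2 r1) (hl i' j h1' h2' r2)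
      have e2 : i = i' := this
      subst e2
      rfl
  have := Nat.card_le_card_of_injective _ hinj
  rw [Nat.card_prod] at this
  simpa using this

/-- A planar graph with `n` vertices has at most `4 n` edges. -/
theorem planar_edges {V : Type} [Finite V] (G : SimpleGraph V) (h : PlanarRep G) :
    Nat.card G.edgeSet ≤ Nat.card V * 4 := by
  classical
  obtain ⟨L, a, A, h1, h2⟩ := exists_reduced G h
  have h3 := reduced_le G L a A h1 h2
  have h4 := ncg_edges A h1.above
  have hsurj : ∀ e : G.edgeSet, ∃ x : {x : Fin L × Fin L // x.1 < x.2 ∧ A.Adj x.1 x.2},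
      s(a x.1.1, a x.1.2) = e.1 := by
    rintro ⟨e, he⟩
    induction e using Sym2.ind with
    | _ x y =>
      obtain ⟨hne, i, j, e1, e2, e3⟩ := (h1.edges x y).1 he
      rcases lt_trichotomy i j with hlt | heq | hgt
      · exact ⟨⟨(i, j), hlt, e3⟩, by simp only; rw [e1, e2]⟩
      · exact absurd heq e3.ne
      · exact ⟨⟨(j, i), hgt, e3.symm⟩, by simp only; rw [e1, e2]; exact Sym2.eq_swap⟩
  choose φ hφ using hsurj
  have hinj : Function.Injective φ := by
    intro e e' he
    apply Subtype.ext
    rw [← hφ e, ← hφ e', he]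
  have h5 := Nat.card_le_card_of_injective φ hinj
  omega

theorem planar_mu {n : ℕ} (G : SimpleGraph (Fin n)) (h : PlanarRep G) (q : ℝ) (hq : 1 ≤ q) :
    |(chr G).eval q| ≤ (16 * q) ^ n := by
  have h1 := chr_bound G q hq
  have h2 := planar_edges G h
  have e : Nat.card (Fin n) = n := by simp
  rw [e] at h1 h2
  refine h1.trans ?_
  have h3 : (2 : ℝ) ^ (Nat.card G.edgeSet) ≤ 2 ^ (n * 4) := pow_le_pow_right₀ (by norm_num) h2
  calc (2 : ℝ) ^ (Nat.card G.edgeSet) * q ^ n ≤ 2 ^ (n * 4) * q ^ n := by gcongr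
    _ = (16 * q) ^ n := by
      rw [mul_comm n 4, pow_mul, ← mul_pow]
      norm_num

end Pool.Agent.Run7.h604.ZH
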