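import Pool.Agent.Run7.h604.ZH.Gad

set_option autoImplicit false
set_option linter.all false

namespace Pool.Agent.Run7.h604.ZH

/-- The vertices of `G` can be placed on a line so that the edges are distributed on two pages with
no crossing on either page. -/
def TwoPage {V : Type} (G : SimpleGraph V) : Prop :=
  ∃ (r : V → ℕ) (A B : SimpleGraph V),
    Function.Injective r ∧ G = A ⊔ B ∧ NonCross r A ∧ NonCross r B

/-- Finite connected two-page graphs. -/
def TwoPageConn (V : Type) (G : SimpleGraph V) : Prop :=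
  Finite V ∧ G.Connected ∧ TwoPage G

theorem nonCross_rot {V : Type} (r : V → ℕ) (A : SimpleGraph V) (h : NonCross r A) (M t : ℕ)
    (hM : ∀ x, r x < M) : NonCross (fun x => if r x < t then r x + M else r x) A := by
  intro a b c d hab hcd h1 h2 h3
  have ha := hM a
  have hb := hM b
  have hc := hM c
  have hd := hM d
  simp only at h1 h2 h3
  by_cases ka : r a < t <;> by_cases kb : r b < t <;> by_cases kc : r c < t <;>
    by_cases kd : r d < t <;> simp only [ka, kb, kc, kd, if_true, if_false] at h1 h2 h3 <;>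
  first
    | omega
    | exact h a b c d hab hcd (by omega) (by omega) (by omega)
    | exact h d c a b hcd.symm hab (by omega) (by omega) (by omega)
    | exact h b a d c hab.symm hcd.symm (by omega) (by omega) (by omega)
    | exact h c d b a hcd hab.symm (by omega) (by omega) (by omega)

theorem rot_inj {V : Type} (r : V → ℕ) (hr : Function.Injective r) (M t : ℕ)
    (hM : ∀ x, r x < M) : Function.Injective (fun x => if r x < t then r x + M else r x) := by
  intro a b h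
  have ha := hM a
  have hb := hM b
  simp only at h
  apply hr
  split_ifs at h <;> omega

theorem split_val {V : Type} (S : Set V) :
    Split (Subtype.val : S → V) (Subtype.val : (Sᶜ : Set V) → V) where
  fi := Subtype.val_injective
  gi := Subtype.val_injective
  ne := fun i j e => j.2 (e ▸ i.2)
  cov := fun w => by
    by_cases hw : w ∈ S
    · exact Or.inl ⟨⟨w, hw⟩, rfl⟩
    · exact Or.inr ⟨⟨w, hw⟩, rfl⟩

theorem nonCross_join {V : Type} (S : Set V) (s : S) (v : (Sᶜ : Set V)) (A : SimpleGraph S)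
    (B : SimpleGraph (Sᶜ : Set V)) (r : V → ℕ) (m : ℕ) (h1 : ∀ x ∈ S, r x < m)
    (h2 : ∀ x, x ∉ S → m ≤ r x) (hs : ∀ x ∈ S, r x ≤ r s) (hv : ∀ x, x ∉ S → r v ≤ r x)
    (hA : NonCross (fun x : S => r x) A) (hB : NonCross (fun x : (Sᶜ : Set V) => r x) B) :
    NonCross r (join A B Subtype.val Subtype.val s v) := by
  intro a b c d hab hcd k1 k2 k3
  have noedge : ∀ x, r s < r x → r x < r v → False := by
    intro x e1 e2
    by_cases hx : x ∈ S
    · have := hs x hx; omega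
    · have := hv x hx; omega
  have hsv : r s < r v := by
    have := h1 s s.2
    have := h2 v v.2
    omega
  rcases hab.2 with ⟨i, j, rfl, rfl, hij⟩ | ⟨i, j, rfl, rfl, hij⟩ | ⟨rfl, rfl⟩ | ⟨rfl, rfl⟩
  · have hi := h1 i i.2
    have hj := h1 j j.2
    rcases hcd.2 with ⟨i', j', rfl, rfl, hij'⟩ | ⟨i', j', rfl, rfl, hij'⟩ | ⟨rfl, rfl⟩ | ⟨rfl, rfl⟩
    · exact hA i j i' j' hij hij' k1 k2 k3
    · have := h2 i' i'.2; omega
    · have := hs j j.2; omega
    · have := h2 v v.2; omega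
  · have hi := h2 i i.2
    have hj := h2 j j.2
    rcases hcd.2 with ⟨i', j', rfl, rfl, hij'⟩ | ⟨i', j', rfl, rfl, hij'⟩ | ⟨rfl, rfl⟩ | ⟨rfl, rfl⟩
    · have := h1 i' i'.2; omega
    · exact hB i j i' j' hij hij' k1 k2 k3
    · have := h1 s s.2; omega
    · have := h1 s s.2; omega
  · exact noedge c k1 k2
  · omega

theorem twoPage_join {V : Type} [Finite V] (G : SimpleGraph V) (S : Set V) (s v : V)
    (h : OneEdge G S s v) (h1 : TwoPage (G.induce S)) (h2 : TwoPage (G.induce Sᶜ)) :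
    TwoPage G := by
  classical
  obtain ⟨r1, A1, B1, i1, g1, a1, b1⟩ := h1
  obtain ⟨r2, A2, B2, i2, g2, a2, b2⟩ := h2
  have : Fintype V := Fintype.ofFinite V
  obtain ⟨M, hM1, hM2⟩ : ∃ M : ℕ, (∀ x, r1 x < M) ∧ (∀ x, r2 x < M) := by
    obtain ⟨M1, hM1⟩ := (Set.toFinite (Set.range r1)).bddAbove
    obtain ⟨M2, hM2⟩ := (Set.toFinite (Set.range r2)).bddAbove
    refine ⟨max M1 M2 + 1, fun x => ?_, fun x => ?_⟩
    · have := hM1 ⟨x, rfl⟩; omega
    · have := hM2 ⟨x, rfl⟩; omega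
  let s' : S := ⟨s, h.1⟩
  let v' : (Sᶜ : Set V) := ⟨v, h.2.1⟩
  let r1' : S → ℕ := fun x => if r1 x < r1 s' + 1 then r1 x + M else r1 x
  let r2' : (Sᶜ : Set V) → ℕ := fun x => if r2 x < r2 v' then r2 x + M else r2 x
  let r : V → ℕ := fun x => if hx : x ∈ S then r1' ⟨x, hx⟩ else 2 * M + r2' ⟨x, hx⟩
  have rS : ∀ x : S, r x = r1' x := fun x => by
    have := x.2
    simp [r, this]
  have rC : ∀ x : (Sᶜ : Set V), r x = 2 * M + r2' x := fun x => by
    have : x.1 ∉ S := x.2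
    simp [r, this]
  have l1 : ∀ x ∈ S, r x < 2 * M := by
    intro x hx
    rw [rS ⟨x, hx⟩]
    have := hM1 ⟨x, hx⟩
    simp only [r1']
    split_ifs <;> omega
  have l2 : ∀ x, x ∉ S → 2 * M ≤ r x := by
    intro x hx
    rw [rC ⟨x, hx⟩]
    omega
  have ls : ∀ x ∈ S, r x ≤ r s' := by
    intro x hx
    rw [rS ⟨x, hx⟩, rS s']
    have := hM1 ⟨x, hx⟩
    have := hM1 s'
    simp only [r1']
    split_ifs <;> omega
  have lv : ∀ x, x ∉ S → r v' ≤ r x := by
    intro x hx
    rw [rC ⟨x, hx⟩, rC v']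
    have := hM2 ⟨x, hx⟩
    have := hM2 v'
    simp only [r2']
    split_ifs <;> omega
  have hrS : (fun x : S => r x) = r1' := funext rS
  have nc1 : ∀ A, NonCross r1 A → NonCross (fun x : S => r x) A := by
    intro A hA
    rw [hrS]
    exact nonCross_rot r1 A hA M _ hM1
  have nc2 : ∀ A, NonCross r2 A → NonCross (fun x : (Sᶜ : Set V) => r x) A := by
    intro A hA a b c d hab hcd k1 k2 k3
    simp only [rC] at k1 k2 k3
    exact nonCross_rot r2 A hA M _ hM2 a b c d hab hcd (by simpa using k1) (by simpa using k2)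
      (by simpa using k3)
  refine ⟨r, join A1 A2 Subtype.val Subtype.val s' v', join B1 B2 Subtype.val Subtype.val s' v',
    ?_, ?_, nonCross_join S s' v' A1 A2 r (2 * M) l1 l2 ls lv (nc1 _ a1) (nc2 _ a2),
    nonCross_join S s' v' B1 B2 r (2 * M) l1 l2 ls lv (nc1 _ b1) (nc2 _ b2)⟩
  · intro x y hxy
    by_cases hx : x ∈ S <;> by_cases hy : y ∈ S
    · rw [rS ⟨x, hx⟩, rS ⟨y, hy⟩] at hxy
      exact congrArg Subtype.val (rot_inj r1 i1 M _ hM1 hxy)
    · have := l1 x hx; have := l2 y hy; omega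
    · have := l1 y hy; have := l2 x hx; omega
    · rw [rC ⟨x, hx⟩, rC ⟨y, hy⟩] at hxy
      exact congrArg Subtype.val (rot_inj r2 i2 M _ hM2 (Nat.add_left_cancel hxy))
  · ext x y
    have sp := split_val S
    have gg1 : ∀ a b : S, G.Adj a b ↔ A1.Adj a b ∨ B1.Adj a b := by
      intro a b
      have : (G.induce S).Adj a b ↔ (A1 ⊔ B1).Adj a b := by rw [g1]
      simpa using this
    have gg2 : ∀ a b : (Sᶜ : Set V), G.Adj a b ↔ A2.Adj a b ∨ B2.Adj a b := by
      intro a b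
      have : (G.induce Sᶜ).Adj a b ↔ (A2 ⊔ B2).Adj a b := by rw [g2]
      simpa using this
    have cross : ∀ (x : S) (y : (Sᶜ : Set V)), G.Adj x y ↔ x = s' ∧ y = v' := by
      intro x y
      rw [h.2.2 x x.2 y y.2]
      constructor
      · rintro ⟨e1, e2⟩; exact ⟨Subtype.ext e1, Subtype.ext e2⟩
      · rintro ⟨rfl, rfl⟩; exact ⟨rfl, rfl⟩
    rw [SimpleGraph.sup_adj]
    by_cases hx : x ∈ S <;> by_cases hy : y ∈ S
    · have e1 := join_ff A1 A2 s' v' sp ⟨x, hx⟩ ⟨y, hy⟩
      have e2 := join_ff B1 B2 s' v' sp ⟨x, hx⟩ ⟨y, hy⟩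
      have e3 := gg1 ⟨x, hx⟩ ⟨y, hy⟩
      simp only at e1 e2 e3
      rw [e1, e2, e3]
    · have e1 := join_fg A1 A2 s' v' sp ⟨x, hx⟩ ⟨y, hy⟩
      have e2 := join_fg B1 B2 s' v' sp ⟨x, hx⟩ ⟨y, hy⟩
      have e3 := cross ⟨x, hx⟩ ⟨y, hy⟩
      simp only at e1 e2 e3
      rw [e1, e2, e3, or_self]
    · have e1 := join_fg A1 A2 s' v' sp ⟨y, hy⟩ ⟨x, hx⟩
      have e2 := join_fg B1 B2 s' v' sp ⟨y, hy⟩ ⟨x, hx⟩
      have e3 := cross ⟨y, hy⟩ ⟨x, hx⟩
      simp only at e1 e2 e3
      rw [SimpleGraph.adj_comm, e3, SimpleGraph.adj_comm, e1, SimpleGraph.adj_comm, e2, or_self]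
    · have e1 := join_gg A1 A2 s' v' sp ⟨x, hx⟩ ⟨y, hy⟩
      have e2 := join_gg B1 B2 s' v' sp ⟨x, hx⟩ ⟨y, hy⟩
      have e3 := gg2 ⟨x, hx⟩ ⟨y, hy⟩
      simp only at e1 e2 e3
      rw [e1, e2, e3]

theorem twoPage_induce {V : Type} (G : SimpleGraph V) (S : Set V) (h : TwoPage G) :
    TwoPage (G.induce S) := by
  obtain ⟨r, A, B, hr, hG, hA, hB⟩ := h
  refine ⟨fun x => r x, A.induce S, B.induce S, fun a b e => Subtype.ext (hr e), ?_,
    fun a b c d h1 h2 => hA a b c d h1 h2, fun a b c d h1 h2 => hB a b c d h1 h2⟩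
  ext x y
  simp [hG]

theorem twoPage_iso {V W : Type} (G : SimpleGraph V) (H : SimpleGraph W) (e : G ≃g H)
    (h : TwoPage G) : TwoPage H := by
  obtain ⟨r, A, B, hr, hG, hA, hB⟩ := h
  subst hG
  refine ⟨fun x => r (e.symm x), A.comap e.symm, B.comap e.symm,
    fun a b e' => e.symm.injective (hr e'), ?_,
    fun a b c d h1 h2 => hA _ _ _ _ h1 h2, fun a b c d h1 h2 => hB _ _ _ _ h1 h2⟩
  ext x y
  rw [← e.symm.map_adj_iff]
  rfl

/-- One side of a bridge of a connected graph is connected. -/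
theorem conn_side {V : Type} (G : SimpleGraph V) (hG : G.Connected) (S : Set V) (s v : V)
    (h : OneEdge G S s v) : (G.induce S).Connected := by
  have hne : Nonempty S := ⟨⟨s, h.1⟩⟩
  have key : ∀ x : S, (G.induce S).Reachable ⟨s, h.1⟩ x := by
    by_contra hcon
    push Not at hcon
    obtain ⟨x, hx⟩ := hcon
    obtain ⟨a, b, ha, hb, hab⟩ := exists_leaving hG.preconnected
      {y : V | ∃ hy : y ∈ S, ¬ (G.induce S).Reachable ⟨s, h.1⟩ ⟨y, hy⟩} (x := x.1) (y := s)
      ⟨x.2, hx⟩ (fun ⟨_, hy⟩ => hy (SimpleGraph.Reachable.refl _))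
    obtain ⟨haS, har⟩ := ha
    by_cases hbS : b ∈ S
    · apply hb
      refine ⟨hbS, fun hr => har ?_⟩
      exact hr.trans (SimpleGraph.Adj.reachable (G := G.induce S) (u := ⟨b, hbS⟩) (v := ⟨a, haS⟩)
        hab.symm)
    · have := (h.2.2 a haS b hbS).1 hab
      apply har
      have e : (⟨a, haS⟩ : S) = ⟨s, h.1⟩ := Subtype.ext this.1
      rw [e]
  exact { preconnected := fun x y => (key x).symm.trans (key y), nonempty := hne }

theorem conn_join {V : Type} (G : SimpleGraph V) (S : Set V) (s v : V) (h : OneEdge G S s v)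
    (h1 : (G.induce S).Connected) (h2 : (G.induce Sᶜ).Connected) : G.Connected := by
  have hne : Nonempty V := ⟨s⟩
  have hsv : G.Reachable s v := ((h.2.2 s h.1 v h.2.1).2 ⟨rfl, rfl⟩).reachable
  have key : ∀ x : V, G.Reachable s x := by
    intro x
    by_cases hx : x ∈ S
    · have := h1.preconnected ⟨s, h.1⟩ ⟨x, hx⟩
      exact this.map (SimpleGraph.Embedding.induce S).toHom
    · have := h2.preconnected ⟨v, h.2.1⟩ ⟨x, hx⟩
      exact hsv.trans (this.map (SimpleGraph.Embedding.induce Sᶜ).toHom)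
  exact { preconnected := fun x y => (key x).symm.trans (key y), nonempty := hne }

theorem twoPage_bridge (V : Type) (G : SimpleGraph V) (S : Set V) (s v : V)
    (h : OneEdge G S s v) :
    TwoPageConn V G ↔ TwoPageConn S (G.induce S) ∧ TwoPageConn (Sᶜ : Set V) (G.induce Sᶜ) := by
  constructor
  · rintro ⟨hf, hc, ht⟩
    exact ⟨⟨inferInstance, conn_side G hc S s v h, twoPage_induce G S ht⟩,
      ⟨inferInstance, conn_side G hc Sᶜ v s (oneEdge_compl G S s v h), twoPage_induce G Sᶜ ht⟩⟩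
  · rintro ⟨⟨hf1, hc1, ht1⟩, ⟨hf2, hc2, ht2⟩⟩
    have hf : Finite V := by
      have h1 : S.Finite := Set.toFinite S
      have h2 : (Sᶜ : Set V).Finite := Set.toFinite Sᶜ
      have := h1.union h2
      rw [Set.union_compl_self] at this
      exact Set.finite_univ_iff.1 this
    exact ⟨hf, conn_join G S s v h hc1 hc2, twoPage_join G S s v h ht1 ht2⟩

end Pool.Agent.Run7.h604.ZH
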