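import Pool.Agent.Run7.h604.ZH.Cls

set_option autoImplicit false
set_option linter.all false

namespace Pool.Agent.Run7.h604.ZH

open Polynomial Pool.Agent.H207R2.BL

/-- Proper colourings as functions. -/
abbrev Pc {V : Type} (G : SimpleGraph V) (k : ℕ) : Type :=
  {g : V → Fin k // ∀ a b, G.Adj a b → g a ≠ g b}

theorem card_pc {V : Type} (G : SimpleGraph V) (k : ℕ) :
    Nat.card (G.Coloring (Fin k)) = Nat.card (Pc G k) :=
  Nat.card_congr
    { toFun := fun c => ⟨fun v => c v, fun a b h => c.valid h⟩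
      invFun := fun g => SimpleGraph.Coloring.mk g.1 (fun {v w} h => g.2 v w h)
      left_inv := fun c => by ext v; rfl
      right_inv := fun g => rfl }

/-- Restriction and gluing over a single edge. -/
noncomputable def glue {V : Type} (G : SimpleGraph V) (S : Set V) (s v : V) (h : OneEdge G S s v)
    (k : ℕ) :
    Pc G k ≃ {c : Pc (G.induce S) k × Pc (G.induce Sᶜ) k // c.1.1 ⟨s, h.1⟩ ≠ c.2.1 ⟨v, h.2.1⟩} := by
  classical
  exact
  { toFun := fun g => ⟨(⟨fun x => g.1 x, fun a b hab => g.2 _ _ hab⟩,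
      ⟨fun x => g.1 x, fun a b hab => g.2 _ _ hab⟩),
      g.2 s v ((h.2.2 s h.1 v h.2.1).2 ⟨rfl, rfl⟩)⟩
    invFun := fun c => ⟨fun x => if hx : x ∈ S then c.1.1.1 ⟨x, hx⟩ else c.1.2.1 ⟨x, hx⟩, by
      intro a b hab
      by_cases ha : a ∈ S <;> by_cases hb : b ∈ S
      · simp only [ha, hb, dif_pos]
        exact c.1.1.2 ⟨a, ha⟩ ⟨b, hb⟩ hab
      · simp only [ha, hb, dif_pos, dif_neg, not_false_iff]
        obtain ⟨h1, h2⟩ := (h.2.2 a ha b hb).1 hab
        subst h1; subst h2
        exact c.2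
      · simp only [ha, hb, dif_pos, dif_neg, not_false_iff]
        obtain ⟨h1, h2⟩ := (h.2.2 b hb a ha).1 hab.symm
        subst h1; subst h2
        exact fun e => c.2 e.symm
      · simp only [ha, hb, dif_neg, not_false_iff]
        exact c.1.2.2 ⟨a, ha⟩ ⟨b, hb⟩ hab⟩
    left_inv := by
      intro g
      apply Subtype.ext
      funext x
      by_cases hx : x ∈ S <;> simp [hx]
    right_inv := by
      rintro ⟨⟨c, d⟩, hcd⟩
      apply Subtype.ext
      refine Prod.ext ?_ ?_
      · apply Subtype.ext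
        funext x
        have := x.2
        simp [this]
      · apply Subtype.ext
        funext x
        have : x.1 ∉ S := x.2
        simp [this] }

/-- Shifting colours. -/
noncomputable def shift {V W : Type} (A : SimpleGraph V) (B : SimpleGraph W) (s : V) (v : W) (k : ℕ) :
    {c : Pc A (k + 1) × Pc B (k + 1) // c.1.1 s = c.2.1 v} × Fin (k + 1) ≃
      Pc A (k + 1) × Pc B (k + 1) where
  toFun x := (x.1.1.1, ⟨fun w => x.1.1.2.1 w + x.2, fun a b hab e =>
    x.1.1.2.2 a b hab (add_right_cancel e)⟩)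
  invFun y := (⟨(y.1, ⟨fun w => y.2.1 w - (y.2.1 v - y.1.1 s), fun a b hab e =>
    y.2.2 a b hab (sub_left_injective e)⟩), by simp⟩, y.2.1 v - y.1.1 s)
  left_inv := by
    rintro ⟨⟨⟨c, d⟩, hcd⟩, i⟩
    simp only at hcd
    refine Prod.ext ?_ ?_
    · apply Subtype.ext
      refine Prod.ext rfl ?_
      apply Subtype.ext
      funext w
      simp only
      rw [← hcd]
      abel
    · simp only
      rw [← hcd]
      abel
  right_inv := by
    rintro ⟨c, d⟩
    refine Prod.ext rfl ?_
    apply Subtype.ext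
    funext w
    simp

theorem card_one_edge {V : Type} [Finite V] (G : SimpleGraph V) (S : Set V) (s v : V)
    (h : OneEdge G S s v) (k : ℕ) :
    (k : ℝ) * (Nat.card (G.Coloring (Fin k)) : ℝ) =
      ((k : ℝ) - 1) * ((Nat.card ((G.induce S).Coloring (Fin k)) : ℝ) *
        (Nat.card ((G.induce Sᶜ).Coloring (Fin k)) : ℝ)) := by
  classical
  rw [card_pc, card_pc, card_pc]
  cases k with
  | zero =>
    have : IsEmpty (Pc (G.induce S) 0) := ⟨fun c => (c.1 ⟨s, h.1⟩).elim0⟩
    simp
  | succ k =>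
    have h1 := Nat.card_congr (glue G S s v h (k + 1))
    have h2 := Nat.card_congr (shift (G.induce S) (G.induce Sᶜ) ⟨s, h.1⟩ ⟨v, h.2.1⟩ k)
    rw [Nat.card_prod, Nat.card_prod, Nat.card_eq_fintype_card (α := Fin (k + 1)),
      Fintype.card_fin] at h2
    have h3 : Nat.card {c : Pc (G.induce S) (k + 1) × Pc (G.induce Sᶜ) (k + 1) //
          c.1.1 ⟨s, h.1⟩ = c.2.1 ⟨v, h.2.1⟩} +
        Nat.card {c : Pc (G.induce S) (k + 1) × Pc (G.induce Sᶜ) (k + 1) //
          c.1.1 ⟨s, h.1⟩ ≠ c.2.1 ⟨v, h.2.1⟩} =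
        Nat.card (Pc (G.induce S) (k + 1)) * Nat.card (Pc (G.induce Sᶜ) (k + 1)) := by
      rw [← Nat.card_prod, ← Nat.card_sum]
      exact Nat.card_congr (Equiv.sumCompl _)
    rw [h1]
    have h2' : (Nat.card {c : Pc (G.induce S) (k + 1) × Pc (G.induce Sᶜ) (k + 1) //
          c.1.1 ⟨s, h.1⟩ = c.2.1 ⟨v, h.2.1⟩} : ℝ) * ((k : ℝ) + 1) =
        (Nat.card (Pc (G.induce S) (k + 1)) : ℝ) * (Nat.card (Pc (G.induce Sᶜ) (k + 1)) : ℝ) := by
      exact_mod_cast h2
    have h3' : (Nat.card {c : Pc (G.induce S) (k + 1) × Pc (G.induce Sᶜ) (k + 1) //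
          c.1.1 ⟨s, h.1⟩ = c.2.1 ⟨v, h.2.1⟩} : ℝ) +
        (Nat.card {c : Pc (G.induce S) (k + 1) × Pc (G.induce Sᶜ) (k + 1) //
          c.1.1 ⟨s, h.1⟩ ≠ c.2.1 ⟨v, h.2.1⟩} : ℝ) =
        (Nat.card (Pc (G.induce S) (k + 1)) : ℝ) * (Nat.card (Pc (G.induce Sᶜ) (k + 1)) : ℝ) := by
      exact_mod_cast h3
    push_cast
    nlinarith [h2', h3']

theorem chr_eq {V : Type} [Finite V] {G : SimpleGraph V} {p : ℝ[X]} (h : IsChrom G p) (q : ℝ) :
    p.eval q = (chr G).eval q := by rw [eq_chr h]

theorem chr_one_edge {V : Type} [Finite V] (G : SimpleGraph V) (S : Set V) (s v : V)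
    (h : OneEdge G S s v) (q : ℝ) :
    q * (chr G).eval q = (q - 1) * ((chr (G.induce S)).eval q * (chr (G.induce Sᶜ)).eval q) := by
  have key : (X : ℝ[X]) * chr G = (X - 1) * (chr (G.induce S) * chr (G.induce Sᶜ)) := by
    apply Polynomial.eq_of_infinite_eval_eq
    apply Set.infinite_of_injective_forall_mem (f := fun k : ℕ => (k : ℝ)) Nat.cast_injective
    intro k
    simp only [Set.mem_setOf_eq, eval_mul, eval_X, eval_sub, eval_one]
    rw [chr_spec G k, chr_spec (G.induce S) k, chr_spec (G.induce Sᶜ) k]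
    exact card_one_edge G S s v h k
  have := congrArg (Polynomial.eval q) key
  simpa using this

theorem isChrom_iso {V W : Type} {G : SimpleGraph V} {H : SimpleGraph W} (e : G ≃g H) {p : ℝ[X]}
    (h : IsChrom G p) : IsChrom H p := by
  intro k
  rw [h k]
  congr 1
  exact Nat.card_congr
    { toFun := fun c => c.comp e.symm.toHom
      invFun := fun c => c.comp e.toHom
      left_inv := fun c => by ext v; simp
      right_inv := fun c => by ext v; simp }

theorem chr_iso {V W : Type} [Finite V] [Finite W] {G : SimpleGraph V} {H : SimpleGraph W}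
    (e : G ≃g H) : chr H = chr G :=
  (eq_chr (isChrom_iso e (chr_spec G))).symm

theorem posAt_iff {V : Type} [Finite V] (G : SimpleGraph V) (q : ℝ) :
    PosAt q G ↔ 0 < (chr G).eval q :=
  ⟨fun ⟨p, hp, h⟩ => by rwa [← chr_eq hp], fun h => ⟨chr G, chr_spec G, h⟩⟩

theorem zeroAt_iff {V : Type} [Finite V] (G : SimpleGraph V) (q : ℝ) :
    ZeroAt q G ↔ (chr G).eval q = 0 :=
  ⟨fun ⟨p, hp, h⟩ => by rwa [← chr_eq hp], fun h => ⟨chr G, chr_spec G, h⟩⟩

theorem chr_point (q : ℝ) : (chr (⊥ : SimpleGraph (Fin 1))).eval q = q := by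
  have : IsChrom (⊥ : SimpleGraph (Fin 1)) (X : ℝ[X]) := by
    intro k
    rw [card_pc, eval_X]
    congr 1
    have : Nat.card (Pc (⊥ : SimpleGraph (Fin 1)) k) = Nat.card (Fin k) :=
      Nat.card_congr
        { toFun := fun g => g.1 0
          invFun := fun i => ⟨fun _ => i, fun a b h => absurd h (by simp)⟩
          left_inv := fun g => by
            apply Subtype.ext
            funext x
            have : x = 0 := Subsingleton.elim _ _
            rw [this]
          right_inv := fun i => rfl }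
    rw [this]
    simp
  rw [← chr_eq this, eval_X]

/-- A map which reflects and preserves adjacency identifies a graph with an induced subgraph. -/
theorem iso_range {A W : Type} (T : SimpleGraph A) (H : SimpleGraph W) (f : A → W)
    (hf : Function.Injective f) (hT : ∀ i j, H.Adj (f i) (f j) ↔ T.Adj i j) (S : Set W)
    (hS : Set.range f = S) : Nonempty (T ≃g H.induce S) := by
  subst hS
  exact ⟨{ toEquiv := Equiv.ofInjective f hf, map_rel_iff' := by intro a b; exact hT a b }⟩

end Pool.Agent.Run7.h604.ZH
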