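import Pool.Agent.Run7.h604.ZH.Defs
import Pool.Agent.H207R2.BL.Woodall

/-! Classes of connected graphs closed under adding and deleting bridges. -/

set_option autoImplicit false

namespace Pool.Agent.Run7.h604.ZH

/-- Exactly one edge of `G` leaves the vertex set `S`; it joins `s` in `S` to `v` outside `S`. -/
def OneEdge {V : Type} (G : SimpleGraph V) (S : Set V) (s v : V) : Prop :=
  s ∈ S ∧ v ∉ S ∧ ∀ x ∈ S, ∀ y, y ∉ S → (G.Adj x y ↔ x = s ∧ y = v)

/-- A class of finite connected graphs which is closed under isomorphism, contains the graph with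
one vertex, is closed under adding a bridge between two members and under deleting a bridge, and
is small: it has at most `K ^ n * n!` members with vertex set `{0, …, n-1}`. -/
structure BridgeClass (P : (V : Type) → SimpleGraph V → Prop) : Prop where
  fin : ∀ (V : Type) (G : SimpleGraph V), P V G → Finite V
  conn : ∀ (V : Type) (G : SimpleGraph V), P V G → G.Connected
  iso : ∀ (V W : Type) (G : SimpleGraph V) (H : SimpleGraph W),
    Nonempty (G ≃g H) → P V G → P W H
  one : P (Fin 1) ⊥
  bridge : ∀ (V : Type) (G : SimpleGraph V) (S : Set V) (s v : V), OneEdge G S s v →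
    (P V G ↔ P S (G.induce S) ∧ P (Sᶜ : Set V) (G.induce Sᶜ))
  small : ∃ K : ℕ, ∀ n : ℕ, num P n ≤ K ^ n * n.factorial

end Pool.Agent.Run7.h604.ZH
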