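import Pool.Agent.Run7.h604.ZH.Gad

set_option autoImplicit false
set_option linter.all false

namespace Pool.Agent.Run7.h604.ZH

open Pool.Agent.H207R2.BL

theorem card_compl_aux {k n : ℕ} (S : Finset (Fin (n + (k + 1)))) (hS : S.card = k + 1) :
    Sᶜ.card = n := by
  rw [Finset.card_compl, hS, Fintype.card_fin]; omega

theorem split_finset {k n : ℕ} (S : Finset (Fin (n + (k + 1)))) (hS : S.card = k + 1) :
    Split (S.orderEmbOfFin hS) (Sᶜ.orderEmbOfFin (card_compl_aux S hS)) where
  fi := (S.orderEmbOfFin hS).injective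
  gi := (Sᶜ.orderEmbOfFin (card_compl_aux S hS)).injective
  ne := by
    intro i j e
    have h1 := S.orderEmbOfFin_mem hS i
    have h2 := Sᶜ.orderEmbOfFin_mem (card_compl_aux S hS) j
    rw [← e, Finset.mem_compl] at h2
    exact h2 h1
  cov := by
    intro w
    by_cases hw : w ∈ S
    · left
      have : w ∈ Set.range (S.orderEmbOfFin hS) := by
        rw [Finset.range_orderEmbOfFin]; exact hw
      exact this
    · right
      have : w ∈ Set.range (Sᶜ.orderEmbOfFin (card_compl_aux S hS)) := by
        rw [Finset.range_orderEmbOfFin]; simpa using hw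
      exact this

abbrev FS (k n : ℕ) : Type := {S : Finset (Fin (n + (k + 1))) // S.card = k + 1}

theorem card_FS (k n : ℕ) : Nat.card (FS k n) = (n + (k + 1)).choose (k + 1) := by
  have : Nat.card (FS k n) =
      ((Finset.univ : Finset (Fin (n + (k + 1)))).powersetCard (k + 1)).card := by
    rw [Nat.card_eq_fintype_card, Fintype.card_subtype]
    congr 1
    ext S
    simp [Finset.mem_powersetCard]
  rw [this, Finset.card_powersetCard, Finset.card_univ, Fintype.card_fin]

variable {P : (V : Type) → SimpleGraph V → Prop}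

/-- Members with at most `j` pendant copies of `T`. -/
abbrev AtMost (P : (V : Type) → SimpleGraph V → Prop) {k : ℕ} (T : SimpleGraph (Fin (k + 1)))
    (n j : ℕ) : Type :=
  {G : SimpleGraph (Fin n) // P (Fin n) G ∧ Nat.card {f // Cop T G f} ≤ j}

theorem count_ins (hP : BridgeClass P) {k : ℕ} (T : SimpleGraph (Fin (k + 1)))
    (hT : P _ T) (n j : ℕ) (hn : k + 1 < n) :
    (n + (k + 1)).choose (k + 1) * (n * Nat.card (AtMost P T n j)) ≤
      (j + 1) * Nat.card (AtMost P T (n + (k + 1)) (j + 1)) := by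
  classical
  let em : ∀ S : FS k n, Fin (k + 1) ↪o Fin (n + (k + 1)) := fun S => S.1.orderEmbOfFin S.2
  let em' : ∀ S : FS k n, Fin n ↪o Fin (n + (k + 1)) :=
    fun S => S.1ᶜ.orderEmbOfFin (card_compl_aux S.1 S.2)
  have hs : ∀ S : FS k n, Split (em S) (em' S) := fun S => split_finset S.1 S.2
  have hmem : ∀ (S : FS k n) (v : Fin n) (G : AtMost P T n j),
      P _ (join T G.1 (em S) (em' S) 0 v) := fun S v G => join_mem T G.1 0 v (hs S) hP hT G.2.1
  have hcop : ∀ (S : FS k n) (v : Fin n) (G : AtMost P T n j),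
      Cop T (join T G.1 (em S) (em' S) 0 v) (em S) :=
    fun S v G => ⟨join_ff T G.1 0 v (hs S), _, join_oneEdge T G.1 0 v (hs S)⟩
  have hcard : ∀ (S : FS k n) (v : Fin n) (G : AtMost P T n j),
      Nat.card {f // Cop T (join T G.1 (em S) (em' S) 0 v) f} ≤ j + 1 := by
    intro S v G
    have hcl : ∀ f' : {f // Cop T (join T G.1 (em S) (em' S) 0 v) f}, ∃ o : Option {f // Cop T G.1 f},
        (o = none → f'.1 = em S) ∧ ∀ f'', o = some f'' → ∀ i, em' S (f''.1 i) = f'.1 i := by
      intro f'
      by_cases he : f'.1 = em S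
      · exact ⟨none, fun _ => he, fun f'' h => by simp at h⟩
      · obtain ⟨f'', h1, h2⟩ := cop_class T (hP.conn _ _ hT).preconnected G.1
          (hP.conn _ _ G.2.1).preconnected (em S) (em' S) (hs S) hn (by omega) v
          (hP.conn _ _ (hmem S v G)).preconnected f'.1 f'.2 he
        refine ⟨some ⟨f'', h1⟩, fun h => by simp at h, fun f3 h => ?_⟩
        have : f3 = ⟨f'', h1⟩ := (Option.some_injective _ h).symm
        rw [this]
        exact h2
    choose o ho1 ho2 using hcl
    have hinj : Function.Injective o := by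
      intro a b hab
      apply Subtype.ext
      cases hb : o b with
      | none => rw [ho1 a (hab.trans hb), ho1 b hb]
      | some f'' =>
        apply RelEmbedding.ext
        intro i
        rw [← ho2 a f'' (hab.trans hb) i, ← ho2 b f'' hb i]
    have := Nat.card_le_card_of_injective o hinj
    rw [Finite.card_option] at this
    have := G.2.2
    omega
  let Φ : FS k n × (Fin n × AtMost P T n j) →
      {y : AtMost P T (n + (k + 1)) (j + 1) × (Fin (k + 1) ↪o Fin (n + (k + 1))) //
        Cop T y.1.1 y.2} :=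
    fun x => ⟨(⟨join T x.2.2.1 (em x.1) (em' x.1) 0 x.2.1, hmem x.1 x.2.1 x.2.2,
      hcard x.1 x.2.1 x.2.2⟩, em x.1), hcop x.1 x.2.1 x.2.2⟩
  have hinj : Function.Injective Φ := by
    rintro ⟨S, v, G⟩ ⟨S', v', G'⟩ he
    have he' : join T G.1 (em S) (em' S) 0 v = join T G'.1 (em S') (em' S') 0 v' :=
      congrArg (fun y => y.1.1.1) he
    have hu : em S = em S' := congrArg (fun y => y.1.2) he
    have hSS : S = S' := by
      apply Subtype.ext
      have h1 := Finset.range_orderEmbOfFin S.1 S.2
      have h2 := Finset.range_orderEmbOfFin S'.1 S'.2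
      have h3 : Set.range (em S) = Set.range (em S') := by rw [hu]
      exact Finset.coe_injective (h1.symm.trans (h3.trans h2))
    subst hSS
    have hG : G = G' := by
      apply Subtype.ext
      ext i j
      rw [← join_gg T G.1 0 v (hs S), he', join_gg T G'.1 0 v' (hs S)]
    have hv : v = v' := by
      have := (join_fg T G.1 0 v (hs S) 0 v).2 ⟨rfl, rfl⟩
      rw [he'] at this
      exact ((join_fg T G'.1 0 v' (hs S) 0 v).1 this).2
    rw [hG, hv]
  have h := Nat.card_le_card_of_injective Φ hinj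
  rw [Nat.card_prod, Nat.card_prod, card_FS, Nat.card_eq_fintype_card (α := Fin n),
    Fintype.card_fin] at h
  refine h.trans ?_
  have : Fintype (AtMost P T (n + (k + 1)) (j + 1)) := Fintype.ofFinite _
  rw [Nat.card_congr (Equiv.subtypeProdEquivSigmaSubtype
    (fun (a : AtMost P T (n + (k + 1)) (j + 1)) (b : Fin (k + 1) ↪o Fin (n + (k + 1))) =>
      Cop T a.1 b)), Nat.card_sigma]
  calc ∑ a : AtMost P T (n + (k + 1)) (j + 1), Nat.card {b // Cop T a.1 b}
      ≤ ∑ a : AtMost P T (n + (k + 1)) (j + 1), (j + 1) := Finset.sum_le_sum (fun a _ => a.2.2)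
    _ = (j + 1) * Nat.card (AtMost P T (n + (k + 1)) (j + 1)) := by
      rw [Finset.sum_const, Finset.card_univ, Nat.card_eq_fintype_card, smul_eq_mul, mul_comm]

/-- Almost supermultiplicativity. -/
theorem count_super (hP : BridgeClass P) (k n : ℕ) :
    (n + (k + 1)).choose (k + 1) * (((k + 1) * num P (k + 1)) * (n * num P n)) ≤
      num P (n + (k + 1)) * ((n + (k + 1)) * 2) := by
  classical
  let em : ∀ S : FS k n, Fin (k + 1) ↪o Fin (n + (k + 1)) := fun S => S.1.orderEmbOfFin S.2
  let em' : ∀ S : FS k n, Fin n ↪o Fin (n + (k + 1)) :=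
    fun S => S.1ᶜ.orderEmbOfFin (card_compl_aux S.1 S.2)
  have hs : ∀ S : FS k n, Split (em S) (em' S) := fun S => split_finset S.1 S.2
  let z : Fin (n + (k + 1)) := ⟨0, by omega⟩
  let A := Fin (k + 1) × {T : SimpleGraph (Fin (k + 1)) // P _ T}
  let B := Fin n × {G : SimpleGraph (Fin n) // P _ G}
  have hmem : ∀ (S : FS k n) (a : A) (b : B), P _ (join a.2.1 b.2.1 (em S) (em' S) a.1 b.1) :=
    fun S a b => join_mem a.2.1 b.2.1 a.1 b.1 (hs S) hP a.2.2 b.2.2
  let Φ : FS k n × (A × B) →
      {J : SimpleGraph (Fin (n + (k + 1))) // P _ J} × (Fin (n + (k + 1)) × Bool) :=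
    fun x => (⟨join x.2.1.2.1 x.2.2.2.1 (em x.1) (em' x.1) x.2.1.1 x.2.2.1,
      hmem x.1 x.2.1 x.2.2⟩,
      if z ∈ Set.range (em x.1) then (em' x.1 x.2.2.1, true) else (em x.1 x.2.1.1, false))
  have hinj : Function.Injective Φ := by
    rintro ⟨S, a, b⟩ ⟨S', a', b'⟩ he
    have he' : join a.2.1 b.2.1 (em S) (em' S) a.1 b.1 =
        join a'.2.1 b'.2.1 (em S') (em' S') a'.1 b'.1 := congrArg (fun y => y.1.1) he
    have ht : (if z ∈ Set.range (em S) then (em' S b.1, true) else (em S a.1, false)) =
        (if z ∈ Set.range (em S') then (em' S' b'.1, true) else (em S' a'.1, false)) :=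
      congrArg (fun y => y.2) he
    have o1 := join_oneEdge a.2.1 b.2.1 a.1 b.1 (hs S)
    have o2 := join_oneEdge a'.2.1 b'.2.1 a'.1 b'.1 (hs S')
    have m1 := hmem S a b
    rw [← he'] at o2
    have c1 := (hP.conn _ _ ((hP.bridge _ _ _ _ _ o1).1 m1).1).preconnected
    have c1' := (hP.conn _ _ ((hP.bridge _ _ _ _ _ o1).1 m1).2).preconnected
    have c2 := (hP.conn _ _ ((hP.bridge _ _ _ _ _ o2).1 m1).1).preconnected
    have hxy : em S a.1 = em S' a'.1 ∧ em' S b.1 = em' S' b'.1 := by
      by_cases hz : z ∈ Set.range (em S) <;> by_cases hz' : z ∈ Set.range (em S')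
      · rw [if_pos hz, if_pos hz'] at ht
        have e := congrArg Prod.fst ht
        simp only at e
        rw [← e] at o2
        exact ⟨tag_unique _ _ _ _ _ _ z o1 o2 hz hz' c1, e⟩
      · rw [if_pos hz, if_neg hz'] at ht
        exact absurd (congrArg Prod.snd ht) (by simp)
      · rw [if_neg hz, if_pos hz'] at ht
        exact absurd (congrArg Prod.snd ht) (by simp)
      · rw [if_neg hz, if_neg hz'] at ht
        have e := congrArg Prod.fst ht
        simp only at e
        have o1' := oneEdge_compl _ _ _ _ o1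
        have o2' := oneEdge_compl _ _ _ _ o2
        rw [← e] at o2'
        exact ⟨e, tag_unique _ _ _ _ _ _ z o1' o2' hz hz' c1'⟩
    rw [← hxy.1, ← hxy.2] at o2
    have hr : Set.range (em S) = Set.range (em S') :=
      Set.Subset.antisymm (side_sub _ _ _ _ _ o1 o2 c1) (side_sub _ _ _ _ _ o2 o1 c2)
    have hSS : S = S' := by
      apply Subtype.ext
      have h1 := Finset.range_orderEmbOfFin S.1 S.2
      have h2 := Finset.range_orderEmbOfFin S'.1 S'.2
      exact Finset.coe_injective (h1.symm.trans (hr.trans h2))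
    subst hSS
    have ha : a.1 = a'.1 := (em S).injective hxy.1
    have hb : b.1 = b'.1 := (em' S).injective hxy.2
    have hT : a.2 = a'.2 := by
      apply Subtype.ext
      ext i j
      rw [← join_ff a.2.1 b.2.1 a.1 b.1 (hs S), he', join_ff a'.2.1 b'.2.1 a'.1 b'.1 (hs S)]
    have hG : b.2 = b'.2 := by
      apply Subtype.ext
      ext i j
      rw [← join_gg a.2.1 b.2.1 a.1 b.1 (hs S), he', join_gg a'.2.1 b'.2.1 a'.1 b'.1 (hs S)]
    rw [Prod.ext ha hT, Prod.ext hb hG]
  have h := Nat.card_le_card_of_injective Φ hinj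
  have hA : Nat.card A = (k + 1) * num P (k + 1) := by
    rw [Nat.card_prod, Nat.card_eq_fintype_card (α := Fin (k + 1)), Fintype.card_fin]; rfl
  have hB : Nat.card B = n * num P n := by
    rw [Nat.card_prod, Nat.card_eq_fintype_card (α := Fin n), Fintype.card_fin]; rfl
  rw [Nat.card_prod, Nat.card_prod, card_FS, hA, hB, Nat.card_prod, Nat.card_prod,
    Nat.card_eq_fintype_card (α := Fin (n + (k + 1))), Fintype.card_fin,
    Nat.card_eq_fintype_card (α := Bool), Fintype.card_bool] at h
  exact h

end Pool.Agent.Run7.h604.ZH
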