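import Pool.Agent.H207R2.BL.Defs

/-!
Labelled connected planar graphs, given by line representations, and the share of them on which the
chromatic polynomial is positive or zero at a given point.
-/

set_option autoImplicit false

namespace Pool.Agent.Run7.h604.ZH

open Polynomial

/-- No two edges of `A` cross when the vertices are placed on a line in the order given by `r` and
the edges are drawn as half circles above the line. -/
def NonCross {V : Type} (r : V → ℕ) (A : SimpleGraph V) : Prop :=
  ∀ a b c d : V, A.Adj a b → A.Adj c d → r a < r c → r c < r b → r b < r d → False

/-- A line representation of `G`: the elements of `I` are points of a line in the order of `r`, the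
point `i` carries the vertex `a i`, every vertex is carried by some point, the sets of points with
the same vertex do not cross below the line, and the edges of `G` are those of a graph `A` on the
points whose edges do not cross above the line. -/
structure LineRep {V I : Type} (G : SimpleGraph V) (r : I → ℕ) (a : I → V) (A : SimpleGraph I) :
    Prop where
  inj : Function.Injective r
  surj : Function.Surjective a
  below : ∀ i j k l : I, r i < r j → r j < r k → r k < r l → a i = a k → a j = a l → a i = a j
  above : NonCross r A
  edges : ∀ x y : V, G.Adj x y ↔ x ≠ y ∧ ∃ i j : I, a i = x ∧ a j = y ∧ A.Adj i j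

/-- `G` has a line representation with finitely many points. These are exactly the finite planar
graphs: contracting, below the line, the set of points of each vertex draws `G` in the plane;
conversely walk around a spanning tree of each component of a plane drawing. -/
def PlanarRep {V : Type} (G : SimpleGraph V) : Prop :=
  ∃ (I : Type) (r : I → ℕ) (a : I → V) (A : SimpleGraph I), Finite I ∧ LineRep G r a A

/-- Finite connected planar graphs. -/
def PlanarConn (V : Type) (G : SimpleGraph V) : Prop :=
  G.Connected ∧ PlanarRep G

/-- The chromatic polynomial of `G` is positive at `q`. -/
def PosAt (q : ℝ) {V : Type} (G : SimpleGraph V) : Prop :=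
  ∃ p : ℝ[X], Pool.Agent.H207R2.BL.IsChrom G p ∧ 0 < p.eval q

/-- The chromatic polynomial of `G` is zero at `q`. -/
def ZeroAt (q : ℝ) {V : Type} (G : SimpleGraph V) : Prop :=
  ∃ p : ℝ[X], Pool.Agent.H207R2.BL.IsChrom G p ∧ p.eval q = 0

/-- The number of graphs with vertex set `{0, …, n-1}` which lie in the class `P`. -/
noncomputable def num (P : (V : Type) → SimpleGraph V → Prop) (n : ℕ) : ℕ :=
  Nat.card {G : SimpleGraph (Fin n) // P (Fin n) G}

/-- The share of the graphs with the property `R` among all graphs of the class `P` with vertex set
`{0, …, n-1}`. -/
noncomputable def share (P : (V : Type) → SimpleGraph V → Prop) (n : ℕ)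
    (R : SimpleGraph (Fin n) → Prop) : ℝ :=
  (Nat.card {G : SimpleGraph (Fin n) // P (Fin n) G ∧ R G} : ℝ) / (num P n : ℝ)

end Pool.Agent.Run7.h604.ZH
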