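import Pool.Agent.Run7.h604.ZH.Tr

set_option autoImplicit false
set_option linter.all false

namespace Pool.Agent.Run7.h604.ZH

open SimpleGraph

/-- Every finite forest is an induced subgraph of a finite tree. -/
theorem forest_in_tree : ∀ (m : ℕ) (V : Type) (F : SimpleGraph V), Finite V → Nat.card V = m →
    F.IsAcyclic → ∃ (A : Type) (T : SimpleGraph A), TreeConn A T ∧ Nonempty (F ↪g T) := by
  classical
  intro m
  induction m using Nat.strong_induction_on with
  | _ m ih =>
    intro V F hf hm hF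
    by_cases hconn : F.Connected
    · exact ⟨V, F, ⟨hf, hconn, hF⟩, ⟨SimpleGraph.Embedding.refl⟩⟩
    by_cases hV : Nonempty V
    swap
    · have hE : IsEmpty V := not_nonempty_iff.1 hV
      exact ⟨Fin 1, ⊥, tree_class.one,
        ⟨{ toFun := fun x => (hE.false x).elim, inj' := fun x => (hE.false x).elim,
           map_rel_iff' := by intro a; exact (hE.false a).elim }⟩⟩
    have hpre : ¬ F.Preconnected := fun h => hconn { preconnected := h, nonempty := hV }
    unfold SimpleGraph.Preconnected at hpre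
    push Not at hpre
    obtain ⟨x, y, hxy⟩ := hpre
    let S : Set V := {z | F.Reachable x z}
    have hno : ∀ a b, a ∈ S → b ∉ S → ¬ F.Adj a b :=
      fun a b ha hb hab => hb (Reachable.trans ha hab.reachable)
    have hxS : x ∈ S := Reachable.refl _
    have hyS : y ∉ S := hxy
    have c1 : Nat.card S < m := by
      rw [← hm, Nat.card_coe_set_eq, ← Set.ncard_univ]
      exact Set.ncard_lt_ncard (Set.ssubset_univ_iff.2 (fun h => hyS (h ▸ Set.mem_univ y)))
        (Set.toFinite _)
    have c2 : Nat.card (Sᶜ : Set V) < m := by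
      rw [← hm, Nat.card_coe_set_eq, ← Set.ncard_univ]
      refine Set.ncard_lt_ncard (Set.ssubset_univ_iff.2 (fun h => ?_)) (Set.toFinite _)
      have : x ∈ (Sᶜ : Set V) := h ▸ Set.mem_univ x
      exact this hxS
    obtain ⟨A, T1, hT1, ⟨e1⟩⟩ := ih _ c1 S (F.induce S) inferInstance rfl (hF.induce S)
    obtain ⟨B, T2, hT2, ⟨e2⟩⟩ := ih _ c2 (Sᶜ : Set V) (F.induce Sᶜ) inferInstance rfl
      (hF.induce Sᶜ)
    obtain ⟨a⟩ := hT1.2.1.nonempty
    obtain ⟨b⟩ := hT2.2.1.nonempty
    have s1 := split_sum (Fin 1) A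
    have s2 := split_sum (Fin 1 ⊕ A) B
    let J1 : SimpleGraph (Fin 1 ⊕ A) := join (⊥ : SimpleGraph (Fin 1)) T1 Sum.inl Sum.inr 0 a
    have hJ1 : TreeConn _ J1 := join_mem _ T1 0 a s1 tree_class tree_class.one hT1
    let J2 : SimpleGraph ((Fin 1 ⊕ A) ⊕ B) := join J1 T2 Sum.inl Sum.inr (Sum.inl 0) b
    have hJ2 : TreeConn _ J2 := join_mem _ T2 (Sum.inl 0) b s2 tree_class hJ1 hT2
    let φ : V → (Fin 1 ⊕ A) ⊕ B := fun z =>
      if hz : z ∈ S then Sum.inl (Sum.inr (e1 ⟨z, hz⟩)) else Sum.inr (e2 ⟨z, hz⟩)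
    have φ1 : ∀ (z : V) (hz : z ∈ S), φ z = Sum.inl (Sum.inr (e1 ⟨z, hz⟩)) := fun z hz => by
      simp only [φ]; rw [dif_pos hz]
    have φ2 : ∀ (z : V) (hz : z ∉ S), φ z = Sum.inr (e2 ⟨z, hz⟩) := fun z hz => by
      simp only [φ]; rw [dif_neg hz]
    have hadj : ∀ u v, J2.Adj (φ u) (φ v) ↔ F.Adj u v := by
      intro u v
      by_cases hu : u ∈ S <;> by_cases hv : v ∈ S
      · rw [φ1 u hu, φ1 v hv, join_ff J1 T2 (Sum.inl 0) b s2,
          join_gg (⊥ : SimpleGraph (Fin 1)) T1 0 a s1, e1.map_adj_iff]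
        exact Iff.rfl
      · rw [φ1 u hu, φ2 v hv, join_fg J1 T2 (Sum.inl 0) b s2]
        constructor
        · rintro ⟨h, _⟩; exact absurd h (by simp)
        · intro h; exact absurd h (hno u v hu hv)
      · rw [φ2 u hu, φ1 v hv, SimpleGraph.adj_comm, join_fg J1 T2 (Sum.inl 0) b s2]
        constructor
        · rintro ⟨h, _⟩; exact absurd h (by simp)
        · intro h; exact absurd h.symm (hno v u hv hu)
      · rw [φ2 u hu, φ2 v hv, join_gg J1 T2 (Sum.inl 0) b s2, e2.map_adj_iff]
        exact Iff.rfl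
    have hinj : Function.Injective φ := by
      intro u v huv
      by_cases hu : u ∈ S <;> by_cases hv : v ∈ S
      · rw [φ1 u hu, φ1 v hv] at huv
        have := e1.injective (Sum.inr_injective (Sum.inl_injective huv))
        exact congrArg Subtype.val this
      · rw [φ1 u hu, φ2 v hv] at huv; simp at huv
      · rw [φ2 u hu, φ1 v hv] at huv; simp at huv
      · rw [φ2 u hu, φ2 v hv] at huv
        have := e2.injective (Sum.inr_injective huv)
        exact congrArg Subtype.val this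
    exact ⟨_, J2, hJ2, ⟨{ toFun := φ, inj' := hinj, map_rel_iff' := by intro u v; exact hadj u v }⟩⟩

theorem gyarfas_sumner :
    (∀ (V : Type) (F : SimpleGraph V), Finite V → F.IsAcyclic → ChiBounding V F) ∨
    (∃ K κ : ℝ, 0 < κ ∧ ∀ n : ℕ, 1 ≤ n →
      share TreeConn n (fun T => ChiBounding (Fin n) T) ≤ K * Real.exp (-(κ * n))) := by
  rcases hered tree_class ChiBounding chi_hered with h | h
  · left
    intro V F hf hF
    obtain ⟨A, T, hT, he⟩ := forest_in_tree _ V F hf rfl hF
    exact chi_hered V A F T he (h A T hT)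
  · exact Or.inr h

end Pool.Agent.Run7.h604.ZH
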