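import Pool.Agent.Run7.h604.ZH.Chr

set_option autoImplicit false
set_option linter.all false

namespace Pool.Agent.Run7.h604.ZH

open Pool.Agent.H207R2.BL

structure Split {A B W : Type} (f : A → W) (g : B → W) : Prop where
  fi : Function.Injective f
  gi : Function.Injective g
  ne : ∀ i j, f i ≠ g j
  cov : ∀ w, (∃ i, f i = w) ∨ (∃ j, g j = w)

/-- Two graphs joined by one edge. -/
def join {A B W : Type} (T : SimpleGraph A) (G : SimpleGraph B) (f : A → W) (g : B → W) (a : A)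
    (v : B) : SimpleGraph W where
  Adj x y := x ≠ y ∧ ((∃ i j, f i = x ∧ f j = y ∧ T.Adj i j) ∨
    (∃ i j, g i = x ∧ g j = y ∧ G.Adj i j) ∨ (x = f a ∧ y = g v) ∨ (x = g v ∧ y = f a))
  symm := ⟨by
    rintro x y ⟨h, ⟨i, j, h1, h2, h3⟩ | ⟨i, j, h1, h2, h3⟩ | ⟨h1, h2⟩ | ⟨h1, h2⟩⟩
    · exact ⟨h.symm, Or.inl ⟨j, i, h2, h1, h3.symm⟩⟩
    · exact ⟨h.symm, Or.inr (Or.inl ⟨j, i, h2, h1, h3.symm⟩)⟩
    · exact ⟨h.symm, Or.inr (Or.inr (Or.inr ⟨h2, h1⟩))⟩
    · exact ⟨h.symm, Or.inr (Or.inr (Or.inl ⟨h2, h1⟩))⟩⟩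
  loopless := ⟨fun x h => h.1 rfl⟩

section
variable {A B W : Type} (T : SimpleGraph A) (G : SimpleGraph B) {f : A → W} {g : B → W} (a : A)
  (v : B) (h : Split f g)
include h

theorem join_ff (i j : A) : (join T G f g a v).Adj (f i) (f j) ↔ T.Adj i j := by
  constructor
  · rintro ⟨hne, ⟨i', j', h1, h2, h3⟩ | ⟨i', j', h1, h2, h3⟩ | ⟨h1, h2⟩ | ⟨h1, h2⟩⟩
    · rw [← h.fi h1, ← h.fi h2]; exact h3
    · exact absurd h1.symm (h.ne _ _)
    · exact absurd h2 (h.ne _ _)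
    · exact absurd h1 (h.ne _ _)
  · intro hT
    exact ⟨fun e => hT.ne (h.fi e), Or.inl ⟨i, j, rfl, rfl, hT⟩⟩

theorem join_gg (i j : B) : (join T G f g a v).Adj (g i) (g j) ↔ G.Adj i j := by
  constructor
  · rintro ⟨hne, ⟨i', j', h1, h2, h3⟩ | ⟨i', j', h1, h2, h3⟩ | ⟨h1, h2⟩ | ⟨h1, h2⟩⟩
    · exact absurd h1 (h.ne _ _)
    · rw [← h.gi h1, ← h.gi h2]; exact h3
    · exact absurd h1.symm (h.ne _ _)
    · exact absurd h2.symm (h.ne _ _)
  · intro hT
    exact ⟨fun e => hT.ne (h.gi e), Or.inr (Or.inl ⟨i, j, rfl, rfl, hT⟩)⟩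

theorem join_fg (i : A) (j : B) : (join T G f g a v).Adj (f i) (g j) ↔ i = a ∧ j = v := by
  constructor
  · rintro ⟨hne, ⟨i', j', h1, h2, h3⟩ | ⟨i', j', h1, h2, h3⟩ | ⟨h1, h2⟩ | ⟨h1, h2⟩⟩
    · exact absurd h2 (h.ne _ _)
    · exact absurd h1.symm (h.ne _ _)
    · exact ⟨h.fi h1, h.gi h2⟩
    · exact absurd h1 (h.ne _ _)
  · rintro ⟨rfl, rfl⟩
    exact ⟨h.ne _ _, Or.inr (Or.inr (Or.inl ⟨rfl, rfl⟩))⟩

theorem join_oneEdge : OneEdge (join T G f g a v) (Set.range f) (f a) (g v) := by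
  refine ⟨⟨a, rfl⟩, ?_, ?_⟩
  · rintro ⟨i, hi⟩; exact h.ne _ _ hi
  · rintro x ⟨i, rfl⟩ y hy
    rcases h.cov y with ⟨i', rfl⟩ | ⟨j, rfl⟩
    · exact absurd ⟨i', rfl⟩ hy
    · rw [join_fg T G a v h]
      exact ⟨fun e => ⟨congrArg f e.1, congrArg g e.2⟩, fun e => ⟨h.fi e.1, h.gi e.2⟩⟩

theorem range_compl : Set.range g = (Set.range f)ᶜ := by
  ext w
  constructor
  · rintro ⟨j, rfl⟩ ⟨i, hi⟩
    exact h.ne _ _ hi
  · intro hw
    rcases h.cov w with ⟨i, rfl⟩ | ⟨j, rfl⟩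
    · exact absurd ⟨i, rfl⟩ hw
    · exact ⟨j, rfl⟩

theorem join_iso1 : Nonempty (T ≃g (join T G f g a v).induce (Set.range f)) :=
  iso_range T _ f h.fi (join_ff T G a v h) _ rfl

theorem join_iso2 : Nonempty (G ≃g (join T G f g a v).induce (Set.range f)ᶜ) :=
  iso_range G _ g h.gi (join_gg T G a v h) _ (range_compl h)

theorem join_mem {P : (V : Type) → SimpleGraph V → Prop} (hP : BridgeClass P) (hT : P A T)
    (hG : P B G) : P W (join T G f g a v) :=
  (hP.bridge W _ _ _ _ (join_oneEdge T G a v h)).2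
    ⟨hP.iso _ _ _ _ (join_iso1 T G a v h) hT, hP.iso _ _ _ _ (join_iso2 T G a v h) hG⟩

theorem join_chr [Finite A] [Finite B] [Finite W] (q : ℝ) :
    q * (chr (join T G f g a v)).eval q = (q - 1) * ((chr T).eval q * (chr G).eval q) := by
  rw [chr_one_edge _ _ _ _ (join_oneEdge T G a v h) q]
  obtain ⟨e1⟩ := join_iso1 T G a v h
  obtain ⟨e2⟩ := join_iso2 T G a v h
  rw [chr_iso e1, chr_iso e2]

end

/-- A nonempty proper set of vertices of a connected graph is left by an edge. -/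
theorem exists_leaving {V : Type} {G : SimpleGraph V} (hG : G.Preconnected) (S : Set V)
    {x y : V} (hx : x ∈ S) (hy : y ∉ S) : ∃ a b, a ∈ S ∧ b ∉ S ∧ G.Adj a b := by
  obtain ⟨p⟩ := hG x y
  obtain ⟨d, -, h1, h2⟩ := p.exists_boundary_dart S hx hy
  exact ⟨d.fst, d.snd, h1, h2, d.adj⟩

/-- Pendant sets of the same size which meet are equal, in a connected graph with more than twice
as many vertices. -/
theorem overlap {V : Type} [Finite V] (H : SimpleGraph V) (hH : H.Preconnected) (S S' : Set V)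
    (s v s' v' : V) (h : OneEdge H S s v) (h' : OneEdge H S' s' v')
    (hc : (H.induce S).Preconnected) (hc' : (H.induce S').Preconnected)
    (hcard : S.ncard = S'.ncard) (hbig : 2 * S.ncard < Nat.card V) (hne : S ≠ S')
    {z : V} (hz : z ∈ S) (hz' : z ∈ S') : False := by
  have step : ∀ (S S' : Set V) (s v : V), OneEdge H S s v → (H.induce S').Preconnected →
      S.ncard = S'.ncard → S ≠ S' → z ∈ S → z ∈ S' → v ∈ S' := by
    intro S S' s v h hc' hcard hne hz hz'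
    have : ¬ S' ⊆ S := fun hs => hne (Set.eq_of_subset_of_ncard_le hs hcard.le (Set.toFinite _)).symm
    obtain ⟨w, hw, hw'⟩ := Set.not_subset.1 this
    obtain ⟨a, b, ha, hb, hab⟩ := exists_leaving hc' {x : S' | x.1 ∈ S} (x := ⟨z, hz'⟩)
      (y := ⟨w, hw⟩) hz hw'
    have := (h.2.2 a.1 ha b.1 hb).1 hab
    rw [← this.2]
    exact b.2
  have h1 := step S S' s v h hc' hcard hne hz hz'
  have h2 := step S' S s' v' h' hc hcard.symm hne.symm hz' hz
  have huniv : ∀ y, y ∈ S ∪ S' := by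
    intro y
    by_contra hy
    obtain ⟨a, b, ha, hb, hab⟩ := exists_leaving hH (S ∪ S') (x := z) (Or.inl hz) hy
    rcases ha with ha | ha
    · have := (h.2.2 a ha b (fun hb' => hb (Or.inl hb'))).1 hab
      exact hb (Or.inr (this.2 ▸ h1))
    · have := (h'.2.2 a ha b (fun hb' => hb (Or.inr hb'))).1 hab
      exact hb (Or.inl (this.2 ▸ h2))
  have h3 : (S ∪ S').ncard = Nat.card V := by
    rw [Set.eq_univ_of_forall huniv, Set.ncard_univ]
  have h4 := Set.ncard_union_le S S'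
  omega

/-- A labelled pendant copy of `T` in `G`. -/
def Cop {k n : ℕ} (T : SimpleGraph (Fin (k + 1))) (G : SimpleGraph (Fin n))
    (f : Fin (k + 1) ↪o Fin n) : Prop :=
  (∀ i j, G.Adj (f i) (f j) ↔ T.Adj i j) ∧ ∃ v, OneEdge G (Set.range f) (f 0) v

theorem ncard_range {k n : ℕ} (f : Fin (k + 1) ↪o Fin n) : (Set.range f).ncard = k + 1 := by
  rw [← Set.image_univ, Set.ncard_image_of_injective _ f.injective, Set.ncard_univ]
  simp

theorem preconn_range {k n : ℕ} (T : SimpleGraph (Fin (k + 1))) (hT : T.Preconnected)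
    (G : SimpleGraph (Fin n)) (f : Fin (k + 1) ↪o Fin n)
    (h : ∀ i j, G.Adj (f i) (f j) ↔ T.Adj i j) : (G.induce (Set.range f)).Preconnected := by
  obtain ⟨e⟩ := iso_range T G f f.injective h _ rfl
  exact (SimpleGraph.Iso.preconnected_iff e).1 hT

/-- Two different pendant copies of connected graphs of the same size are disjoint. -/
theorem cop_disjoint {k n : ℕ} (T T' : SimpleGraph (Fin (k + 1))) (hT : T.Preconnected)
    (hT' : T'.Preconnected) (G : SimpleGraph (Fin n)) (hG : G.Preconnected)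
    (hn : 2 * (k + 1) < n) (f f' : Fin (k + 1) ↪o Fin n) (h : Cop T G f) (h' : Cop T' G f')
    (hne : f ≠ f') (i j : Fin (k + 1)) : f i ≠ f' j := by
  intro e
  obtain ⟨h1, v, h2⟩ := h
  obtain ⟨h1', v', h2'⟩ := h'
  refine overlap G hG _ _ _ _ _ _ h2 h2' (preconn_range T hT G f h1)
    (preconn_range T' hT' G f' h1') ?_ ?_ ?_ ⟨i, rfl⟩ ⟨j, e.symm⟩
  · rw [ncard_range, ncard_range]
  · rw [ncard_range, Nat.card_eq_fintype_card, Fintype.card_fin]; exact hn
  · intro hr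
    exact hne (OrderEmbedding.range_inj.1 hr)

/-- A pendant copy in the joined graph is the inserted one or comes from `G`. -/
theorem cop_class {k n N : ℕ} (T : SimpleGraph (Fin (k + 1))) (hT : T.Preconnected)
    (G : SimpleGraph (Fin n)) (hG : G.Preconnected) (f : Fin (k + 1) ↪o Fin N) (g : Fin n ↪o Fin N)
    (hs : Split f g) (hn : k + 1 < n) (hN : 2 * (k + 1) < N) (v : Fin n)
    (hJ : (join T G f g 0 v).Preconnected) (f' : Fin (k + 1) ↪o Fin N)
    (hf' : Cop T (join T G f g 0 v) f') (hne : f' ≠ f) :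
    ∃ f'' : Fin (k + 1) ↪o Fin n, Cop T G f'' ∧ ∀ i, g (f'' i) = f' i := by
  have hf : Cop T (join T G f g 0 v) f := ⟨join_ff T G 0 v hs, g v, join_oneEdge T G 0 v hs⟩
  have hd := cop_disjoint T T hT hT _ hJ hN f' f hf' hf hne
  have hex : ∀ i, ∃ j, g j = f' i := by
    intro i
    rcases hs.cov (f' i) with ⟨a, ha⟩ | hb
    · exact absurd ha.symm (hd i a)
    · exact hb
  choose u hu using hex
  have hmono : StrictMono u := by
    intro i j hij
    have := f'.strictMono hij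
    rw [← hu i, ← hu j] at this
    exact g.lt_iff_lt.1 this
  let f'' : Fin (k + 1) ↪o Fin n := OrderEmbedding.ofStrictMono u hmono
  have hf'' : ∀ i, g (f'' i) = f' i := hu
  obtain ⟨h1, w, h2⟩ := hf'
  have hwr : w ∉ Set.range f' := h2.2.1
  have hadj : ∀ i (y : Fin n), y ∉ Set.range f'' → (G.Adj (f'' i) y ↔ f' i = f' 0 ∧ g y = w) := by
    intro i y hy
    rw [← join_gg T G 0 v hs, hf'']
    apply h2.2.2 (f' i) ⟨i, rfl⟩ (g y)
    rintro ⟨j, hj⟩
    apply hy
    refine ⟨j, ?_⟩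
    apply g.injective
    rw [hf'', hj]
  rcases hs.cov w with ⟨a, ha⟩ | ⟨b, hb⟩
  · -- the edge leaving goes to the inserted copy
    exfalso
    have hfull : ∀ y, y ∈ Set.range f'' := by
      intro y
      by_contra hy
      obtain ⟨a', b', ha', hb', hab⟩ := exists_leaving hG (Set.range f'') (x := f'' 0) ⟨0, rfl⟩ hy
      obtain ⟨i, rfl⟩ := ha'
      have := (hadj i b' hb').1 hab
      rw [← ha] at this
      exact hs.ne _ _ this.2.symm
    have : (Set.range f'').ncard = n := by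
      rw [Set.eq_univ_of_forall hfull, Set.ncard_univ]
      simp
    rw [ncard_range] at this
    omega
  · refine ⟨f'', ⟨?_, b, ⟨0, rfl⟩, ?_, ?_⟩, hf''⟩
    · intro i j
      rw [← join_gg T G 0 v hs, hf'', hf'']
      exact h1 i j
    · rintro ⟨i, hi⟩
      apply hwr
      refine ⟨i, ?_⟩
      rw [← hf'', hi, hb]
    · rintro x ⟨i, rfl⟩ y hy
      rw [hadj i y hy, ← hb]
      constructor
      · rintro ⟨e1, e2⟩
        exact ⟨congrArg f'' (f'.injective e1), g.injective e2⟩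
      · rintro ⟨e1, e2⟩
        exact ⟨congrArg f' (f''.injective e1), congrArg g e2⟩

/-- A side of a bridge is determined by the bridge. -/
theorem side_sub {V : Type} (J : SimpleGraph V) (S S' : Set V) (x y : V) (h : OneEdge J S x y)
    (h' : OneEdge J S' x y) (hc : (J.induce S).Preconnected) : S ⊆ S' := by
  intro z hz
  by_contra hz'
  obtain ⟨a, b, ha, hb, hab⟩ := exists_leaving hc {w : S | w.1 ∈ S'} (x := ⟨x, h.1⟩)
    (y := ⟨z, hz⟩) h'.1 hz'
  have := (h'.2.2 a.1 ha b.1 hb).1 hab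
  exact h.2.1 (this.2 ▸ b.2)

/-- At most one bridge leaves `y` towards `z`. -/
theorem tag_unique {V : Type} (J : SimpleGraph V) (S S' : Set V) (x x' y z : V)
    (h : OneEdge J S x y) (h' : OneEdge J S' x' y) (hz : z ∈ S) (hz' : z ∈ S')
    (hc : (J.induce S).Preconnected) : x = x' := by
  by_contra hne
  have hxy : J.Adj x y := (h.2.2 x h.1 y h.2.1).2 ⟨rfl, rfl⟩
  have hx : x ∉ S' := fun hx => hne ((h'.2.2 x hx y h'.2.1).1 hxy).1
  obtain ⟨a, b, ha, hb, hab⟩ := exists_leaving hc {w : S | w.1 ∈ S'} (x := ⟨z, hz⟩)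
    (y := ⟨x, h.1⟩) hz' hx
  have := (h'.2.2 a.1 ha b.1 hb).1 hab
  exact h.2.1 (this.2 ▸ b.2)

theorem oneEdge_compl {V : Type} (G : SimpleGraph V) (S : Set V) (s v : V) (h : OneEdge G S s v) :
    OneEdge G Sᶜ v s := by
  refine ⟨h.2.1, fun hs => hs h.1, ?_⟩
  intro x hx y hy
  have hy' : y ∈ S := by simpa using hy
  rw [SimpleGraph.adj_comm, h.2.2 y hy' x hx]
  exact and_comm

end Pool.Agent.Run7.h604.ZH
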