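import Pool.Agent.Run7.h604.ZH.Swap

set_option autoImplicit false
set_option linter.all false

namespace Pool.Agent.Run7.h604.ZH

open Pool.Agent.H207R2.BL

variable {P : (V : Type) → SimpleGraph V → Prop}

/-- Members without a pendant copy of `T`. -/
abbrev NoCop (P : (V : Type) → SimpleGraph V → Prop) {k : ℕ} (T : SimpleGraph (Fin (k + 1)))
    (n : ℕ) : Type :=
  {G : SimpleGraph (Fin n) // P (Fin n) G ∧ ∀ f, ¬ Cop T G f}

theorem noCop_le {k : ℕ} (T : SimpleGraph (Fin (k + 1))) (n : ℕ) :
    Nat.card (NoCop P T n) ≤ Nat.card (AtMost P T n 0) :=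
  Nat.card_le_card_of_injective (fun G : NoCop P T n =>
      (⟨G.1, G.2.1, by
        have : IsEmpty {f // Cop T G.1 f} := ⟨fun f => G.2.2 f.1 f.2⟩
        rw [Nat.card_of_isEmpty]⟩ : AtMost P T n 0))
    (fun a b h => Subtype.ext (by simpa using h))

theorem noCop_rare (hP : BridgeClass P) {k : ℕ} (T : SimpleGraph (Fin (k + 1))) (hT : P _ T) :
    ∃ K κ : ℝ, 0 ≤ K ∧ 0 < κ ∧ ∀ n : ℕ, 1 ≤ n →
      (Nat.card (NoCop P T n) : ℝ) ≤ K * Real.exp (-(κ * n)) * num P n := by
  obtain ⟨K, κ, h1, h2, h3⟩ := rare hP T hT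
  refine ⟨K, κ, h1, h2, fun n hn => le_trans ?_ (h3 n hn)⟩
  exact_mod_cast noCop_le T n

theorem some_congr {α : Type} {X Y : Set α} (h : X = Y) (hX : X.Nonempty) (hY : Y.Nonempty) :
    hX.some = hY.some := by
  subst h; rfl

theorem balance (hP : BridgeClass P) {k n : ℕ} (T T' : SimpleGraph (Fin (k + 1))) (hT : P _ T)
    (hT' : P _ T') (q : ℝ) (hq : 1 < q) (h1 : (chr T).eval q < 0) (h2 : 0 < (chr T').eval q)
    (hz : ∀ G : SimpleGraph (Fin n), P _ G → (chr G).eval q ≠ 0) (hn : 2 * (k + 1) < n) :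
    |2 * (Nat.card {G : SimpleGraph (Fin n) // P (Fin n) G ∧ PosAt q G} : ℤ) - (num P n : ℤ)| ≤
      (Nat.card (NoCop P T n) : ℤ) := by
  classical
  have hne : T ≠ T' := by
    rintro rfl
    linarith
  let s : Finset (SimpleGraph (Fin n)) := Finset.univ.filter (fun G => P (Fin n) G)
  have hnum : num P n = s.card := by
    unfold num
    rw [Nat.card_eq_fintype_card, Fintype.card_subtype]
  have hpos : Nat.card {G : SimpleGraph (Fin n) // P (Fin n) G ∧ PosAt q G} =
      (s.filter (fun G => PosAt q G)).card := by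
    rw [Nat.card_eq_fintype_card, Fintype.card_subtype, Finset.filter_filter]
  have hno : Nat.card (NoCop P T n) = (s.filter (fun G => ∀ f, ¬ Cop T G f)).card := by
    rw [Nat.card_eq_fintype_card, Fintype.card_subtype, Finset.filter_filter]
  let σ : SimpleGraph (Fin n) → ℤ := fun G => ((SignType.sign ((chr G).eval q) : SignType) : ℤ)
  have hsum : ∑ G ∈ s, σ G = 2 * ((s.filter (fun G => PosAt q G)).card : ℤ) - (s.card : ℤ) := by
    rw [Finset.card_filter, Finset.card_eq_sum_ones]
    push_cast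
    rw [Finset.mul_sum, ← Finset.sum_sub_distrib]
    apply Finset.sum_congr rfl
    intro G hG
    have hGP : P _ G := (Finset.mem_filter.1 hG).2
    simp only [σ, posAt_iff]
    rcases lt_trichotomy ((chr G).eval q) 0 with h | h | h
    · rw [sign_neg h, if_neg (not_lt.2 h.le)]; rfl
    · exact absurd h (hz G hGP)
    · rw [sign_pos h, if_pos h]; rfl
  rw [hpos, hnum, ← hsum, hno]
  rw [← Finset.sum_filter_add_sum_filter_not s (fun G => (copies T T' G).Nonempty)]
  have hzero : ∑ G ∈ s.filter (fun G => (copies T T' G).Nonempty), σ G = 0 := by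
    refine Finset.sum_involution
      (fun G hG => sw T T' G (Finset.mem_filter.1 hG).2.some) ?_ ?_ ?_ ?_
    · intro G hG
      have hm := Finset.mem_filter.1 hG
      have := sw_sign T T' q hq h1 h2 G _ hm.2.some_mem
      simp only [σ]
      rw [this]
      generalize SignType.sign ((chr G).eval q) = x
      revert x
      decide
    · intro G hG hne' he
      have hm := Finset.mem_filter.1 hG
      have := sw_sign T T' q hq h1 h2 G _ hm.2.some_mem
      rw [he] at this
      apply hne'
      simp only [σ]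
      revert this
      generalize SignType.sign ((chr G).eval q) = x
      revert x
      decide
    · intro G hG
      have hm := Finset.mem_filter.1 hG
      have hGP : P _ G := (Finset.mem_filter.1 hm.1).2
      obtain ⟨f1, f2, f3⟩ := sw_facts hP T T' hT hT' hne G hGP hn _ hm.2.some_mem
      refine Finset.mem_filter.2 ⟨Finset.mem_filter.2 ⟨Finset.mem_univ _, f1⟩, ?_⟩
      rw [f2]
      exact hm.2
    · intro G hG
      have hm := Finset.mem_filter.1 hG
      have hGP : P _ G := (Finset.mem_filter.1 hm.1).2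
      obtain ⟨f1, f2, f3⟩ := sw_facts hP T T' hT hT' hne G hGP hn _ hm.2.some_mem
      have hne2 : (copies T T' (sw T T' G hm.2.some)).Nonempty := by rw [f2]; exact hm.2
      have he : hne2.some = hm.2.some := some_congr f2 _ _
      change sw T T' (sw T T' G hm.2.some) hne2.some = G
      rw [he]
      exact f3
  rw [hzero, zero_add]
  calc |∑ G ∈ s.filter (fun G => ¬ (copies T T' G).Nonempty), σ G|
      ≤ ∑ G ∈ s.filter (fun G => ¬ (copies T T' G).Nonempty), |σ G| :=
        Finset.abs_sum_le_sum_abs _ _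
    _ ≤ ∑ G ∈ s.filter (fun G => ¬ (copies T T' G).Nonempty), (1 : ℤ) := by
        apply Finset.sum_le_sum
        intro G _
        simp only [σ]
        generalize SignType.sign ((chr G).eval q) = x
        revert x
        decide
    _ = ((s.filter (fun G => ¬ (copies T T' G).Nonempty)).card : ℤ) := by simp
    _ ≤ ((s.filter (fun G => ∀ f, ¬ Cop T G f)).card : ℤ) := by
        exact_mod_cast Finset.card_le_card (by
          intro G hG
          have hm := Finset.mem_filter.1 hG
          refine Finset.mem_filter.2 ⟨hm.1, fun f hf => hm.2 ⟨f, Or.inl hf⟩⟩)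

theorem zero_count (hP : BridgeClass P) {k n : ℕ} (T : SimpleGraph (Fin (k + 1)))
    (q : ℝ) (hq : 1 < q) (h1 : (chr T).eval q = 0) :
    num P n ≤ Nat.card {G : SimpleGraph (Fin n) // P (Fin n) G ∧ ZeroAt q G} +
      Nat.card (NoCop P T n) := by
  classical
  rw [← Nat.card_sum]
  unfold num
  refine Nat.card_le_card_of_injective
    (fun G : {G : SimpleGraph (Fin n) // P (Fin n) G} =>
      if h : ∀ f, ¬ Cop T G.1 f then Sum.inr (⟨G.1, G.2, h⟩ : NoCop P T n)
      else Sum.inl ⟨G.1, G.2, by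
        push Not at h
        obtain ⟨f, hf⟩ := h
        rw [zeroAt_iff]
        have := chr_cop G.1 T f hf q
        rw [h1] at this
        have hq0 : q ≠ 0 := by linarith
        have h3 : q * (chr G.1).eval q = 0 := by rw [this]; ring
        exact (mul_eq_zero.1 h3).resolve_left hq0⟩) ?_
  intro a b hab
  by_cases ha : ∀ f, ¬ Cop T a.1 f <;> by_cases hb : ∀ f, ¬ Cop T b.1 f
  · simp only [ha, hb, dif_pos, not_false_iff, implies_true] at hab
    exact Subtype.ext (by simpa using hab)
  · simp [ha, hb] at hab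
  · simp [ha, hb] at hab
  · simp only [ha, hb, dif_neg, not_false_iff] at hab
    exact Subtype.ext (by simpa using hab)

/-- Transport to `Fin (k + 1)`. -/
theorem to_fin (hP : BridgeClass P) {V : Type} (G : SimpleGraph V) (hG : P V G) :
    ∃ (k : ℕ) (T : SimpleGraph (Fin (k + 1))), P _ T ∧ Nonempty (G ≃g T) := by
  have hfin := hP.fin V G hG
  have : Nonempty V := (hP.conn V G hG).nonempty
  have hpos : 0 < Nat.card V := Nat.card_pos
  obtain ⟨k, hk⟩ : ∃ k, Nat.card V = k + 1 := ⟨Nat.card V - 1, by omega⟩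
  let e : V ≃ Fin (k + 1) := Finite.equivFinOfCardEq hk
  exact ⟨k, G.map e.toEmbedding, hP.iso _ _ _ _ ⟨SimpleGraph.Iso.map e G⟩ hG,
    ⟨SimpleGraph.Iso.map e G⟩⟩

/-- A graph whose chromatic polynomial is not positive at `q` has a real root at least `q`. -/
theorem exists_root {V : Type} [Finite V] (G : SimpleGraph V) (q : ℝ) (h : (chr G).eval q ≤ 0) :
    ∃ t : ℝ, q ≤ t ∧ (chr G).eval t = 0 := by
  obtain ⟨Pz, hP, hPc⟩ := exists_chrom G
  have hm : (chr G).Monic := by
    rw [← eq_chr hPc]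
    exact hP.map _
  have hdeg : 0 < (chr G).degree := by
    rw [← Polynomial.natDegree_pos_iff_degree_pos]
    by_contra hn
    have h0 : (chr G).natDegree = 0 := by omega
    have h1 := Polynomial.eq_C_of_natDegree_eq_zero h0
    have h2 : (chr G).coeff 0 = 1 := by
      have h3 : (chr G).coeff (chr G).natDegree = 1 := hm
      rwa [h0] at h3
    rw [h1, h2, Polynomial.eval_C] at h
    linarith
  have ht := Polynomial.tendsto_atTop_of_leadingCoeff_nonneg (chr G) hdeg
    (by rw [hm.leadingCoeff]; norm_num)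
  obtain ⟨b, hb⟩ := (ht.eventually (Filter.eventually_ge_atTop 0)).exists_forall_of_atTop
  have h2 := hb (max b q) (le_max_left _ _)
  have hc : ContinuousOn (fun x => (chr G).eval x) (Set.Icc q (max b q)) :=
    (chr G).continuous.continuousOn
  obtain ⟨t, ht1, ht2⟩ := intermediate_value_Icc (le_max_right b q) hc ⟨h, h2⟩
  exact ⟨t, ht1.1, ht2⟩

/-- All or exponentially few. -/
theorem all_or_few (hP : BridgeClass P) (x : ℝ) (hx : 1 < x) :
    (∀ (V : Type) (G : SimpleGraph V), P V G → ∀ q : ℝ, x ≤ q → PosAt q G) ∨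
    (∃ K κ : ℝ, 0 < κ ∧ ∀ n : ℕ, 1 ≤ n →
      share P n (fun G => ∀ q : ℝ, x ≤ q → PosAt q G) ≤ K * Real.exp (-(κ * n))) := by
  by_cases hall : ∀ (V : Type) (G : SimpleGraph V), P V G → ∀ q : ℝ, x ≤ q → PosAt q G
  · exact Or.inl hall
  right
  push Not at hall
  obtain ⟨V, G, hG, q, hq, hz⟩ := hall
  obtain ⟨k, T, hT, ⟨e⟩⟩ := to_fin hP G hG
  have hfin := hP.fin V G hG
  have hT0 : (chr T).eval q ≤ 0 := by
    rw [chr_iso e]
    exact not_lt.1 (fun h => hz ((posAt_iff G q).2 h))
  obtain ⟨t, ht1, ht2⟩ := exists_root T q hT0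
  obtain ⟨K, κ, hK0, hκ, hK⟩ := noCop_rare hP T hT
  refine ⟨K, κ, hκ, fun n hn => ?_⟩
  have hnum : (0 : ℝ) < num P n := by exact_mod_cast num_pos hP n hn
  unfold share
  rw [div_le_iff₀ hnum]
  refine le_trans ?_ (hK n hn)
  have hcard : Nat.card {G : SimpleGraph (Fin n) // P (Fin n) G ∧ ∀ q : ℝ, x ≤ q → PosAt q G} ≤
      Nat.card (NoCop P T n) :=
    Nat.card_le_card_of_injective
      (fun G : {G : SimpleGraph (Fin n) // P (Fin n) G ∧ ∀ q : ℝ, x ≤ q → PosAt q G} =>
        (⟨G.1, G.2.1, fun f hf => by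
          have h1 := (posAt_iff G.1 t).1 (G.2.2 t (hq.trans ht1))
          have h2 := chr_cop G.1 T f hf t
          rw [ht2, zero_mul, mul_zero] at h2
          have h3 : 0 < t := by linarith
          have h4 := mul_pos h3 h1
          linarith⟩ : NoCop P T n))
      (fun a b h => Subtype.ext (by simpa using h))
  exact_mod_cast hcard

theorem law (hP : BridgeClass P) (q : ℝ) (hq : 1 < q) :
    (∀ (V : Type) (G : SimpleGraph V), P V G → PosAt q G) ∨
    (∃ K κ : ℝ, 0 < κ ∧ ∀ n : ℕ, 1 ≤ n →
      1 - K * Real.exp (-(κ * n)) ≤ share P n (fun G => ZeroAt q G)) ∨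
    ((∀ (V : Type) (G : SimpleGraph V), P V G → ¬ ZeroAt q G) ∧
      ∃ K κ : ℝ, 0 < κ ∧ ∀ n : ℕ, 1 ≤ n →
        |share P n (fun G => PosAt q G) - 1 / 2| ≤ K * Real.exp (-(κ * n))) := by
  by_cases hall : ∀ (V : Type) (G : SimpleGraph V), P V G → PosAt q G
  · exact Or.inl hall
  right
  by_cases hzero : ∃ (V : Type) (G : SimpleGraph V), P V G ∧ ZeroAt q G
  · left
    obtain ⟨V, G, hG, hz⟩ := hzero
    obtain ⟨k, T, hT, ⟨e⟩⟩ := to_fin hP G hG
    have hfin := hP.fin V G hG
    have hzT : (chr T).eval q = 0 := by rw [chr_iso e]; exact (zeroAt_iff G q).1 hz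
    obtain ⟨K, κ, hK0, hκ, hK⟩ := noCop_rare hP T hT
    refine ⟨K, κ, hκ, fun n hn => ?_⟩
    have hnum : (0 : ℝ) < num P n := by exact_mod_cast num_pos hP n hn
    have h1 : (num P n : ℝ) ≤ (Nat.card {G : SimpleGraph (Fin n) // P (Fin n) G ∧ ZeroAt q G} : ℝ) +
        (Nat.card (NoCop P T n) : ℝ) := by exact_mod_cast zero_count hP T q hq hzT
    have h2 := hK n hn
    unfold share
    rw [le_div_iff₀ hnum]
    have : (1 - K * Real.exp (-(κ * n))) * num P n =
      num P n - K * Real.exp (-(κ * n)) * num P n := by ring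
    rw [this]
    linarith
  · right
    have hnz : ∀ (V : Type) (G : SimpleGraph V), P V G → ¬ ZeroAt q G :=
      fun V G hG hz => hzero ⟨V, G, hG, hz⟩
    refine ⟨hnz, ?_⟩
    push Not at hall
    obtain ⟨V, G, hG, hz⟩ := hall
    obtain ⟨k, T, hT, ⟨e⟩⟩ := to_fin hP G hG
    have hfin := hP.fin V G hG
    have hzT : (chr T).eval q < 0 := by
      rw [chr_iso e]
      have h1 : ¬ 0 < (chr G).eval q := fun h => hz ((posAt_iff G q).2 h)
      have h2 : (chr G).eval q ≠ 0 := fun h => hnz V G hG ((zeroAt_iff G q).2 h)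
      exact lt_of_le_of_ne (not_lt.1 h1) h2
    obtain ⟨T', hT', hpT'⟩ := exists_pos hP q hq k
    obtain ⟨K, κ, hK0, hκ, hK⟩ := noCop_rare hP T hT
    refine ⟨K + Real.exp (κ * (2 * (k + 1))), κ, hκ, fun n hn => ?_⟩
    have hnum : (0 : ℝ) < num P n := by exact_mod_cast num_pos hP n hn
    set c : ℕ := Nat.card {G : SimpleGraph (Fin n) // P (Fin n) G ∧ PosAt q G} with hc
    have hcle : c ≤ num P n := by
      rw [hc]
      exact Nat.card_le_card_of_injective
        (fun G : {G : SimpleGraph (Fin n) // P (Fin n) G ∧ PosAt q G} =>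
          (⟨G.1, G.2.1⟩ : {G : SimpleGraph (Fin n) // P (Fin n) G}))
        (fun a b h => Subtype.ext (by simpa using h))
    have hcle' : (c : ℝ) ≤ num P n := by exact_mod_cast hcle
    have ex0 : 0 < Real.exp (-(κ * n)) := Real.exp_pos _
    have habs : |2 * (c : ℝ) - num P n| ≤
        (K + Real.exp (κ * (2 * (k + 1)))) * Real.exp (-(κ * n)) * num P n := by
      rcases Nat.lt_or_ge (2 * (k + 1)) n with h | h
      · have hb := balance hP T T' hT hT' q hq hzT hpT'
          (fun G hG h => hnz _ G hG ((zeroAt_iff G q).2 h)) h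
        have hb' : |2 * (c : ℝ) - num P n| ≤ (Nat.card (NoCop P T n) : ℝ) := by exact_mod_cast hb
        refine hb'.trans ((hK n hn).trans ?_)
        have : 0 < Real.exp (κ * (2 * (k + 1))) := Real.exp_pos _
        gcongr
        linarith
      · have h1 : |2 * (c : ℝ) - num P n| ≤ num P n := by
          rw [abs_le]
          constructor <;> nlinarith [Nat.cast_nonneg (α := ℝ) c]
        have h3 : (n : ℝ) ≤ 2 * (k + 1) := by exact_mod_cast h
        have h4 : 1 ≤ Real.exp (κ * (2 * (k + 1))) * Real.exp (-(κ * n)) := by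
          rw [← Real.exp_add]
          exact Real.one_le_exp (by nlinarith)
        have h5 : 1 ≤ (K + Real.exp (κ * (2 * (k + 1)))) * Real.exp (-(κ * n)) := by
          rw [add_mul]
          have : 0 ≤ K * Real.exp (-(κ * n)) := by positivity
          linarith
        calc |2 * (c : ℝ) - num P n| ≤ 1 * num P n := by rw [one_mul]; exact h1
          _ ≤ _ := mul_le_mul_of_nonneg_right h5 hnum.le
    have hshare : share P n (fun G => PosAt q G) - 1 / 2 = (2 * (c : ℝ) - num P n) / (2 * num P n) := by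
      unfold share
      rw [← hc]
      field_simp
    rw [hshare, abs_div, abs_of_pos (by positivity : (0 : ℝ) < 2 * num P n),
      div_le_iff₀ (by positivity)]
    refine habs.trans ?_
    have : (0 : ℝ) ≤ (K + Real.exp (κ * (2 * (k + 1)))) * Real.exp (-(κ * n)) * num P n := by
      positivity
    nlinarith

end Pool.Agent.Run7.h604.ZH
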