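import Pool.Agent.Run7.h604.ZH.Book

set_option autoImplicit false
set_option linter.all false

namespace Pool.Agent.Run7.h604.ZH

theorem below_rot {V I : Type} (r : I → ℕ) (a : I → V)
    (h : ∀ i j k l : I, r i < r j → r j < r k → r k < r l → a i = a k → a j = a l → a i = a j)
    (M t : ℕ) (hM : ∀ x, r x < M) (i j k l : I)
    (h1 : (if r i < t then r i + M else r i) < (if r j < t then r j + M else r j))
    (h2 : (if r j < t then r j + M else r j) < (if r k < t then r k + M else r k))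
    (h3 : (if r k < t then r k + M else r k) < (if r l < t then r l + M else r l))
    (e1 : a i = a k) (e2 : a j = a l) : a i = a j := by
  have hi := hM i
  have hj := hM j
  have hk := hM k
  have hl := hM l
  by_cases ka : r i < t <;> by_cases kb : r j < t <;> by_cases kc : r k < t <;>
    by_cases kd : r l < t <;> simp only [ka, kb, kc, kd, if_true, if_false] at h1 h2 h3 <;>
  first
    | omega
    | exact h i j k l (by omega) (by omega) (by omega) e1 e2
    | exact e2 ▸ (h l i j k (by omega) (by omega) (by omega) e2.symm e1).symm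
    | exact e1 ▸ (h k l i j (by omega) (by omega) (by omega) e1.symm e2.symm).trans e2.symm
    | exact (e1 ▸ h j k l i (by omega) (by omega) (by omega) e2 e1.symm).symm

theorem planarRep_iso {V W : Type} (G : SimpleGraph V) (H : SimpleGraph W) (e : G ≃g H)
    (h : PlanarRep G) : PlanarRep H := by
  obtain ⟨I, r, a, A, hf, hr⟩ := h
  refine ⟨I, r, fun i => e (a i), A, hf, hr.inj, e.surjective.comp hr.surj, ?_, hr.above, ?_⟩
  · intro i j k l h1 h2 h3 e1 e2
    exact congrArg e (hr.below i j k l h1 h2 h3 (e.injective e1) (e.injective e2))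
  · intro x y
    rw [← e.symm.map_adj_iff, hr.edges]
    constructor
    · rintro ⟨hne, i, j, h1, h2, h3⟩
      exact ⟨fun h => hne (by rw [h]), i, j, by rw [h1]; simp, by rw [h2]; simp, h3⟩
    · rintro ⟨hne, i, j, h1, h2, h3⟩
      exact ⟨fun h => hne (e.symm.injective h), i, j, by rw [← h1]; simp, by rw [← h2]; simp, h3⟩

theorem planarRep_induce {V : Type} (G : SimpleGraph V) (S : Set V) (h : PlanarRep G) :
    PlanarRep (G.induce S) := by
  obtain ⟨I, r, a, A, hf, hr⟩ := h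
  refine ⟨{i : I // a i ∈ S}, fun i => r i.1, fun i => ⟨a i.1, i.2⟩,
    A.comap Subtype.val, inferInstance, ?_, ?_, ?_, ?_, ?_⟩
  · intro i j h; exact Subtype.ext (hr.inj h)
  · rintro ⟨x, hx⟩
    obtain ⟨i, hi⟩ := hr.surj x
    exact ⟨⟨i, hi ▸ hx⟩, Subtype.ext hi⟩
  · intro i j k l h1 h2 h3 e1 e2
    exact Subtype.ext (hr.below i.1 j.1 k.1 l.1 h1 h2 h3 (Subtype.ext_iff.1 e1)
      (Subtype.ext_iff.1 e2))
  · intro i j k l h1 h2
    exact hr.above i.1 j.1 k.1 l.1 h1 h2
  · intro x y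
    change G.Adj x.1 y.1 ↔ _
    rw [hr.edges]
    constructor
    · rintro ⟨hne, i, j, h1, h2, h3⟩
      exact ⟨fun h => hne (congrArg Subtype.val h), ⟨i, h1 ▸ x.2⟩, ⟨j, h2 ▸ y.2⟩, Subtype.ext h1,
        Subtype.ext h2, h3⟩
    · rintro ⟨hne, i, j, h1, h2, h3⟩
      exact ⟨fun h => hne (Subtype.ext h), i.1, j.1, Subtype.ext_iff.1 h1, Subtype.ext_iff.1 h2, h3⟩

/-- Noncrossing of the joined graph on a sum type. -/
theorem nonCross_joinSum {I J : Type} (s : I) (v : J) (A : SimpleGraph I) (B : SimpleGraph J)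
    (r : I ⊕ J → ℕ) (m : ℕ) (h1 : ∀ x : I, r (Sum.inl x) < m) (h2 : ∀ y : J, m ≤ r (Sum.inr y))
    (hs : ∀ x : I, r (Sum.inl x) ≤ r (Sum.inl s)) (hv : ∀ y : J, r (Sum.inr v) ≤ r (Sum.inr y))
    (hA : NonCross (fun x : I => r (Sum.inl x)) A) (hB : NonCross (fun y : J => r (Sum.inr y)) B) :
    NonCross r (join A B Sum.inl Sum.inr s v) := by
  intro a b c d hab hcd k1 k2 k3
  have noedge : ∀ x, r (Sum.inl s) < r x → r x < r (Sum.inr v) → False := by
    rintro (x | x) e1 e2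
    · have := hs x; omega
    · have := hv x; omega
  have hsv : r (Sum.inl s) < r (Sum.inr v) := by
    have := h1 s
    have := h2 v
    omega
  rcases hab.2 with ⟨i, j, rfl, rfl, hij⟩ | ⟨i, j, rfl, rfl, hij⟩ | ⟨rfl, rfl⟩ | ⟨rfl, rfl⟩
  · have hi := h1 i
    have hj := h1 j
    rcases hcd.2 with ⟨i', j', rfl, rfl, hij'⟩ | ⟨i', j', rfl, rfl, hij'⟩ | ⟨rfl, rfl⟩ | ⟨rfl, rfl⟩
    · exact hA i j i' j' hij hij' k1 k2 k3
    · have := h2 i'; omega
    · have := hs j; omega
    · have := h2 v; omega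
  · have hi := h2 i
    have hj := h2 j
    rcases hcd.2 with ⟨i', j', rfl, rfl, hij'⟩ | ⟨i', j', rfl, rfl, hij'⟩ | ⟨rfl, rfl⟩ | ⟨rfl, rfl⟩
    · have := h1 i'; omega
    · exact hB i j i' j' hij hij' k1 k2 k3
    · have := h1 s; omega
    · have := h1 s; omega
  · exact noedge c k1 k2
  · omega

theorem split_sum (I J : Type) : Split (Sum.inl : I → I ⊕ J) (Sum.inr : J → I ⊕ J) where
  fi := Sum.inl_injective
  gi := Sum.inr_injective
  ne := fun i j => Sum.inl_ne_inr
  cov := fun w => by rcases w with w | w; exacts [Or.inl ⟨w, rfl⟩, Or.inr ⟨w, rfl⟩]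

theorem planarRep_join {V : Type} (G : SimpleGraph V) (S : Set V) (s v : V)
    (h : OneEdge G S s v) (h1 : PlanarRep (G.induce S)) (h2 : PlanarRep (G.induce Sᶜ)) :
    PlanarRep G := by
  classical
  obtain ⟨I1, r1, a1, A1, f1, p1⟩ := h1
  obtain ⟨I2, r2, a2, A2, f2, p2⟩ := h2
  obtain ⟨M, hM1, hM2⟩ : ∃ M : ℕ, (∀ x, r1 x < M) ∧ (∀ x, r2 x < M) := by
    obtain ⟨M1, hM1⟩ := (Set.toFinite (Set.range r1)).bddAbove
    obtain ⟨M2, hM2⟩ := (Set.toFinite (Set.range r2)).bddAbove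
    refine ⟨max M1 M2 + 1, fun x => ?_, fun x => ?_⟩
    · have := hM1 ⟨x, rfl⟩; omega
    · have := hM2 ⟨x, rfl⟩; omega
  obtain ⟨s', hs'⟩ := p1.surj ⟨s, h.1⟩
  obtain ⟨v', hv'⟩ := p2.surj ⟨v, h.2.1⟩
  let r1' : I1 → ℕ := fun x => if r1 x < r1 s' + 1 then r1 x + M else r1 x
  let r2' : I2 → ℕ := fun x => if r2 x < r2 v' then r2 x + M else r2 x
  let r : I1 ⊕ I2 → ℕ := Sum.elim r1' (fun x => 2 * M + r2' x)
  let a : I1 ⊕ I2 → V := Sum.elim (fun x => (a1 x).1) (fun x => (a2 x).1)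
  have l1 : ∀ x : I1, r (Sum.inl x) < 2 * M := by
    intro x
    have := hM1 x
    simp only [r, Sum.elim_inl, r1']
    split_ifs <;> omega
  have l2 : ∀ x : I2, 2 * M ≤ r (Sum.inr x) := by
    intro x
    simp only [r, Sum.elim_inr]
    omega
  have ls : ∀ x : I1, r (Sum.inl x) ≤ r (Sum.inl s') := by
    intro x
    have := hM1 x
    have := hM1 s'
    simp only [r, Sum.elim_inl, r1']
    split_ifs <;> omega
  have lv : ∀ x : I2, r (Sum.inr v') ≤ r (Sum.inr x) := by
    intro x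
    have := hM2 x
    have := hM2 v'
    simp only [r, Sum.elim_inr, r2']
    split_ifs <;> omega
  have sp := split_sum I1 I2
  refine ⟨I1 ⊕ I2, r, a, join A1 A2 Sum.inl Sum.inr s' v', inferInstance, ?_, ?_, ?_, ?_, ?_⟩
  · rintro (x | x) (y | y) hxy
    · exact congrArg Sum.inl (rot_inj r1 p1.inj M _ hM1 hxy)
    · have := l1 x; have := l2 y; omega
    · have := l1 y; have := l2 x; omega
    · exact congrArg Sum.inr (rot_inj r2 p2.inj M _ hM2 (Nat.add_left_cancel hxy))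
  · intro x
    by_cases hx : x ∈ S
    · obtain ⟨i, hi⟩ := p1.surj ⟨x, hx⟩
      exact ⟨Sum.inl i, by simp [a, hi]⟩
    · obtain ⟨i, hi⟩ := p2.surj ⟨x, hx⟩
      exact ⟨Sum.inr i, by simp [a, hi]⟩
  · have dis : ∀ (x : I1) (y : I2), a (Sum.inl x) ≠ a (Sum.inr y) := by
      intro x y e
      have e' : (a1 x).1 = (a2 y).1 := e
      exact (a2 y).2 (e' ▸ (a1 x).2)
    rintro (i | i) (j | j) (k | k) (l | l) h1 h2 h3 e1 e2
    · exact congrArg Subtype.val (below_rot r1 a1 p1.below M _ hM1 i j k l h1 h2 h3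
        (Subtype.ext e1) (Subtype.ext e2))
    · exact absurd e2 (dis _ _)
    · exact absurd e1 (dis _ _)
    · exact absurd e1 (dis _ _)
    · exact absurd e2.symm (dis _ _)
    · have := l1 k; have := l2 j; omega
    · exact absurd e1 (dis _ _)
    · exact absurd e1 (dis _ _)
    · exact absurd e1.symm (dis _ _)
    · exact absurd e1.symm (dis _ _)
    · have := l1 j; have := l2 i; omega
    · exact absurd e2 (dis _ _)
    · exact absurd e1.symm (dis _ _)
    · exact absurd e1.symm (dis _ _)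
    · exact absurd e2.symm (dis _ _)
    · refine congrArg Subtype.val (below_rot r2 a2 p2.below M (r2 v') hM2 i j k l ?_ ?_ ?_
        (Subtype.ext e1) (Subtype.ext e2))
      · exact Nat.lt_of_add_lt_add_left h1
      · exact Nat.lt_of_add_lt_add_left h2
      · exact Nat.lt_of_add_lt_add_left h3
  · apply nonCross_joinSum s' v' A1 A2 r (2 * M) l1 l2 ls lv
    · exact nonCross_rot r1 A1 p1.above M _ hM1
    · intro a b c d hab hcd k1 k2 k3
      exact nonCross_rot r2 A2 p2.above M (r2 v') hM2 a b c d hab hcd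
        (Nat.lt_of_add_lt_add_left k1) (Nat.lt_of_add_lt_add_left k2)
        (Nat.lt_of_add_lt_add_left k3)
  · have dis : ∀ (x : I1) (y : I2), a (Sum.inl x) ≠ a (Sum.inr y) := by
      intro x y e
      have e' : (a1 x).1 = (a2 y).1 := e
      exact (a2 y).2 (e' ▸ (a1 x).2)
    have as : a (Sum.inl s') = s := by simp [a, hs']
    have av : a (Sum.inr v') = v := by simp [a, hv']
    have hsv : s ≠ v := fun e => h.2.1 (e ▸ h.1)
    intro x y
    constructor
    · intro hxy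
      refine ⟨hxy.ne, ?_⟩
      by_cases hx : x ∈ S <;> by_cases hy : y ∈ S
      · obtain ⟨-, i, j, e1, e2, e3⟩ := (p1.edges ⟨x, hx⟩ ⟨y, hy⟩).1 hxy
        exact ⟨Sum.inl i, Sum.inl j, congrArg Subtype.val e1, congrArg Subtype.val e2,
          (join_ff A1 A2 s' v' sp i j).2 e3⟩
      · obtain ⟨e1, e2⟩ := (h.2.2 x hx y hy).1 hxy
        exact ⟨Sum.inl s', Sum.inr v', as.trans e1.symm, av.trans e2.symm,
          (join_fg A1 A2 s' v' sp _ _).2 ⟨rfl, rfl⟩⟩
      · obtain ⟨e1, e2⟩ := (h.2.2 y hy x hx).1 hxy.symm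
        exact ⟨Sum.inr v', Sum.inl s', av.trans e2.symm, as.trans e1.symm,
          ((join_fg A1 A2 s' v' sp _ _).2 ⟨rfl, rfl⟩).symm⟩
      · obtain ⟨-, i, j, e1, e2, e3⟩ := (p2.edges ⟨x, hx⟩ ⟨y, hy⟩).1 hxy
        exact ⟨Sum.inr i, Sum.inr j, congrArg Subtype.val e1, congrArg Subtype.val e2,
          (join_gg A1 A2 s' v' sp i j).2 e3⟩
    · rintro ⟨hne, i, j, e1, e2, e3⟩
      rcases i with i | i <;> rcases j with j | j
      · have e4 := (join_ff A1 A2 s' v' sp i j).1 e3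
        have e5 := (p1.edges (a1 i) (a1 j)).2
          ⟨fun e => hne (e1 ▸ e2 ▸ congrArg Subtype.val e), i, j, rfl, rfl, e4⟩
        have e6 : G.Adj (a1 i).1 (a1 j).1 := e5
        rw [← e1, ← e2]
        exact e6
      · obtain ⟨rfl, rfl⟩ := (join_fg A1 A2 s' v' sp i j).1 e3
        rw [← e1, ← e2, as, av]
        exact (h.2.2 s h.1 v h.2.1).2 ⟨rfl, rfl⟩
      · obtain ⟨rfl, rfl⟩ := (join_fg A1 A2 s' v' sp j i).1 e3.symm
        rw [← e1, ← e2, as, av]
        exact ((h.2.2 s h.1 v h.2.1).2 ⟨rfl, rfl⟩).symm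
      · have e4 := (join_gg A1 A2 s' v' sp i j).1 e3
        have e5 := (p2.edges (a2 i) (a2 j)).2
          ⟨fun e => hne (e1 ▸ e2 ▸ congrArg Subtype.val e), i, j, rfl, rfl, e4⟩
        have e6 : G.Adj (a2 i).1 (a2 j).1 := e5
        rw [← e1, ← e2]
        exact e6

theorem planarRep_finite {V : Type} (G : SimpleGraph V) (h : PlanarRep G) : Finite V := by
  obtain ⟨I, r, a, A, hf, hr⟩ := h
  exact Finite.of_surjective a hr.surj

theorem planar_bridge (V : Type) (G : SimpleGraph V) (S : Set V) (s v : V)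
    (h : OneEdge G S s v) :
    PlanarConn V G ↔ PlanarConn S (G.induce S) ∧ PlanarConn (Sᶜ : Set V) (G.induce Sᶜ) := by
  constructor
  · rintro ⟨hc, ht⟩
    exact ⟨⟨conn_side G hc S s v h, planarRep_induce G S ht⟩,
      ⟨conn_side G hc Sᶜ v s (oneEdge_compl G S s v h), planarRep_induce G Sᶜ ht⟩⟩
  · rintro ⟨⟨hc1, ht1⟩, ⟨hc2, ht2⟩⟩
    exact ⟨conn_join G S s v h hc1 hc2, planarRep_join G S s v h ht1 ht2⟩

end Pool.Agent.Run7.h604.ZH
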