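import Pool.Agent.Run7.h604.ZH.Defs

set_option autoImplicit false

namespace Pool.Agent.Run7.h604.ZH

open Polynomial

open Classical in
/-- The value at `q` of the chromatic polynomial of a finite graph `G`. -/
noncomputable def val (q : ℝ) {V : Type} (G : SimpleGraph V) : ℝ :=
  if h : ∃ p : ℝ[X], Pool.Agent.H207R2.BL.IsChrom G p then h.choose.eval q else 0

open Classical in
/-- The sum of `w G` over the graphs `G` with vertex set `{0, …, n-1}` which lie in `P`. -/
noncomputable def total (P : (V : Type) → SimpleGraph V → Prop) (n : ℕ)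
    (w : SimpleGraph (Fin n) → ℝ) : ℝ :=
  ∑ G : SimpleGraph (Fin n), if P (Fin n) G then w G else 0

end Pool.Agent.Run7.h604.ZH
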