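import Pool.Agent.Run7.h604.ZH.Asy

set_option autoImplicit false
set_option linter.all false

namespace Pool.Agent.Run7.h604.ZH

open Pool.Agent.H207R2.BL

/-- Replace the graph on the range of `f` by `H`. -/
def rep {A W : Type} (H : SimpleGraph A) (G : SimpleGraph W) (f : A → W) : SimpleGraph W where
  Adj x y := (x ≠ y) ∧ ((∃ i j, f i = x ∧ f j = y ∧ H.Adj i j) ∨
    (G.Adj x y ∧ ¬ (x ∈ Set.range f ∧ y ∈ Set.range f)))
  symm := ⟨by
    rintro x y ⟨h, ⟨i, j, h1, h2, h3⟩ | ⟨h1, h2⟩⟩
    · exact ⟨h.symm, Or.inl ⟨j, i, h2, h1, h3.symm⟩⟩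
    · exact ⟨h.symm, Or.inr ⟨h1.symm, fun e => h2 ⟨e.2, e.1⟩⟩⟩⟩
  loopless := ⟨fun x h => h.1 rfl⟩

section
variable {A W : Type} (H : SimpleGraph A) (G : SimpleGraph W) {f : A → W}
  (hf : Function.Injective f)
include hf

theorem rep_in (i j : A) : (rep H G f).Adj (f i) (f j) ↔ H.Adj i j := by
  constructor
  · rintro ⟨hne, ⟨i', j', h1, h2, h3⟩ | ⟨h1, h2⟩⟩
    · rw [← hf h1, ← hf h2]; exact h3
    · exact absurd ⟨⟨i, rfl⟩, ⟨j, rfl⟩⟩ h2
  · intro h
    exact ⟨fun e => h.ne (hf e), Or.inl ⟨i, j, rfl, rfl, h⟩⟩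

omit hf in
theorem rep_out (x y : W) (h : x ∉ Set.range f ∨ y ∉ Set.range f) :
    (rep H G f).Adj x y ↔ G.Adj x y := by
  constructor
  · rintro ⟨hne, ⟨i', j', h1, h2, h3⟩ | ⟨h1, h2⟩⟩
    · rcases h with h | h
      · exact absurd ⟨i', h1⟩ h
      · exact absurd ⟨j', h2⟩ h
    · exact h1
  · intro h'
    exact ⟨h'.ne, Or.inr ⟨h', fun e => h.elim (fun h => h e.1) (fun h => h e.2)⟩⟩

theorem rep_eq_of (G' : SimpleGraph W) (h1 : ∀ i j, G'.Adj (f i) (f j) ↔ H.Adj i j)
    (h2 : ∀ x y, (x ∉ Set.range f ∨ y ∉ Set.range f) → (G'.Adj x y ↔ G.Adj x y)) :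
    rep H G f = G' := by
  ext x y
  by_cases hx : x ∈ Set.range f
  · by_cases hy : y ∈ Set.range f
    · obtain ⟨i, rfl⟩ := hx
      obtain ⟨j, rfl⟩ := hy
      rw [rep_in H G hf, h1]
    · rw [rep_out H G _ _ (Or.inr hy), h2 _ _ (Or.inr hy)]
  · rw [rep_out H G _ _ (Or.inl hx), h2 _ _ (Or.inl hx)]

omit hf in
theorem rep_oneEdge {s v : W} (h : OneEdge G (Set.range f) s v) :
    OneEdge (rep H G f) (Set.range f) s v :=
  ⟨h.1, h.2.1, fun x hx y hy => by rw [rep_out H G _ _ (Or.inr hy)]; exact h.2.2 x hx y hy⟩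

theorem rep_iso1 : Nonempty (H ≃g (rep H G f).induce (Set.range f)) :=
  iso_range H _ f hf (rep_in H G hf) _ rfl

omit hf in
theorem rep_iso2 : Nonempty ((G.induce (Set.range f)ᶜ) ≃g (rep H G f).induce (Set.range f)ᶜ) :=
  ⟨{ toEquiv := Equiv.refl _, map_rel_iff' := by
      intro a b
      exact rep_out H G _ _ (Or.inl a.2) }⟩

theorem rep_mem {P : (V : Type) → SimpleGraph V → Prop} (hP : BridgeClass P) {s v : W}
    (h : OneEdge G (Set.range f) s v) (hG : P W G) (hH : P A H) : P W (rep H G f) :=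
  (hP.bridge W _ _ _ _ (rep_oneEdge H G h)).2
    ⟨hP.iso _ _ _ _ (rep_iso1 H G hf) hH,
      hP.iso _ _ _ _ (rep_iso2 H G) ((hP.bridge W _ _ _ _ h).1 hG).2⟩

theorem rep_chr [Finite A] [Finite W] {s v : W} (h : OneEdge G (Set.range f) s v) (q : ℝ) :
    q * (chr (rep H G f)).eval q =
      (q - 1) * ((chr H).eval q * (chr (G.induce (Set.range f)ᶜ)).eval q) := by
  rw [chr_one_edge _ _ _ _ (rep_oneEdge H G h) q]
  obtain ⟨e1⟩ := rep_iso1 H G hf
  obtain ⟨e2⟩ := rep_iso2 H G (f := f)
  rw [chr_iso e1, chr_iso e2]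

end

section
variable {k n : ℕ}

theorem cop_rep (H H' : SimpleGraph (Fin (k + 1))) (G : SimpleGraph (Fin n))
    (f : Fin (k + 1) ↪o Fin n) (h : Cop H' G f) : Cop H (rep H G f) f := by
  obtain ⟨h1, v, h2⟩ := h
  exact ⟨rep_in H G f.injective, v, rep_oneEdge H G h2⟩

theorem rep_rep (H H' : SimpleGraph (Fin (k + 1))) (G : SimpleGraph (Fin n))
    (f : Fin (k + 1) ↪o Fin n) (h : Cop H G f) : rep H (rep H' G f) f = G := by
  apply rep_eq_of H _ f.injective
  · exact h.1
  · intro x y hxy
    rw [rep_out H' G x y hxy]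

theorem cop_other (H H'' : SimpleGraph (Fin (k + 1))) (G : SimpleGraph (Fin n))
    (f g : Fin (k + 1) ↪o Fin n) (hd : ∀ i j, f i ≠ g j) (h : Cop H'' G g) :
    Cop H'' (rep H G f) g := by
  have hg : ∀ i, g i ∉ Set.range f := by
    rintro i ⟨j, hj⟩
    exact hd j i hj
  obtain ⟨h1, v, h2⟩ := h
  refine ⟨fun i j => ?_, v, h2.1, h2.2.1, ?_⟩
  · rw [rep_out H G _ _ (Or.inl (hg i))]; exact h1 i j
  · rintro x ⟨i, rfl⟩ y hy
    rw [rep_out H G _ _ (Or.inl (hg i))]
    exact h2.2.2 _ ⟨i, rfl⟩ y hy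

/-- The labelled pendant copies of `T` or `T'`. -/
def copies (T T' : SimpleGraph (Fin (k + 1))) (G : SimpleGraph (Fin n)) :
    Set (Fin (k + 1) ↪o Fin n) :=
  {f | Cop T G f ∨ Cop T' G f}

open Classical in
/-- Exchange `T` and `T'` at `f`. -/
noncomputable def sw (T T' : SimpleGraph (Fin (k + 1))) (G : SimpleGraph (Fin n))
    (f : Fin (k + 1) ↪o Fin n) : SimpleGraph (Fin n) :=
  if Cop T G f then rep T' G f else rep T G f

theorem copies_rep_sub (T T' H : SimpleGraph (Fin (k + 1))) (hT : T.Preconnected)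
    (hT' : T'.Preconnected) (hH : H = T ∨ H = T') (G : SimpleGraph (Fin n)) (hG : G.Preconnected)
    (hn : 2 * (k + 1) < n) (f : Fin (k + 1) ↪o Fin n) (hf : f ∈ copies T T' G) :
    copies T T' G ⊆ copies T T' (rep H G f) := by
  intro g hg
  by_cases hfg : f = g
  · subst hfg
    rcases hf with hf | hf
    · rcases hH with rfl | rfl
      · exact Or.inl (cop_rep _ _ G f hf)
      · exact Or.inr (cop_rep _ _ G f hf)
    · rcases hH with rfl | rfl
      · exact Or.inl (cop_rep _ _ G f hf)
      · exact Or.inr (cop_rep _ _ G f hf)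
  · rcases hf with hf | hf <;> rcases hg with hg | hg
    · exact Or.inl (cop_other H T G f g
        (cop_disjoint T T hT hT G hG hn f g hf hg hfg) hg)
    · exact Or.inr (cop_other H T' G f g
        (cop_disjoint T T' hT hT' G hG hn f g hf hg hfg) hg)
    · exact Or.inl (cop_other H T G f g
        (cop_disjoint T' T hT' hT G hG hn f g hf hg hfg) hg)
    · exact Or.inr (cop_other H T' G f g
        (cop_disjoint T' T' hT' hT' G hG hn f g hf hg hfg) hg)

variable {P : (V : Type) → SimpleGraph V → Prop}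

/-- Facts about exchanging. -/
theorem sw_facts (hP : BridgeClass P) (T T' : SimpleGraph (Fin (k + 1))) (hT : P _ T)
    (hT' : P _ T') (hne : T ≠ T') (G : SimpleGraph (Fin n)) (hG : P _ G)
    (hn : 2 * (k + 1) < n) (f : Fin (k + 1) ↪o Fin n) (hf : f ∈ copies T T' G) :
    P _ (sw T T' G f) ∧ copies T T' (sw T T' G f) = copies T T' G ∧
      sw T T' (sw T T' G f) f = G := by
  classical
  have cT := (hP.conn _ _ hT).preconnected
  have cT' := (hP.conn _ _ hT').preconnected
  have cG := (hP.conn _ _ hG).preconnected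
  by_cases hc : Cop T G f
  · have h0 : sw T T' G f = rep T' G f := by unfold sw; rw [if_pos hc]
    obtain ⟨v, hv⟩ := hc.2
    have hm := rep_mem T' G f.injective hP hv hG hT'
    have hcr : Cop T' (rep T' G f) f := cop_rep T' T G f hc
    have hnc : ¬ Cop T (rep T' G f) f := by
      intro h
      apply hne
      ext i j
      rw [← h.1 i j, hcr.1 i j]
    rw [h0]
    refine ⟨hm, ?_, ?_⟩
    · apply Set.Subset.antisymm
      · have h3 := copies_rep_sub T T' T cT cT' (Or.inl rfl) (rep T' G f)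
          (hP.conn _ _ hm).preconnected hn f (Or.inr hcr)
        rwa [rep_rep T T' G f hc] at h3
      · exact copies_rep_sub T T' T' cT cT' (Or.inr rfl) G cG hn f hf
    · unfold sw
      rw [if_neg hnc]
      exact rep_rep T T' G f hc
  · have hc' : Cop T' G f := hf.resolve_left hc
    have h0 : sw T T' G f = rep T G f := by unfold sw; rw [if_neg hc]
    obtain ⟨v, hv⟩ := hc'.2
    have hm := rep_mem T G f.injective hP hv hG hT
    have hcr : Cop T (rep T G f) f := cop_rep T T' G f hc'
    rw [h0]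
    refine ⟨hm, ?_, ?_⟩
    · apply Set.Subset.antisymm
      · have h3 := copies_rep_sub T T' T' cT cT' (Or.inr rfl) (rep T G f)
          (hP.conn _ _ hm).preconnected hn f (Or.inl hcr)
        rwa [rep_rep T' T G f hc'] at h3
      · exact copies_rep_sub T T' T cT cT' (Or.inl rfl) G cG hn f hf
    · unfold sw
      rw [if_pos hcr]
      exact rep_rep T' T G f hc'

/-- The value at `q` of a graph with a pendant copy. -/
theorem chr_cop (G : SimpleGraph (Fin n)) (T : SimpleGraph (Fin (k + 1)))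
    (f : Fin (k + 1) ↪o Fin n) (h : Cop T G f) (q : ℝ) :
    q * (chr G).eval q =
      (q - 1) * ((chr T).eval q * (chr (G.induce (Set.range f)ᶜ)).eval q) := by
  obtain ⟨v, hv⟩ := h.2
  have := rep_chr T G f.injective hv q
  have h2 : rep T G f = G := rep_eq_of T G f.injective G h.1 (fun _ _ _ => Iff.rfl)
  rwa [h2] at this

/-- Exchanging changes the sign. -/
theorem sw_sign (T T' : SimpleGraph (Fin (k + 1))) (q : ℝ) (hq : 1 < q)
    (h1 : (chr T).eval q < 0) (h2 : 0 < (chr T').eval q)
    (G : SimpleGraph (Fin n)) (f : Fin (k + 1) ↪o Fin n) (hf : f ∈ copies T T' G) :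
    SignType.sign ((chr (sw T T' G f)).eval q) = - SignType.sign ((chr G).eval q) := by
  classical
  have key : ∀ (A B : SimpleGraph (Fin (k + 1))), Cop A G f → (chr A).eval q * (chr B).eval q < 0 →
      SignType.sign ((chr (rep B G f)).eval q) = - SignType.sign ((chr G).eval q) := by
    intro A B hA hAB
    obtain ⟨v, hv⟩ := hA.2
    have e1 := chr_cop G A f hA q
    have e2 := rep_chr B G f.injective hv q
    set g := (chr G).eval q
    set r := (chr (rep B G f)).eval q
    set c := (chr (G.induce (Set.range f)ᶜ)).eval q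
    set a := (chr A).eval q
    set b := (chr B).eval q
    have hq0 : 0 < q := by linarith
    have hq1 : 0 < q - 1 := by linarith
    have sg : SignType.sign g = SignType.sign a * SignType.sign c := by
      have := congrArg SignType.sign e1
      rw [sign_mul, sign_mul, sign_mul, sign_pos hq0, sign_pos hq1, one_mul, one_mul] at this
      exact this
    have sr : SignType.sign r = SignType.sign b * SignType.sign c := by
      have := congrArg SignType.sign e2
      rw [sign_mul, sign_mul, sign_mul, sign_pos hq0, sign_pos hq1, one_mul, one_mul] at this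
      exact this
    have sab : SignType.sign a * SignType.sign b = -1 := by
      rw [← sign_mul]; exact sign_neg hAB
    rw [sg, sr]
    revert sab
    generalize SignType.sign a = x
    generalize SignType.sign b = y
    generalize SignType.sign c = z
    revert x y z
    decide
  by_cases hc : Cop T G f
  · have h0 : sw T T' G f = rep T' G f := by unfold sw; rw [if_pos hc]
    rw [h0]
    exact key T T' hc (mul_neg_of_neg_of_pos h1 h2)
  · have hc' : Cop T' G f := hf.resolve_left hc
    have h0 : sw T T' G f = rep T G f := by unfold sw; rw [if_neg hc]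
    rw [h0]
    exact key T' T hc' (mul_neg_of_pos_of_neg h2 h1)

end

end Pool.Agent.Run7.h604.ZH
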