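import Pool.Agent.Run7.h604.ZH.Defs

set_option autoImplicit false

namespace Pool.Agent.Run7.h604.ZH

/-- Finite trees. -/
def TreeConn (V : Type) (G : SimpleGraph V) : Prop :=
  Finite V ∧ G.IsTree

/-- The class of finite graphs without an induced subgraph isomorphic to `F` is χ-bounded. -/
def ChiBounding (V : Type) (F : SimpleGraph V) : Prop :=
  ∃ f : ℕ → ℕ, ∀ (W : Type) (H : SimpleGraph W), Finite W → IsEmpty (F ↪g H) →
    ∀ k : ℕ, H.CliqueFree (k + 1) → H.Colorable (f k)

end Pool.Agent.Run7.h604.ZH
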