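import Pool.Agent.Run7.h604.ZH.Tdef
import Pool.Agent.Run7.h604.ZH.Law
import Pool.Agent.Run7.h604.ZH.Psm

set_option autoImplicit false
set_option linter.all false

namespace Pool.Agent.Run7.h604.ZH

open SimpleGraph

theorem closed_reach {V : Type} {G : SimpleGraph V} (U : Set V)
    (hU : ∀ a b, a ∈ U → G.Adj a b → b ∈ U) {a b : V} (ha : a ∈ U) (h : G.Reachable a b) :
    b ∈ U := by
  by_contra hb
  obtain ⟨p⟩ := h
  obtain ⟨d, -, h1, h2⟩ := p.exists_boundary_dart U ha hb
  exact h2 (hU _ _ h1 d.adj)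

theorem bridge_in {V : Type} (G : SimpleGraph V) (S : Set V) (s v : V) (h : OneEdge G S s v)
    (hA : (G.induce S).IsAcyclic) (x y : V) (hx : x ∈ S) (hy : y ∈ S) (hxy : G.Adj x y) :
    ¬ (G.deleteEdges {s(x, y)}).Reachable x y := by
  intro hr
  have hb : ¬ ((G.induce S).deleteEdges {s(⟨x, hx⟩, ⟨y, hy⟩)}).Reachable ⟨x, hx⟩ ⟨y, hy⟩ :=
    isAcyclic_iff_forall_adj_isBridge.1 hA (v := ⟨x, hx⟩) (w := ⟨y, hy⟩) hxy
  let G' := (G.induce S).deleteEdges {s((⟨x, hx⟩ : S), (⟨y, hy⟩ : S))}
  let U : Set V := {z | (∃ hz : z ∈ S, G'.Reachable ⟨x, hx⟩ ⟨z, hz⟩) ∨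
    (z ∉ S ∧ G'.Reachable ⟨x, hx⟩ ⟨s, h.1⟩)}
  have hU : ∀ a b, a ∈ U → (G.deleteEdges {s(x, y)}).Adj a b → b ∈ U := by
    intro a b ha hab
    rw [SimpleGraph.deleteEdges_adj] at hab
    obtain ⟨hab, hne⟩ := hab
    rcases ha with ⟨haS, har⟩ | ⟨haS, har⟩
    · by_cases hbS : b ∈ S
      · left
        refine ⟨hbS, har.trans ?_⟩
        apply SimpleGraph.Adj.reachable
        change ((G.induce S).deleteEdges _).Adj _ _
        rw [SimpleGraph.deleteEdges_adj]
        refine ⟨hab, ?_⟩
        intro he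
        apply hne
        simp only [Set.mem_singleton_iff, Sym2.eq_iff, Subtype.mk.injEq] at he ⊢
        exact he
      · right
        refine ⟨hbS, ?_⟩
        obtain ⟨e1, e2⟩ := (h.2.2 a haS b hbS).1 hab
        subst e1
        exact har
    · by_cases hbS : b ∈ S
      · left
        obtain ⟨e1, e2⟩ := (h.2.2 b hbS a haS).1 hab.symm
        subst e1
        exact ⟨hbS, har⟩
      · exact Or.inr ⟨hbS, har⟩
  rcases closed_reach U hU (a := x) (Or.inl ⟨hx, Reachable.refl _⟩) hr with ⟨_, hz⟩ | ⟨hz, _⟩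
  · exact hb hz
  · exact hz hy

theorem acyclic_join {V : Type} (G : SimpleGraph V) (S : Set V) (s v : V) (h : OneEdge G S s v)
    (h1 : (G.induce S).IsAcyclic) (h2 : (G.induce Sᶜ).IsAcyclic) : G.IsAcyclic := by
  rw [isAcyclic_iff_forall_adj_isBridge]
  intro x y hxy
  rw [isBridge_iff]
  have cross : ∀ (S : Set V) (s v : V), OneEdge G S s v → ∀ x y, x ∈ S → y ∉ S → G.Adj x y →
      ¬ (G.deleteEdges {s(x, y)}).Reachable x y := by
    intro S s v h x y hx hy hxy hr
    obtain ⟨e1, e2⟩ := (h.2.2 x hx y hy).1 hxy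
    apply hy
    refine closed_reach S ?_ hx hr
    intro a b ha hab
    by_contra hb
    rw [SimpleGraph.deleteEdges_adj] at hab
    obtain ⟨e3, e4⟩ := (h.2.2 a ha b hb).1 hab.1
    apply hab.2
    rw [e1, e2, e3, e4]
    rfl
  by_cases hx : x ∈ S <;> by_cases hy : y ∈ S
  · exact bridge_in G S s v h h1 x y hx hy hxy
  · exact cross S s v h x y hx hy hxy
  · exact cross Sᶜ v s (oneEdge_compl G S s v h) x y hx (fun h' => h' hy) hxy
  · exact bridge_in G Sᶜ v s (oneEdge_compl G S s v h) h2 x y hx hy hxy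

theorem tree_planar : ∀ (m : ℕ) (V : Type) (G : SimpleGraph V), Finite V → Nat.card V = m →
    G.IsTree → PlanarConn V G := by
  intro m
  induction m using Nat.strong_induction_on with
  | _ m ih =>
    intro V G hf hm hG
    have hne : Nonempty V := hG.1.nonempty
    by_cases hsub : Subsingleton V
    · obtain ⟨v⟩ := hne
      have e : (⊥ : SimpleGraph (Fin 1)) ≃g G :=
        { toEquiv := ⟨fun _ => v, fun _ => 0, fun x => Subsingleton.elim _ _,
            fun x => Subsingleton.elim _ _⟩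
          map_rel_iff' := by
            intro a b
            constructor
            · intro h; exact absurd (Subsingleton.elim _ _) h.ne
            · intro h; exact absurd h (by simp) }
      exact planar_class.iso _ _ _ _ ⟨e⟩ planar_class.one
    · have hnt : Nontrivial V := not_subsingleton_iff_nontrivial.1 hsub
      obtain ⟨x0, y0, hxy0⟩ := exists_pair_ne V
      obtain ⟨x, y, hx, hy, hxy⟩ := exists_leaving hG.1.preconnected ({x0} : Set V) (x := x0)
        (y := y0) rfl (fun h => hxy0 (Set.mem_singleton_iff.1 h).symm)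
      have hb : ¬ (G.deleteEdges {s(x, y)}).Reachable x y :=
        isAcyclic_iff_forall_adj_isBridge.1 hG.2 hxy
      let S : Set V := {z | (G.deleteEdges {s(x, y)}).Reachable x z}
      have hone : OneEdge G S x y := by
        refine ⟨Reachable.refl _, hb, ?_⟩
        intro a ha b hb'
        constructor
        · intro hab
          by_cases he : s(a, b) = s(x, y)
          · rcases Sym2.eq_iff.1 he with ⟨e1, e2⟩ | ⟨e1, e2⟩
            · exact ⟨e1, e2⟩
            · exact absurd (e2 ▸ (Reachable.refl x : (G.deleteEdges {s(x, y)}).Reachable x x)) hb'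
          · exfalso
            apply hb'
            have had : (G.deleteEdges {s(x, y)}).Adj a b := by
              rw [SimpleGraph.deleteEdges_adj]
              exact ⟨hab, he⟩
            exact Reachable.trans ha had.reachable
        · rintro ⟨rfl, rfl⟩; exact hxy
      have c1 : Nat.card S < m := by
        rw [← hm, Nat.card_coe_set_eq, ← Set.ncard_univ]
        exact Set.ncard_lt_ncard (Set.ssubset_univ_iff.2 (fun h => hone.2.1 (h ▸ Set.mem_univ y)))
          (Set.toFinite _)
      have c2 : Nat.card (Sᶜ : Set V) < m := by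
        rw [← hm, Nat.card_coe_set_eq, ← Set.ncard_univ]
        refine Set.ncard_lt_ncard (Set.ssubset_univ_iff.2 (fun h => ?_)) (Set.toFinite _)
        have : x ∈ (Sᶜ : Set V) := h ▸ Set.mem_univ x
        exact this hone.1
      refine (planar_bridge V G S x y hone).2 ⟨?_, ?_⟩
      · exact ih _ c1 S _ inferInstance rfl
          ⟨conn_side G hG.1 S x y hone, hG.2.induce S⟩
      · exact ih _ c2 (Sᶜ : Set V) _ inferInstance rfl
          ⟨conn_side G hG.1 Sᶜ y x (oneEdge_compl G S x y hone), hG.2.induce Sᶜ⟩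

theorem tree_small (n : ℕ) : num TreeConn n ≤ 786432 ^ n * n.factorial := by
  refine le_trans ?_ (planar_small n)
  exact Nat.card_le_card_of_injective
    (fun G : {G : SimpleGraph (Fin n) // TreeConn (Fin n) G} =>
      (⟨G.1, tree_planar _ _ G.1 G.2.1 rfl G.2.2⟩ :
        {G : SimpleGraph (Fin n) // PlanarConn (Fin n) G}))
    (fun a b h => Subtype.ext (by simpa using h))

theorem tree_class : BridgeClass TreeConn where
  fin := fun V G h => h.1
  conn := fun V G h => h.2.1
  iso := by
    rintro V W G H ⟨e⟩ ⟨h1, h2⟩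
    exact ⟨Finite.of_equiv V e.toEquiv, (SimpleGraph.Iso.isTree_iff e).1 h2⟩
  one := ⟨inferInstance, SimpleGraph.IsTree.of_subsingleton⟩
  bridge := by
    intro V G S s v h
    constructor
    · rintro ⟨hf, hG⟩
      exact ⟨⟨inferInstance, conn_side G hG.1 S s v h, hG.2.induce S⟩,
        ⟨inferInstance, conn_side G hG.1 Sᶜ v s (oneEdge_compl G S s v h), hG.2.induce Sᶜ⟩⟩
    · rintro ⟨⟨hf1, h1⟩, ⟨hf2, h2⟩⟩
      have hf : Finite V := by
        have h1 : S.Finite := Set.toFinite S
        have h2 : (Sᶜ : Set V).Finite := Set.toFinite Sᶜ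
        have := h1.union h2
        rw [Set.union_compl_self] at this
        exact Set.finite_univ_iff.1 this
      exact ⟨hf, conn_join G S s v h h1.1 h2.1, acyclic_join G S s v h h1.2 h2.2⟩
  small := ⟨786432, tree_small⟩

/-- A property inherited by induced subgraphs holds for all members or for exponentially few. -/
theorem hered {P : (V : Type) → SimpleGraph V → Prop} (hP : BridgeClass P)
    (Q : (V : Type) → SimpleGraph V → Prop)
    (hQ : ∀ (V W : Type) (G : SimpleGraph V) (H : SimpleGraph W), Nonempty (G ↪g H) →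
      Q W H → Q V G) :
    (∀ (V : Type) (G : SimpleGraph V), P V G → Q V G) ∨
    (∃ K κ : ℝ, 0 < κ ∧ ∀ n : ℕ, 1 ≤ n →
      share P n (fun G => Q (Fin n) G) ≤ K * Real.exp (-(κ * n))) := by
  by_cases hall : ∀ (V : Type) (G : SimpleGraph V), P V G → Q V G
  · exact Or.inl hall
  right
  push Not at hall
  obtain ⟨V, G, hG, hz⟩ := hall
  obtain ⟨k, T, hT, ⟨e⟩⟩ := to_fin hP G hG
  have hTQ : ¬ Q _ T := fun h => hz (hQ _ _ _ _ ⟨e.toEmbedding⟩ h)
  obtain ⟨K, κ, hK0, hκ, hK⟩ := noCop_rare hP T hT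
  refine ⟨K, κ, hκ, fun n hn => ?_⟩
  have hnum : (0 : ℝ) < num P n := by exact_mod_cast num_pos hP n hn
  unfold share
  rw [div_le_iff₀ hnum]
  refine le_trans ?_ (hK n hn)
  have hcard : Nat.card {G : SimpleGraph (Fin n) // P (Fin n) G ∧ Q (Fin n) G} ≤
      Nat.card (NoCop P T n) :=
    Nat.card_le_card_of_injective
      (fun G : {G : SimpleGraph (Fin n) // P (Fin n) G ∧ Q (Fin n) G} =>
        (⟨G.1, G.2.1, fun f hf => hTQ (hQ _ _ _ _
          ⟨{ toFun := f, inj' := f.injective, map_rel_iff' := by intro a b; exact hf.1 a b }⟩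
          G.2.2)⟩ : NoCop P T n))
      (fun a b h => Subtype.ext (by simpa using h))
  exact_mod_cast hcard

theorem chi_hered (V W : Type) (G : SimpleGraph V) (H : SimpleGraph W) (h : Nonempty (G ↪g H))
    (hH : ChiBounding W H) : ChiBounding V G := by
  obtain ⟨e⟩ := h
  obtain ⟨f, hf⟩ := hH
  refine ⟨f, fun X J hX hE k hk => hf X J hX ⟨fun e' => hE.false (e.trans e')⟩ k hk⟩

end Pool.Agent.Run7.h604.ZH
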