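import Pool.Agent.Run7.h604.ZH.Cnt

set_option autoImplicit false
set_option linter.all false

namespace Pool.Agent.Run7.h604.ZH

open Pool.Agent.H207R2.BL

variable {P : (V : Type) → SimpleGraph V → Prop}

theorem split_succ (k : ℕ) :
    Split (fun _ : Fin 1 => (0 : Fin (k + 2))) (Fin.succ : Fin (k + 1) → Fin (k + 2)) where
  fi := fun a b _ => Subsingleton.elim a b
  gi := Fin.succ_injective _
  ne := fun _ j e => Fin.succ_ne_zero j e.symm
  cov := fun w => by
    induction w using Fin.cases with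
    | zero => exact Or.inl ⟨0, rfl⟩
    | succ j => exact Or.inr ⟨j, rfl⟩

theorem exists_pos (hP : BridgeClass P) (q : ℝ) (hq : 1 < q) (k : ℕ) :
    ∃ T : SimpleGraph (Fin (k + 1)), P _ T ∧ 0 < (chr T).eval q := by
  induction k with
  | zero => exact ⟨⊥, hP.one, by rw [chr_point]; linarith⟩
  | succ k ih =>
    obtain ⟨T, hT, hv⟩ := ih
    refine ⟨join (⊥ : SimpleGraph (Fin 1)) T (fun _ => 0) Fin.succ 0 0,
      join_mem _ T 0 0 (split_succ k) hP hP.one hT, ?_⟩
    have h := join_chr (⊥ : SimpleGraph (Fin 1)) T 0 0 (split_succ k) q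
    rw [chr_point] at h
    have h2 : 0 < q * (chr (join (⊥ : SimpleGraph (Fin 1)) T (fun _ => 0) Fin.succ 0 0)).eval q := by
      rw [h]
      have : 0 < q - 1 := by linarith
      have : 0 < q := by linarith
      positivity
    exact (mul_pos_iff_of_pos_left (by linarith)).1 h2

theorem num_pos (hP : BridgeClass P) (n : ℕ) (hn : 1 ≤ n) : 0 < num P n := by
  obtain ⟨k, rfl⟩ : ∃ k, n = k + 1 := ⟨n - 1, by omega⟩
  obtain ⟨T, hT, -⟩ := exists_pos hP 2 (by norm_num) k
  have : Nonempty {G : SimpleGraph (Fin (k + 1)) // P (Fin (k + 1)) G} := ⟨⟨T, hT⟩⟩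
  exact Nat.card_pos

theorem atMost_le (P : (V : Type) → SimpleGraph V → Prop) {k : ℕ} (T : SimpleGraph (Fin (k + 1)))
    (n j : ℕ) : Nat.card (AtMost P T n j) ≤ num P n :=
  Nat.card_le_card_of_injective (fun G : AtMost P T n j =>
      (⟨G.1, G.2.1⟩ : {G : SimpleGraph (Fin n) // P (Fin n) G}))
    (fun a b h => Subtype.ext (by simpa using h))

end Pool.Agent.Run7.h604.ZH
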