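import Pool.Agent.Run7.h604.ZH.Wt
import Pool.Agent.Run7.h604.ZH.Asy

set_option autoImplicit false
set_option linter.all false
set_option maxHeartbeats 400000

namespace Pool.Agent.Run7.h604.ZH

open Filter Topology Pool.Agent.H207R2.BL

variable {P : (V : Type) → SimpleGraph V → Prop}

noncomputable def cc (q : ℝ) : ℝ := (q - 1) / q

theorem cc_pos {q : ℝ} (hq : 1 < q) : 0 < cc q := div_pos (by linarith) (by linarith)

theorem WW_pos (hP : BridgeClass P) (q : ℝ) (hq : 1 < q) (n : ℕ) (hn : 1 ≤ n) :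
    0 < WW P q n := by
  classical
  obtain ⟨k, rfl⟩ : ∃ k, n = k + 1 := ⟨n - 1, by omega⟩
  obtain ⟨T, hT, hv⟩ := exists_pos hP q hq k
  have h1 : mu q T ≤ WW P q (k + 1) := by
    have h := inj_sum (A := Unit) (B := {G : SimpleGraph (Fin (k + 1)) // P (Fin (k + 1)) G})
      (fun _ => ⟨T, hT⟩) (fun a b _ => rfl) (fun _ => mu q T) (fun G => mu q G.1)
      (fun G => mu_nonneg q G.1) (fun _ => le_refl _)
    have e : ∑ _a : Unit, mu q T = mu q T := by simp
    rw [e] at h
    exact h
  have h2 : 0 < mu q T := abs_pos.2 hv.ne'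
  linarith

attribute [local irreducible] WA WW mu

noncomputable def ww (P : (V : Type) → SimpleGraph V → Prop) (q : ℝ) (n : ℕ) : ℝ :=
  cc q * (n : ℝ) * WW P q n / (2 * (n.factorial : ℝ))

theorem ww_pos (hP : BridgeClass P) (q : ℝ) (hq : 1 < q) (n : ℕ) (hn : 1 ≤ n) :
    0 < ww P q n := by
  have h1 := WW_pos hP q hq n hn
  have h2 : (0 : ℝ) < n := by exact_mod_cast hn
  have h3 : (0 : ℝ) < n.factorial := by exact_mod_cast Nat.factorial_pos n
  have := cc_pos hq
  unfold ww
  positivity

theorem ww_super (hP : BridgeClass P) (q : ℝ) (hq : 1 < q) (n m : ℕ) (hn : 1 ≤ n) (hm : 1 ≤ m) :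
    ww P q n * ww P q m ≤ ww P q (n + m) := by
  obtain ⟨k, rfl⟩ : ∃ k, m = k + 1 := ⟨m - 1, by omega⟩
  have h' := sup_w hP q hq k n
  have hc := choose_fact n (k + 1)
  have c0 := cc_pos hq
  have e0 : (q - 1) / q = cc q := rfl
  rw [e0] at h'
  have f1 : (0 : ℝ) < (n.factorial : ℝ) := by exact_mod_cast Nat.factorial_pos n
  have f2 : (0 : ℝ) < ((k + 1).factorial : ℝ) := by exact_mod_cast Nat.factorial_pos (k + 1)
  have f4 : (0 : ℝ) < (((n + (k + 1)).choose (k + 1) : ℕ) : ℝ) := by
    exact_mod_cast Nat.choose_pos (Nat.le_add_left (k + 1) n)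
  unfold ww
  rw [div_mul_div_comm, div_le_div_iff₀ (by positivity) (by positivity), ← hc]
  have h2 := mul_le_mul_of_nonneg_left h' (mul_pos (mul_pos f1 f2) c0).le
  calc _ = 2 * (((n.factorial : ℝ) * ((k + 1).factorial : ℝ) * cc q) *
        ((((n + (k + 1)).choose (k + 1) : ℕ) : ℝ) *
        (cc q * ((((k + 1 : ℕ) : ℝ) * WW P q (k + 1)) * ((n : ℝ) * WW P q n))))) := by ring
    _ ≤ 2 * (((n.factorial : ℝ) * ((k + 1).factorial : ℝ) * cc q) *
        (WW P q (n + (k + 1)) * (((n + (k + 1) : ℕ) : ℝ) * 2))) := by linarith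
    _ = _ := by ring

theorem growth_w (hP : BridgeClass P) (q : ℝ) (hq : 1 < q)
    (hB : ∃ B : ℝ, 0 ≤ B ∧ ∀ n : ℕ, WW P q n ≤ B ^ n * n.factorial) : ∃ l : ℝ,
    (∀ n : ℕ, 1 ≤ n → ww P q n ≤ Real.exp (-(l * n))) ∧
    ∀ ε : ℝ, 0 < ε → ∀ᶠ n : ℕ in atTop, Real.exp (-((l + ε) * n)) ≤ ww P q n := by
  have c0 := cc_pos hq
  have c1 : cc q ≤ 1 := by
    unfold cc
    rw [div_le_one (by linarith)]
    linarith
  let u : ℕ → ℝ := fun n => if n = 0 then 0 else -Real.log (ww P q n)
  have hu : ∀ n, 1 ≤ n → u n = -Real.log (ww P q n) := fun n hn => by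
    simp only [u]; rw [if_neg (by omega)]
  have hsub : Subadditive u := by
    intro m n
    rcases Nat.eq_zero_or_pos m with rfl | hm
    · simp [u]
    rcases Nat.eq_zero_or_pos n with rfl | hn
    · simp [u]
    rw [hu _ hm, hu _ hn, hu _ (by omega)]
    have := Real.log_le_log (mul_pos (ww_pos hP q hq m hm) (ww_pos hP q hq n hn))
      (ww_super hP q hq m n hm hn)
    rw [Real.log_mul (ww_pos hP q hq m hm).ne' (ww_pos hP q hq n hn).ne'] at this
    linarith
  obtain ⟨L, hL⟩ : ∃ L : ℝ, ∀ n : ℕ, 1 ≤ n → Real.log (ww P q n) ≤ L * n := by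
    obtain ⟨K, hK0, hK⟩ := hB
    refine ⟨Real.log (2 * K + 1), fun n hn => ?_⟩
    have h1 := hK n
    have f1 : (0 : ℝ) < (n.factorial : ℝ) := by exact_mod_cast Nat.factorial_pos n
    have h2 : (n : ℝ) ≤ 2 ^ n := by exact_mod_cast (Nat.lt_two_pow_self (n := n)).le
    have hW := (WW_pos hP q hq n hn).le
    have h3 : ww P q n ≤ (2 * K + 1) ^ n := by
      unfold ww
      rw [div_le_iff₀ (by positivity)]
      have h5 : ((2 : ℝ) * K) ^ n ≤ (2 * K + 1) ^ n :=
        pow_le_pow_left₀ (by positivity) (by linarith) n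
      calc cc q * (n : ℝ) * WW P q n ≤ 1 * 2 ^ n * (K ^ n * n.factorial) := by gcongr
        _ = (2 * K) ^ n * n.factorial := by rw [mul_pow]; ring
        _ ≤ (2 * K + 1) ^ n * n.factorial := by gcongr
        _ ≤ (2 * K + 1) ^ n * (2 * n.factorial) := by
          have : (0 : ℝ) ≤ (2 * K + 1) ^ n := by positivity
          nlinarith
    have h4 := Real.log_le_log (ww_pos hP q hq n hn) h3
    rw [Real.log_pow] at h4
    linarith
  have hbdd : BddBelow (Set.range fun n => u n / n) := by
    refine ⟨min 0 (-L), ?_⟩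
    rintro x ⟨n, rfl⟩
    rcases Nat.eq_zero_or_pos n with rfl | hn
    · simp
    · have hn' : (0 : ℝ) < n := by exact_mod_cast hn
      refine (min_le_right _ _).trans ?_
      simp only
      rw [le_div_iff₀ hn', hu n hn]
      have := hL n hn
      linarith
  refine ⟨hsub.lim, fun n hn => ?_, fun ε hε => ?_⟩
  · have h1 := hsub.lim_le_div hbdd (n := n) (by omega)
    have hn' : (0 : ℝ) < n := by exact_mod_cast hn
    rw [le_div_iff₀ hn', hu n hn] at h1
    rw [← Real.log_le_iff_le_exp (ww_pos hP q hq n hn)]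
    linarith
  · have h1 := hsub.tendsto_lim hbdd
    have h2 : ∀ᶠ n : ℕ in atTop, u n / n < hsub.lim + ε :=
      h1.eventually (gt_mem_nhds (by linarith))
    filter_upwards [h2, eventually_ge_atTop 1] with n h3 hn
    have hn' : (0 : ℝ) < n := by exact_mod_cast hn
    rw [div_lt_iff₀ hn', hu n hn] at h3
    rw [← Real.le_log_iff_exp_le (ww_pos hP q hq n hn)]
    linarith

theorem insertion_w (hP : BridgeClass P) (q : ℝ) (hq : 1 < q) {k : ℕ}
    (T : SimpleGraph (Fin (k + 1))) (hT : P _ T) (n : ℕ) (hn : k + 1 < n) (i : ℕ) :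
    WA P q T n 0 / n.factorial *
        ((n : ℝ) * (cc q * mu q T) / (k + 1).factorial) ^ i / i.factorial ≤
      WA P q T (n + i * (k + 1)) i / (n + i * (k + 1)).factorial := by
  have c0 := cc_pos hq
  have m0 := mu_nonneg q T
  induction i with
  | zero => simp
  | succ i ih =>
    have h' := ins_w hP q hq T hT (n + i * (k + 1)) i (by nlinarith [Nat.zero_le (i * (k + 1))])
    have e : n + (i + 1) * (k + 1) = n + i * (k + 1) + (k + 1) := by ring
    rw [e]
    have e0 : (q - 1) / q = cc q := rfl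
    rw [e0] at h'
    set N := n + i * (k + 1) with hN
    have hNn : (n : ℝ) ≤ N := by
      have : n ≤ N := by rw [hN]; exact Nat.le_add_right _ _
      exact_mod_cast this
    have hc := choose_fact N (k + 1)
    have f1 : (0 : ℝ) < (N.factorial : ℝ) := by exact_mod_cast Nat.factorial_pos N
    have f2 : (0 : ℝ) < ((k + 1).factorial : ℝ) := by exact_mod_cast Nat.factorial_pos (k + 1)
    have f4 : (0 : ℝ) < (((N + (k + 1)).choose (k + 1) : ℕ) : ℝ) := by
      exact_mod_cast Nat.choose_pos (Nat.le_add_left (k + 1) N)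
    have fi : (0 : ℝ) < (i : ℝ) + 1 := by positivity
    have fif : (0 : ℝ) < (i.factorial : ℝ) := by exact_mod_cast Nat.factorial_pos i
    set A : ℝ := WA P q T N i with hA
    set B : ℝ := WA P q T (N + (k + 1)) (i + 1) with hB
    have hA0 : 0 ≤ A := WA_nonneg q T N i
    have step : (n : ℝ) * (cc q * mu q T) / (k + 1).factorial / (i + 1) * (A / N.factorial) ≤
        B / (N + (k + 1)).factorial := by
      rw [← hc, div_div, div_mul_div_comm, div_le_div_iff₀ (by positivity) (by positivity)]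
      have h1 : (n : ℝ) * (cc q * mu q T * A) ≤ N * (cc q * mu q T * A) :=
        mul_le_mul_of_nonneg_right hNn (by positivity)
      have h2 : (((N + (k + 1)).choose (k + 1) : ℕ) : ℝ) * (n * (cc q * mu q T * A)) ≤
          (i + 1) * B := (mul_le_mul_of_nonneg_left h1 f4.le).trans h'
      have h3 := mul_le_mul_of_nonneg_left h2 (mul_pos f2 f1).le
      calc _ = ((k + 1).factorial : ℝ) * (N.factorial : ℝ) *
            ((((N + (k + 1)).choose (k + 1) : ℕ) : ℝ) * (n * (cc q * mu q T * A))) := by ring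
        _ ≤ ((k + 1).factorial : ℝ) * (N.factorial : ℝ) * ((i + 1) * B) := h3
        _ = _ := by ring
    refine le_trans (le_of_eq ?_) (le_trans (mul_le_mul_of_nonneg_left ih
      (by positivity : (0 : ℝ) ≤ (n : ℝ) * (cc q * mu q T) / (k + 1).factorial / (i + 1))) step)
    have hfi : ((i + 1).factorial : ℝ) = ((i : ℝ) + 1) * i.factorial := by
      rw [Nat.factorial_succ]; push_cast; ring
    rw [hfi, pow_succ]
    generalize (n : ℝ) * (cc q * mu q T) / ((k + 1).factorial : ℝ) = D
    generalize WA P q T n 0 / (n.factorial : ℝ) = Y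
    rw [div_mul_div_comm, mul_comm D (Y * D ^ i), mul_assoc]

/-- Members without a pendant copy of `T` carry an exponentially small share of the weight. -/
theorem rare_w (hP : BridgeClass P) (q : ℝ) (hq : 1 < q)
    (hB : ∃ B : ℝ, 0 ≤ B ∧ ∀ n : ℕ, WW P q n ≤ B ^ n * n.factorial) {k : ℕ}
    (T : SimpleGraph (Fin (k + 1))) (hT : P _ T) (hmu : 0 < mu q T) :
    ∃ K κ : ℝ, 0 ≤ K ∧ 0 < κ ∧ ∀ n : ℕ, 1 ≤ n →
      WA P q T n 0 ≤ K * Real.exp (-(κ * n)) * WW P q n := by
  obtain ⟨l, hup, hlow⟩ := growth_w hP q hq hB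
  have c0 := cc_pos hq
  set h : ℝ := ((k + 1 : ℕ) : ℝ) with hh
  set Q : ℝ := ((k + 1).factorial : ℝ) * Real.exp (-(l * h)) / (cc q * mu q T) with hQ
  have fQ : 0 < Q := by
    have : (0 : ℝ) < ((k + 1).factorial : ℝ) := by exact_mod_cast Nat.factorial_pos (k + 1)
    positivity
  set δ : ℝ := Real.exp (-1) / Q with hδ
  have fδ : 0 < δ := by positivity
  have up : ∀ n : ℕ, k + 1 < n → WA P q T n 0 / n.factorial ≤
      2 / cc q * Real.exp 1 * Real.exp (-(l * n)) * Real.exp (-(δ * n)) := by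
    intro n hn
    have hn' : (0 : ℝ) < n := by exact_mod_cast (by omega : 0 < n)
    set i : ℕ := ⌊δ * n⌋₊ with hi
    have i1 : (i : ℝ) ≤ δ * n := Nat.floor_le (by positivity)
    have i2 : δ * n < i + 1 := Nat.lt_floor_add_one _
    set N : ℕ := n + i * (k + 1) with hN
    have hN1 : 1 ≤ N := by omega
    have e1 := insertion_w hP q hq T hT n hn i
    have e2 : WA P q T N i / N.factorial ≤ 2 / cc q * Real.exp (-(l * N)) := by
      have fN : (0 : ℝ) < (N.factorial : ℝ) := by exact_mod_cast Nat.factorial_pos N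
      have g1 : WA P q T N i ≤ WW P q N := WA_le q T N i
      have g2 := hup N hN1
      unfold ww at g2
      rw [div_le_iff₀ (by positivity)] at g2
      rw [div_le_iff₀ (by positivity)]
      have g3 : (1 : ℝ) ≤ N := by exact_mod_cast hN1
      have g4 : (0 : ℝ) ≤ WW P q N := (WW_pos hP q hq N hN1).le
      have g5 : cc q * WW P q N ≤ Real.exp (-(l * N)) * (2 * N.factorial) := by
        refine le_trans ?_ g2
        have : cc q * WW P q N * 1 ≤ cc q * WW P q N * N :=
          mul_le_mul_of_nonneg_left g3 (by positivity)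
        linarith
      have g6 : WW P q N ≤ Real.exp (-(l * N)) * (2 * N.factorial) / cc q := by
        rw [le_div_iff₀ c0]; linarith
      refine g1.trans (g6.trans (le_of_eq ?_))
      field_simp
    have e3 : Real.exp (-(l * N)) = Real.exp (-(l * n)) * Real.exp (-(l * h)) ^ i := by
      rw [← Real.exp_nat_mul, ← Real.exp_add]
      congr 1
      rw [hN, hh]
      push_cast
      ring
    have ff : (0 : ℝ) < ((k + 1).factorial : ℝ) := by exact_mod_cast Nat.factorial_pos (k + 1)
    have fi : (0 : ℝ) < (i.factorial : ℝ) := by exact_mod_cast Nat.factorial_pos i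
    have e4 := e1.trans e2
    rw [e3] at e4
    set X : ℝ := WA P q T n 0 / n.factorial with hX
    set E : ℝ := Real.exp (-(l * n)) with hE
    set F : ℝ := Real.exp (-(l * h)) with hF
    have fE : 0 < E := Real.exp_pos _
    have fF : 0 < F := Real.exp_pos _
    have e5 : X ≤ 2 / cc q * E * ((i.factorial : ℝ) * (Q / n) ^ i) := by
      rw [div_le_iff₀ fi] at e4
      have g : (0 : ℝ) < ((n : ℝ) * (cc q * mu q T) / (k + 1).factorial) ^ i := by positivity
      have e6 : X ≤ (2 / cc q * (E * F ^ i) * i.factorial) /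
          ((n : ℝ) * (cc q * mu q T) / (k + 1).factorial) ^ i := by
        rw [le_div_iff₀ g]; exact e4
      refine e6.trans (le_of_eq ?_)
      have e8 : Q / n = F / ((n : ℝ) * (cc q * mu q T) / (k + 1).factorial) := by
        rw [hQ, div_div, div_div_eq_mul_div]
        congr 1
        · ring
        · ring
      rw [e8]
      generalize (n : ℝ) * (cc q * mu q T) / (k + 1).factorial = D
      rw [div_pow F D i]
      ring
    have e7 : (i.factorial : ℝ) * (Q / n) ^ i ≤ Real.exp 1 * Real.exp (-(δ * n)) := by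
      have g1 : (i.factorial : ℝ) ≤ (i : ℝ) ^ i := by exact_mod_cast Nat.factorial_le_pow i
      have g2 : (i : ℝ) * (Q / n) ≤ Real.exp (-1) := by
        have : (i : ℝ) * (Q / n) ≤ δ * n * (Q / n) :=
          mul_le_mul_of_nonneg_right i1 (by positivity)
        refine this.trans (le_of_eq ?_)
        rw [hδ]
        field_simp
      calc (i.factorial : ℝ) * (Q / n) ^ i ≤ (i : ℝ) ^ i * (Q / n) ^ i :=
            mul_le_mul_of_nonneg_right g1 (by positivity)
        _ = ((i : ℝ) * (Q / n)) ^ i := by rw [mul_pow]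
        _ ≤ Real.exp (-1) ^ i := pow_le_pow_left₀ (by positivity) g2 i
        _ = Real.exp (-(i : ℝ)) := by
          rw [← Real.exp_nat_mul]
          congr 1
          ring
        _ ≤ Real.exp (1 + -(δ * n)) := Real.exp_le_exp.2 (by linarith)
        _ = Real.exp 1 * Real.exp (-(δ * n)) := Real.exp_add _ _
    calc X ≤ 2 / cc q * E * ((i.factorial : ℝ) * (Q / n) ^ i) := e5
      _ ≤ 2 / cc q * E * (Real.exp 1 * Real.exp (-(δ * n))) :=
        mul_le_mul_of_nonneg_left e7 (by positivity)
      _ = 2 / cc q * Real.exp 1 * E * Real.exp (-(δ * n)) := by ring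
  obtain ⟨N0, hN0⟩ := eventually_atTop.1 (hlow (δ / 2) (by positivity))
  set κ : ℝ := δ / 4 with hκ
  have fκ : 0 < κ := by positivity
  set M : ℕ := max N0 (k + 2) with hM
  refine ⟨Real.exp 1 * (1 / κ) + Real.exp (κ * M), κ, by positivity, fκ, fun n hn => ?_⟩
  have hn' : (0 : ℝ) < n := by exact_mod_cast hn
  have fn : (0 : ℝ) < (n.factorial : ℝ) := by exact_mod_cast Nat.factorial_pos n
  have hnum : (0 : ℝ) ≤ WW P q n := (WW_pos hP q hq n hn).le
  rcases Nat.lt_or_ge n M with hlt | hge
  · have g1 : WA P q T n 0 ≤ WW P q n := WA_le q T n 0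
    have g2 : (n : ℝ) ≤ M := by exact_mod_cast hlt.le
    have g3 : 1 ≤ Real.exp (κ * M) * Real.exp (-(κ * n)) := by
      rw [← Real.exp_add]
      exact Real.one_le_exp (by nlinarith)
    have g4 : 0 ≤ Real.exp 1 * (1 / κ) * Real.exp (-(κ * n)) := by positivity
    have g5 : 1 ≤ (Real.exp 1 * (1 / κ) + Real.exp (κ * M)) * Real.exp (-(κ * n)) := by
      rw [add_mul]; linarith
    calc WA P q T n 0 ≤ 1 * WW P q n := by rw [one_mul]; exact g1
      _ ≤ _ := mul_le_mul_of_nonneg_right g5 hnum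
  · have g1 := up n (by have := le_max_right N0 (k + 2); omega)
    have g2 := hN0 n (by have := le_max_left N0 (k + 2); omega)
    rw [div_le_iff₀ fn] at g1
    unfold ww at g2
    rw [le_div_iff₀ (by positivity)] at g2
    have g3 : κ * n ≤ Real.exp (κ * n) := by
      have := Real.add_one_le_exp (κ * n); linarith
    have e1 : Real.exp (-(l * n)) * Real.exp (-(δ * n)) =
        Real.exp (-((l + δ / 2) * n)) * Real.exp (-(κ * n)) * Real.exp (-(κ * n)) := by
      rw [← Real.exp_add, ← Real.exp_add, ← Real.exp_add]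
      congr 1
      rw [hκ]; ring
    set a := Real.exp (-((l + δ / 2) * n)) with ha
    set b := Real.exp (-(κ * n)) with hb
    have fb : 0 < b := Real.exp_pos _
    have e2 : Real.exp (κ * n) * b = 1 := by
      rw [hb, ← Real.exp_add, add_neg_cancel, Real.exp_zero]
    have g4 : κ * n * b ≤ 1 := by
      calc κ * n * b ≤ Real.exp (κ * n) * b := mul_le_mul_of_nonneg_right g3 fb.le
        _ = 1 := e2
    have g5 : (n : ℝ) * b ≤ 1 / κ := by
      rw [le_div_iff₀ fκ]; linarith
    have fe : 0 < Real.exp 1 := Real.exp_pos _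
    calc WA P q T n 0
        ≤ 2 / cc q * Real.exp 1 * Real.exp (-(l * n)) * Real.exp (-(δ * n)) * n.factorial := g1
      _ = Real.exp 1 * b * b / cc q * (a * (2 * n.factorial)) := by
        have : 2 / cc q * Real.exp 1 * Real.exp (-(l * n)) * Real.exp (-(δ * n)) *
            (n.factorial : ℝ) =
          2 / cc q * Real.exp 1 * (Real.exp (-(l * n)) * Real.exp (-(δ * n))) *
            n.factorial := by ring
        rw [this, e1]; ring
      _ ≤ Real.exp 1 * b * b / cc q * (cc q * n * WW P q n) :=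
        mul_le_mul_of_nonneg_left g2 (by positivity)
      _ = Real.exp 1 * (n * b) * b * WW P q n := by field_simp
      _ ≤ Real.exp 1 * (1 / κ) * b * WW P q n := by gcongr
      _ ≤ (Real.exp 1 * (1 / κ) + Real.exp (κ * M)) * b * WW P q n := by
        have : 0 < Real.exp (κ * M) := Real.exp_pos _
        gcongr
        linarith

end Pool.Agent.Run7.h604.ZH
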