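import Pool.Agent.Run7.h604.ZH.Sdef
import Pool.Agent.Run7.h604.ZH.Wa
import Pool.Agent.Run7.h604.ZH.Bd
import Pool.Agent.Run7.h604.ZH.Law

set_option autoImplicit false
set_option linter.all false
set_option maxHeartbeats 400000

namespace Pool.Agent.Run7.h604.ZH

open Pool.Agent.H207R2.BL

variable {P : (V : Type) → SimpleGraph V → Prop}

theorem val_eq {V : Type} [Finite V] (q : ℝ) (G : SimpleGraph V) : val q G = (chr G).eval q := by
  unfold val
  have h : ∃ p, IsChrom G p := ⟨chr G, chr_spec G⟩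
  rw [dif_pos h]
  exact chr_eq h.choose_spec q

/-- Exchanging the copies multiplies the sum of the absolute values by at most `r`. -/
theorem sw_pair {k n : ℕ} (T T' : SimpleGraph (Fin (k + 1))) (q : ℝ) (hq : 1 < q)
    (h1 : (chr T).eval q < 0) (h2 : 0 < (chr T').eval q)
    (G : SimpleGraph (Fin n)) (f : Fin (k + 1) ↪o Fin n) (hf : f ∈ copies T T' G) :
    |(chr G).eval q + (chr (sw T T' G f)).eval q| =
      |(chr T).eval q + (chr T').eval q| / (|(chr T).eval q| + |(chr T').eval q|) *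
        (|(chr G).eval q| + |(chr (sw T T' G f)).eval q|) := by
  classical
  have key : ∀ (A B : SimpleGraph (Fin (k + 1))), Cop A G f →
      ∃ x : ℝ, (chr G).eval q = x * (chr A).eval q ∧
        (chr (rep B G f)).eval q = x * (chr B).eval q := by
    intro A B hA
    obtain ⟨v, hv⟩ := hA.2
    have e1 := chr_cop G A f hA q
    have e2 := rep_chr B G f.injective hv q
    have hq0 : q ≠ 0 := by linarith
    refine ⟨(q - 1) / q * (chr (G.induce (Set.range f)ᶜ)).eval q, ?_, ?_⟩
    · field_simp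
      linarith
    · field_simp
      linarith
  have fin : ∀ (x s t : ℝ), s * t < 0 →
      |x * s + x * t| = |s + t| / (|s| + |t|) * (|x * s| + |x * t|) := by
    intro x s t hst
    have hs : 0 < |s| := abs_pos.2 (fun h => by rw [h] at hst; simp at hst)
    have ht : 0 < |t| := abs_pos.2 (fun h => by rw [h] at hst; simp at hst)
    rw [← mul_add, abs_mul, abs_mul, abs_mul, ← mul_add]
    have : |s| + |t| ≠ 0 := by positivity
    field_simp
  by_cases hc : Cop T G f
  · have h0 : sw T T' G f = rep T' G f := by unfold sw; rw [if_pos hc]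
    obtain ⟨x, e1, e2⟩ := key T T' hc
    rw [h0, e1, e2]
    exact fin x _ _ (mul_neg_of_neg_of_pos h1 h2)
  · have hc' : Cop T' G f := hf.resolve_left hc
    have h0 : sw T T' G f = rep T G f := by unfold sw; rw [if_neg hc]
    obtain ⟨x, e1, e2⟩ := key T' T hc'
    rw [h0, e1, e2, fin x _ _ (mul_neg_of_pos_of_neg h2 h1), add_comm ((chr T').eval q),
      add_comm |(chr T').eval q|]

theorem signed_main (hP : BridgeClass P) (q : ℝ) (hq : 1 < q) {k n : ℕ}
    (T T' : SimpleGraph (Fin (k + 1))) (hT : P _ T) (hT' : P _ T')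
    (h1 : (chr T).eval q < 0) (h2 : 0 < (chr T').eval q) (hn : 2 * (k + 1) < n) (r : ℝ)
    (hr : r = |(chr T).eval q + (chr T').eval q| / (|(chr T).eval q| + |(chr T').eval q|)) :
    |total P n (val q)| ≤ r * total P n (fun G => |val q G|) + WA P q T n 0 := by
  classical
  have hne : T ≠ T' := by
    rintro rfl
    linarith
  have hr0 : 0 ≤ r := by rw [hr]; positivity
  let F : SimpleGraph (Fin n) → ℝ := fun G => (chr G).eval q
  let s : Finset (SimpleGraph (Fin n)) := Finset.univ.filter (fun G => P (Fin n) G)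
  have t1 : total P n (val q) = ∑ G ∈ s, F G := by
    unfold total
    rw [Finset.sum_filter]
    exact Finset.sum_congr rfl (fun G _ => by rw [val_eq])
  have t2 : total P n (fun G => |val q G|) = ∑ G ∈ s, |F G| := by
    unfold total
    rw [Finset.sum_filter]
    exact Finset.sum_congr rfl (fun G _ => by simp only [val_eq]; rfl)
  rw [t1, t2]
  let s1 := s.filter (fun G => (copies T T' G).Nonempty)
  let s2 := s.filter (fun G => ¬ (copies T T' G).Nonempty)
  have p1 : ∑ G ∈ s, F G = ∑ G ∈ s1, F G + ∑ G ∈ s2, F G :=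
    (Finset.sum_filter_add_sum_filter_not s _ _).symm
  have p2 : ∑ G ∈ s, |F G| = ∑ G ∈ s1, |F G| + ∑ G ∈ s2, |F G| :=
    (Finset.sum_filter_add_sum_filter_not s _ _).symm
  let ι : ∀ G ∈ s1, SimpleGraph (Fin n) := fun G hG => sw T T' G (Finset.mem_filter.1 hG).2.some
  have hι : ∀ G (hG : G ∈ s1), ι G hG ∈ s1 := by
    intro G hG
    have hm := Finset.mem_filter.1 hG
    have hGP : P _ G := (Finset.mem_filter.1 hm.1).2
    obtain ⟨f1, f2, f3⟩ := sw_facts hP T T' hT hT' hne G hGP hn _ hm.2.some_mem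
    refine Finset.mem_filter.2 ⟨Finset.mem_filter.2 ⟨Finset.mem_univ _, f1⟩, ?_⟩
    rw [f2]
    exact hm.2
  have hιι : ∀ G (hG : G ∈ s1), ι (ι G hG) (hι G hG) = G := by
    intro G hG
    have hm := Finset.mem_filter.1 hG
    have hGP : P _ G := (Finset.mem_filter.1 hm.1).2
    obtain ⟨f1, f2, f3⟩ := sw_facts hP T T' hT hT' hne G hGP hn _ hm.2.some_mem
    have hne2 : (copies T T' (sw T T' G hm.2.some)).Nonempty := by rw [f2]; exact hm.2
    have he : hne2.some = hm.2.some := some_congr f2 _ _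
    change sw T T' (sw T T' G hm.2.some) hne2.some = G
    rw [he]
    exact f3
  have hsum : ∀ H : SimpleGraph (Fin n) → ℝ,
      ∑ x ∈ s1.attach, H (ι x.1 x.2) = ∑ G ∈ s1, H G := by
    intro H
    rw [← Finset.sum_attach s1 H]
    refine Finset.sum_bij' (fun x _ => ⟨ι x.1 x.2, hι x.1 x.2⟩) (fun x _ => ⟨ι x.1 x.2, hι x.1 x.2⟩)
      ?_ ?_ ?_ ?_ ?_
    · intro a _; exact Finset.mem_attach _ _
    · intro a _; exact Finset.mem_attach _ _
    · intro a _; exact Subtype.ext (hιι a.1 a.2)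
    · intro a _; exact Subtype.ext (hιι a.1 a.2)
    · intro a _; rfl
  have b1 : |∑ G ∈ s1, F G| ≤ r * ∑ G ∈ s1, |F G| := by
    have e1 : 2 * ∑ G ∈ s1, F G = ∑ x ∈ s1.attach, (F x.1 + F (ι x.1 x.2)) := by
      rw [Finset.sum_add_distrib, hsum F, Finset.sum_attach s1 F]
      ring
    have e2 : 2 * ∑ G ∈ s1, |F G| = ∑ x ∈ s1.attach, (|F x.1| + |F (ι x.1 x.2)|) := by
      rw [Finset.sum_add_distrib, hsum (fun G => |F G|), Finset.sum_attach s1 (fun G => |F G|)]
      ring
    have e3 : |2 * ∑ G ∈ s1, F G| ≤ r * (2 * ∑ G ∈ s1, |F G|) := by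
      rw [e1, e2, Finset.mul_sum]
      refine (Finset.abs_sum_le_sum_abs _ _).trans (Finset.sum_le_sum (fun x _ => ?_))
      have hm := Finset.mem_filter.1 x.2
      have := sw_pair T T' q hq h1 h2 x.1 _ hm.2.some_mem
      rw [← hr] at this
      exact this.le
    rw [abs_mul, abs_two] at e3
    linarith
  have b2 : |∑ G ∈ s2, F G| ≤ ∑ G ∈ s2, |F G| := Finset.abs_sum_le_sum_abs _ _
  have b3 : ∑ G ∈ s2, |F G| ≤ WA P q T n 0 := by
    rw [← Finset.sum_coe_sort s2 (fun G => |F G|)]
    have hcop : ∀ G : s2, Nat.card {f // Cop T G.1 f} ≤ 0 := by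
      intro G
      have hm := Finset.mem_filter.1 G.2
      have : IsEmpty {f // Cop T G.1 f} := ⟨fun f => hm.2 ⟨f.1, Or.inl f.2⟩⟩
      rw [Nat.card_of_isEmpty]
    exact inj_sum (B := AtMost P T n 0)
      (fun G : s2 => ⟨G.1, (Finset.mem_filter.1 (Finset.mem_filter.1 G.2).1).2, hcop G⟩)
      (fun a b h => Subtype.ext (by simpa using h)) (fun G => |F G.1|) (fun G => mu q G.1)
      (fun G => mu_nonneg q G.1) (fun G => le_refl _)
  have b4 : 0 ≤ ∑ G ∈ s2, |F G| := Finset.sum_nonneg (fun G _ => abs_nonneg _)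
  rw [p1, p2]
  calc |∑ G ∈ s1, F G + ∑ G ∈ s2, F G| ≤ |∑ G ∈ s1, F G| + |∑ G ∈ s2, F G| := abs_add_le _ _
    _ ≤ r * ∑ G ∈ s1, |F G| + ∑ G ∈ s2, |F G| := add_le_add b1 b2
    _ ≤ r * (∑ G ∈ s1, |F G| + ∑ G ∈ s2, |F G|) + WA P q T n 0 := by
      have : 0 ≤ r * ∑ G ∈ s2, |F G| := mul_nonneg hr0 b4
      rw [mul_add]
      linarith

theorem WW_le_total (q : ℝ) (n : ℕ) : WW P q n ≤ total P n (fun G => |val q G|) := by
  classical
  have e1 : WW P q n = ∑ G : {G : SimpleGraph (Fin n) // P (Fin n) G}, mu q G.1 := rfl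
  have h := inj_sum (A := {G : SimpleGraph (Fin n) // P (Fin n) G})
    (B := {G // G ∈ Finset.univ.filter (fun G : SimpleGraph (Fin n) => P (Fin n) G)})
    (fun G => ⟨G.1, Finset.mem_filter.2 ⟨Finset.mem_univ _, G.2⟩⟩)
    (fun a b h => Subtype.ext (congrArg (fun x => x.1) h)) (fun G => mu q G.1)
    (fun G => |val q G.1|) (fun G => abs_nonneg _) (fun G => by
      simp only [val_eq]; exact le_refl _)
  rw [e1]
  refine h.trans (le_of_eq ?_)
  rw [Finset.sum_coe_sort (Finset.univ.filter (fun G : SimpleGraph (Fin n) => P (Fin n) G))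
    (fun G => |val q G|), Finset.sum_filter]
  unfold total
  exact Finset.sum_congr rfl (fun G _ => rfl)

theorem total_le (q : ℝ) (n : ℕ) : |total P n (val q)| ≤ total P n (fun G => |val q G|) := by
  classical
  unfold total
  refine (Finset.abs_sum_le_sum_abs _ _).trans (Finset.sum_le_sum (fun G _ => ?_))
  split_ifs
  · exact le_refl _
  · simp

theorem signed_law (hP : BridgeClass P) (q : ℝ) (hq : 1 < q)
    (hB : ∃ B : ℝ, 0 ≤ B ∧ ∀ n : ℕ, WW P q n ≤ B ^ n * n.factorial) :
    (∀ (V : Type) (G : SimpleGraph V), P V G → 0 ≤ val q G) ∨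
    (∃ θ K κ : ℝ, θ < 1 ∧ 0 < κ ∧ ∀ n : ℕ, 1 ≤ n →
      |total P n (fun G => val q G)| ≤
        (θ + K * Real.exp (-(κ * n))) * total P n (fun G => |val q G|)) := by
  by_cases hall : ∀ (V : Type) (G : SimpleGraph V), P V G → 0 ≤ val q G
  · exact Or.inl hall
  right
  push Not at hall
  obtain ⟨V, G, hG, hz⟩ := hall
  obtain ⟨k, T, hT, ⟨e⟩⟩ := to_fin hP G hG
  have hfin := hP.fin V G hG
  have hTn : (chr T).eval q < 0 := by
    rw [chr_iso e, ← val_eq]; exact hz
  obtain ⟨T', hT', hpT'⟩ := exists_pos hP q hq k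
  have hmu : 0 < mu q T := abs_pos.2 hTn.ne
  obtain ⟨K, κ, hK0, hκ, hK⟩ := rare_w hP q hq hB T hT hmu
  set r : ℝ := |(chr T).eval q + (chr T').eval q| / (|(chr T).eval q| + |(chr T').eval q|) with hr
  have hr1 : r < 1 := by
    rw [hr, div_lt_one (by positivity), abs_of_neg hTn, abs_of_pos hpT', abs_lt]
    constructor <;> linarith
  have hr0 : 0 ≤ r := by rw [hr]; positivity
  refine ⟨r, K + Real.exp (κ * (2 * (k + 1))), κ, hr1, hκ, fun n hn => ?_⟩
  have htot : 0 ≤ total P n (fun G => |val q G|) := (WW_pos hP q hq n hn).le.trans (WW_le_total q n)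
  have ex0 : 0 < Real.exp (-(κ * n)) := Real.exp_pos _
  have ex1 : 0 < Real.exp (κ * (2 * (k + 1))) := Real.exp_pos _
  rcases Nat.lt_or_ge (2 * (k + 1)) n with h | h
  · have h1 := signed_main hP q hq T T' hT hT' hTn hpT' h r hr
    have h2 := hK n hn
    have h3 : K * Real.exp (-(κ * n)) * WW P q n ≤
        K * Real.exp (-(κ * n)) * total P n (fun G => |val q G|) :=
      mul_le_mul_of_nonneg_left (WW_le_total q n) (by positivity)
    have h4 : 0 ≤ Real.exp (κ * (2 * (k + 1))) * Real.exp (-(κ * n)) *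
        total P n (fun G => |val q G|) := by positivity
    calc _ ≤ r * total P n (fun G => |val q G|) + WA P q T n 0 := h1
      _ ≤ r * total P n (fun G => |val q G|) +
          K * Real.exp (-(κ * n)) * total P n (fun G => |val q G|) := by linarith
      _ ≤ _ := by
        rw [add_mul, add_mul, add_mul]
        linarith
  · have h3 : (n : ℝ) ≤ 2 * (k + 1) := by exact_mod_cast h
    have h4 : 1 ≤ Real.exp (κ * (2 * (k + 1))) * Real.exp (-(κ * n)) := by
      rw [← Real.exp_add]
      exact Real.one_le_exp (by nlinarith)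
    have h5 : 1 ≤ r + (K + Real.exp (κ * (2 * (k + 1)))) * Real.exp (-(κ * n)) := by
      have : 0 ≤ K * Real.exp (-(κ * n)) := by positivity
      rw [add_mul]
      linarith
    calc _ ≤ 1 * total P n (fun G => |val q G|) := by rw [one_mul]; exact total_le q n
      _ ≤ _ := mul_le_mul_of_nonneg_right h5 htot

theorem planar_WW (q : ℝ) (hq : 1 < q) :
    ∃ B : ℝ, 0 ≤ B ∧ ∀ n : ℕ, WW PlanarConn q n ≤ B ^ n * n.factorial := by
  classical
  refine ⟨786432 * (16 * q), by positivity, fun n => ?_⟩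
  have h1 : WW PlanarConn q n ≤
      ∑ G : {G : SimpleGraph (Fin n) // PlanarConn _ G}, (16 * q) ^ n := by
    unfold WW
    apply Finset.sum_le_sum
    intro G _
    exact planar_mu G.1 G.2.2 q hq.le
  refine h1.trans ?_
  rw [Finset.sum_const, Finset.card_univ, nsmul_eq_mul]
  have h2 : (Fintype.card {G : SimpleGraph (Fin n) // PlanarConn (Fin n) G} : ℝ) ≤
      786432 ^ n * n.factorial := by
    have := planar_small n
    unfold num at this
    rw [Nat.card_eq_fintype_card] at this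
    exact_mod_cast this
  calc _ ≤ (786432 ^ n * n.factorial) * (16 * q) ^ n := by gcongr
    _ = _ := by rw [mul_pow 786432 (16 * q)]; ring

end Pool.Agent.Run7.h604.ZH
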