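import Pool.Agent.Run7.h604.ZH.Tree

set_option autoImplicit false
set_option linter.all false

namespace Pool.Agent.Run7.h604.ZH

open Pool.Agent.H207R2.BL

variable {P : (V : Type) → SimpleGraph V → Prop}

theorem ins_inj (hP : BridgeClass P) {k : ℕ} (T : SimpleGraph (Fin (k + 1)))
    (hT : P _ T) (n j : ℕ) (hn : k + 1 < n) :
    ∃ Φ : FS k n × (Fin n × AtMost P T n j) →
      {y : AtMost P T (n + (k + 1)) (j + 1) × (Fin (k + 1) ↪o Fin (n + (k + 1))) //
        Cop T y.1.1 y.2}, Function.Injective Φ ∧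
      ∀ x, ∃ (f : Fin (k + 1) → Fin (n + (k + 1))) (g : Fin n → Fin (n + (k + 1))),
        Split f g ∧ (Φ x).1.1.1 = join T x.2.2.1 f g 0 x.2.1 := by
  classical
  let em : ∀ S : FS k n, Fin (k + 1) ↪o Fin (n + (k + 1)) := fun S => S.1.orderEmbOfFin S.2
  let em' : ∀ S : FS k n, Fin n ↪o Fin (n + (k + 1)) :=
    fun S => S.1ᶜ.orderEmbOfFin (card_compl_aux S.1 S.2)
  have hs : ∀ S : FS k n, Split (em S) (em' S) := fun S => split_finset S.1 S.2
  have hmem : ∀ (S : FS k n) (v : Fin n) (G : AtMost P T n j),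
      P _ (join T G.1 (em S) (em' S) 0 v) := fun S v G => join_mem T G.1 0 v (hs S) hP hT G.2.1
  have hcop : ∀ (S : FS k n) (v : Fin n) (G : AtMost P T n j),
      Cop T (join T G.1 (em S) (em' S) 0 v) (em S) :=
    fun S v G => ⟨join_ff T G.1 0 v (hs S), _, join_oneEdge T G.1 0 v (hs S)⟩
  have hcard : ∀ (S : FS k n) (v : Fin n) (G : AtMost P T n j),
      Nat.card {f // Cop T (join T G.1 (em S) (em' S) 0 v) f} ≤ j + 1 := by
    intro S v G
    have hcl : ∀ f' : {f // Cop T (join T G.1 (em S) (em' S) 0 v) f}, ∃ o : Option {f // Cop T G.1 f},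
        (o = none → f'.1 = em S) ∧ ∀ f'', o = some f'' → ∀ i, em' S (f''.1 i) = f'.1 i := by
      intro f'
      by_cases he : f'.1 = em S
      · exact ⟨none, fun _ => he, fun f'' h => by simp at h⟩
      · obtain ⟨f'', h1, h2⟩ := cop_class T (hP.conn _ _ hT).preconnected G.1
          (hP.conn _ _ G.2.1).preconnected (em S) (em' S) (hs S) hn (by omega) v
          (hP.conn _ _ (hmem S v G)).preconnected f'.1 f'.2 he
        refine ⟨some ⟨f'', h1⟩, fun h => by simp at h, fun f3 h => ?_⟩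
        have : f3 = ⟨f'', h1⟩ := (Option.some_injective _ h).symm
        rw [this]
        exact h2
    choose o ho1 ho2 using hcl
    have hinj : Function.Injective o := by
      intro a b hab
      apply Subtype.ext
      cases hb : o b with
      | none => rw [ho1 a (hab.trans hb), ho1 b hb]
      | some f'' =>
        apply RelEmbedding.ext
        intro i
        rw [← ho2 a f'' (hab.trans hb) i, ← ho2 b f'' hb i]
    have := Nat.card_le_card_of_injective o hinj
    rw [Finite.card_option] at this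
    have := G.2.2
    omega
  let Φ : FS k n × (Fin n × AtMost P T n j) →
      {y : AtMost P T (n + (k + 1)) (j + 1) × (Fin (k + 1) ↪o Fin (n + (k + 1))) //
        Cop T y.1.1 y.2} :=
    fun x => ⟨(⟨join T x.2.2.1 (em x.1) (em' x.1) 0 x.2.1, hmem x.1 x.2.1 x.2.2,
      hcard x.1 x.2.1 x.2.2⟩, em x.1), hcop x.1 x.2.1 x.2.2⟩
  have hinj : Function.Injective Φ := by
    rintro ⟨S, v, G⟩ ⟨S', v', G'⟩ he
    have he' : join T G.1 (em S) (em' S) 0 v = join T G'.1 (em S') (em' S') 0 v' :=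
      congrArg (fun y => y.1.1.1) he
    have hu : em S = em S' := congrArg (fun y => y.1.2) he
    have hSS : S = S' := by
      apply Subtype.ext
      have h1 := Finset.range_orderEmbOfFin S.1 S.2
      have h2 := Finset.range_orderEmbOfFin S'.1 S'.2
      have h3 : Set.range (em S) = Set.range (em S') := by rw [hu]
      exact Finset.coe_injective (h1.symm.trans (h3.trans h2))
    subst hSS
    have hG : G = G' := by
      apply Subtype.ext
      ext i j
      rw [← join_gg T G.1 0 v (hs S), he', join_gg T G'.1 0 v' (hs S)]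
    have hv : v = v' := by
      have := (join_fg T G.1 0 v (hs S) 0 v).2 ⟨rfl, rfl⟩
      rw [he'] at this
      exact ((join_fg T G'.1 0 v' (hs S) 0 v).1 this).2
    rw [hG, hv]
  exact ⟨Φ, hinj, fun x => ⟨em x.1, em' x.1, hs x.1, rfl⟩⟩

theorem sup_inj (hP : BridgeClass P) (k n : ℕ) :
    ∃ Φ : FS k n × ((Fin (k + 1) × {T : SimpleGraph (Fin (k + 1)) // P _ T}) ×
        (Fin n × {G : SimpleGraph (Fin n) // P _ G})) →
      {J : SimpleGraph (Fin (n + (k + 1))) // P _ J} × (Fin (n + (k + 1)) × Bool),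
      Function.Injective Φ ∧
      ∀ x, ∃ (f : Fin (k + 1) → Fin (n + (k + 1))) (g : Fin n → Fin (n + (k + 1))),
        Split f g ∧ (Φ x).1.1 = join x.2.1.2.1 x.2.2.2.1 f g x.2.1.1 x.2.2.1 := by
  classical
  let em : ∀ S : FS k n, Fin (k + 1) ↪o Fin (n + (k + 1)) := fun S => S.1.orderEmbOfFin S.2
  let em' : ∀ S : FS k n, Fin n ↪o Fin (n + (k + 1)) :=
    fun S => S.1ᶜ.orderEmbOfFin (card_compl_aux S.1 S.2)
  have hs : ∀ S : FS k n, Split (em S) (em' S) := fun S => split_finset S.1 S.2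
  let z : Fin (n + (k + 1)) := ⟨0, by omega⟩
  let A := Fin (k + 1) × {T : SimpleGraph (Fin (k + 1)) // P _ T}
  let B := Fin n × {G : SimpleGraph (Fin n) // P _ G}
  have hmem : ∀ (S : FS k n) (a : A) (b : B), P _ (join a.2.1 b.2.1 (em S) (em' S) a.1 b.1) :=
    fun S a b => join_mem a.2.1 b.2.1 a.1 b.1 (hs S) hP a.2.2 b.2.2
  let Φ : FS k n × (A × B) →
      {J : SimpleGraph (Fin (n + (k + 1))) // P _ J} × (Fin (n + (k + 1)) × Bool) :=
    fun x => (⟨join x.2.1.2.1 x.2.2.2.1 (em x.1) (em' x.1) x.2.1.1 x.2.2.1,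
      hmem x.1 x.2.1 x.2.2⟩,
      if z ∈ Set.range (em x.1) then (em' x.1 x.2.2.1, true) else (em x.1 x.2.1.1, false))
  have hinj : Function.Injective Φ := by
    rintro ⟨S, a, b⟩ ⟨S', a', b'⟩ he
    have he' : join a.2.1 b.2.1 (em S) (em' S) a.1 b.1 =
        join a'.2.1 b'.2.1 (em S') (em' S') a'.1 b'.1 := congrArg (fun y => y.1.1) he
    have ht : (if z ∈ Set.range (em S) then (em' S b.1, true) else (em S a.1, false)) =
        (if z ∈ Set.range (em S') then (em' S' b'.1, true) else (em S' a'.1, false)) :=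
      congrArg (fun y => y.2) he
    have o1 := join_oneEdge a.2.1 b.2.1 a.1 b.1 (hs S)
    have o2 := join_oneEdge a'.2.1 b'.2.1 a'.1 b'.1 (hs S')
    have m1 := hmem S a b
    rw [← he'] at o2
    have c1 := (hP.conn _ _ ((hP.bridge _ _ _ _ _ o1).1 m1).1).preconnected
    have c1' := (hP.conn _ _ ((hP.bridge _ _ _ _ _ o1).1 m1).2).preconnected
    have c2 := (hP.conn _ _ ((hP.bridge _ _ _ _ _ o2).1 m1).1).preconnected
    have hxy : em S a.1 = em S' a'.1 ∧ em' S b.1 = em' S' b'.1 := by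
      by_cases hz : z ∈ Set.range (em S) <;> by_cases hz' : z ∈ Set.range (em S')
      · rw [if_pos hz, if_pos hz'] at ht
        have e := congrArg Prod.fst ht
        simp only at e
        rw [← e] at o2
        exact ⟨tag_unique _ _ _ _ _ _ z o1 o2 hz hz' c1, e⟩
      · rw [if_pos hz, if_neg hz'] at ht
        exact absurd (congrArg Prod.snd ht) (by simp)
      · rw [if_neg hz, if_pos hz'] at ht
        exact absurd (congrArg Prod.snd ht) (by simp)
      · rw [if_neg hz, if_neg hz'] at ht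
        have e := congrArg Prod.fst ht
        simp only at e
        have o1' := oneEdge_compl _ _ _ _ o1
        have o2' := oneEdge_compl _ _ _ _ o2
        rw [← e] at o2'
        exact ⟨e, tag_unique _ _ _ _ _ _ z o1' o2' hz hz' c1'⟩
    rw [← hxy.1, ← hxy.2] at o2
    have hr : Set.range (em S) = Set.range (em S') :=
      Set.Subset.antisymm (side_sub _ _ _ _ _ o1 o2 c1) (side_sub _ _ _ _ _ o2 o1 c2)
    have hSS : S = S' := by
      apply Subtype.ext
      have h1 := Finset.range_orderEmbOfFin S.1 S.2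
      have h2 := Finset.range_orderEmbOfFin S'.1 S'.2
      exact Finset.coe_injective (h1.symm.trans (hr.trans h2))
    subst hSS
    have ha : a.1 = a'.1 := (em S).injective hxy.1
    have hb : b.1 = b'.1 := (em' S).injective hxy.2
    have hT : a.2 = a'.2 := by
      apply Subtype.ext
      ext i j
      rw [← join_ff a.2.1 b.2.1 a.1 b.1 (hs S), he', join_ff a'.2.1 b'.2.1 a'.1 b'.1 (hs S)]
    have hG : b.2 = b'.2 := by
      apply Subtype.ext
      ext i j
      rw [← join_gg a.2.1 b.2.1 a.1 b.1 (hs S), he', join_gg a'.2.1 b'.2.1 a'.1 b'.1 (hs S)]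
    rw [Prod.ext ha hT, Prod.ext hb hG]
  exact ⟨Φ, hinj, fun x => ⟨em x.1, em' x.1, hs x.1, rfl⟩⟩


theorem inj_sum {A B : Type} [Fintype A] [Fintype B] (Φ : A → B) (hΦ : Function.Injective Φ)
    (f : A → ℝ) (g : B → ℝ) (hg : ∀ b, 0 ≤ g b) (h : ∀ a, f a ≤ g (Φ a)) :
    ∑ a, f a ≤ ∑ b, g b := by
  classical
  calc ∑ a, f a ≤ ∑ a, g (Φ a) := Finset.sum_le_sum (fun a _ => h a)
    _ = ∑ b ∈ Finset.univ.map ⟨Φ, hΦ⟩, g b := by rw [Finset.sum_map]; rfl
    _ ≤ ∑ b, g b := Finset.sum_le_sum_of_subset_of_nonneg (Finset.subset_univ _)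
        (fun b _ _ => hg b)

/-- The absolute value at `q`. -/
noncomputable def mu (q : ℝ) {n : ℕ} (G : SimpleGraph (Fin n)) : ℝ := |(chr G).eval q|

theorem mu_nonneg (q : ℝ) {n : ℕ} (G : SimpleGraph (Fin n)) : 0 ≤ mu q G := abs_nonneg _

theorem mu_join (q : ℝ) (hq : 1 < q) {m n N : ℕ} (T : SimpleGraph (Fin m)) (G : SimpleGraph (Fin n))
    (f : Fin m → Fin N) (g : Fin n → Fin N) (a : Fin m) (v : Fin n) (h : Split f g) :
    mu q (join T G f g a v) = (q - 1) / q * (mu q T * mu q G) := by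
  have e := join_chr T G a v h q
  have hq0 : 0 < q := by linarith
  have e2 : (chr (join T G f g a v)).eval q = (q - 1) / q * ((chr T).eval q * (chr G).eval q) := by
    field_simp
    linarith
  unfold mu
  rw [e2, abs_mul, abs_mul, abs_of_pos (div_pos (by linarith) hq0)]

open Classical in
/-- Total weight of the members with at most `j` pendant copies. -/
noncomputable def WA (P : (V : Type) → SimpleGraph V → Prop) (q : ℝ) {k : ℕ}
    (T : SimpleGraph (Fin (k + 1))) (n j : ℕ) : ℝ := ∑ G : AtMost P T n j, mu q G.1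

open Classical in
/-- Total weight. -/
noncomputable def WW (P : (V : Type) → SimpleGraph V → Prop) (q : ℝ) (n : ℕ) : ℝ :=
  ∑ G : {G : SimpleGraph (Fin n) // P _ G}, mu q G.1

theorem WA_nonneg (q : ℝ) {k : ℕ} (T : SimpleGraph (Fin (k + 1))) (n j : ℕ) : 0 ≤ WA P q T n j :=
  Finset.sum_nonneg (fun G _ => mu_nonneg q G.1)

theorem WA_le (q : ℝ) {k : ℕ} (T : SimpleGraph (Fin (k + 1))) (n j : ℕ) :
    WA P q T n j ≤ WW P q n := by
  classical
  exact inj_sum (fun G : AtMost P T n j =>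
      (⟨G.1, G.2.1⟩ : {G : SimpleGraph (Fin n) // P (Fin n) G}))
    (fun a b h => Subtype.ext (by simpa using h)) _ _ (fun G => mu_nonneg q G.1)
    (fun G => le_refl _)

theorem ins_w (hP : BridgeClass P) (q : ℝ) (hq : 1 < q) {k : ℕ} (T : SimpleGraph (Fin (k + 1)))
    (hT : P _ T) (n j : ℕ) (hn : k + 1 < n) :
    (((n + (k + 1)).choose (k + 1) : ℕ) : ℝ) *
      ((n : ℝ) * ((q - 1) / q * mu q T * WA P q T n j)) ≤
      ((j : ℝ) + 1) * WA P q T (n + (k + 1)) (j + 1) := by
  classical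
  obtain ⟨Φ, hΦ, hj⟩ := ins_inj hP T hT n j hn
  let e := Equiv.subtypeProdEquivSigmaSubtype
    (fun (a : AtMost P T (n + (k + 1)) (j + 1)) (b : Fin (k + 1) ↪o Fin (n + (k + 1))) =>
      Cop T a.1 b)
  have h := inj_sum (fun x => e (Φ x)) (e.injective.comp hΦ)
    (fun x => (q - 1) / q * (mu q T * mu q x.2.2.1)) (fun y => mu q y.1.1)
    (fun y => mu_nonneg q _) (fun x => by
      obtain ⟨f, g, hs, hx⟩ := hj x
      have : (e (Φ x)).1.1 = (Φ x).1.1.1 := rfl
      rw [this, hx, mu_join q hq T x.2.2.1 f g 0 x.2.1 hs])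
  rw [Fintype.sum_prod_type, Fintype.sum_sigma] at h
  simp only [Finset.sum_const, Finset.card_univ, Fintype.sum_prod_type, Fintype.card_fin,
    nsmul_eq_mul] at h
  have hF : (Fintype.card (FS k n) : ℝ) = (((n + (k + 1)).choose (k + 1) : ℕ) : ℝ) := by
    rw [← card_FS, Nat.card_eq_fintype_card]
  rw [hF] at h
  have e1 : ∑ G : AtMost P T n j, (q - 1) / q * (mu q T * mu q G.1) =
      (q - 1) / q * mu q T * WA P q T n j := by
    unfold WA
    rw [Finset.mul_sum]
    exact Finset.sum_congr rfl (fun G _ => by ring)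
  rw [e1] at h
  refine h.trans ?_
  unfold WA
  rw [Finset.mul_sum]
  apply Finset.sum_le_sum
  intro a _
  apply mul_le_mul_of_nonneg_right _ (mu_nonneg q a.1)
  have := a.2.2
  rw [Nat.card_eq_fintype_card] at this
  exact_mod_cast this

theorem sup_w (hP : BridgeClass P) (q : ℝ) (hq : 1 < q) (k n : ℕ) :
    (((n + (k + 1)).choose (k + 1) : ℕ) : ℝ) *
      ((q - 1) / q * ((((k + 1 : ℕ) : ℝ) * WW P q (k + 1)) * ((n : ℝ) * WW P q n))) ≤
      WW P q (n + (k + 1)) * (((n + (k + 1) : ℕ) : ℝ) * 2) := by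
  classical
  obtain ⟨Φ, hΦ, hj⟩ := sup_inj hP k n
  have h := inj_sum Φ hΦ
    (fun x => (q - 1) / q * (mu q x.2.1.2.1 * mu q x.2.2.2.1)) (fun y => mu q y.1.1)
    (fun y => mu_nonneg q _) (fun x => by
      obtain ⟨f, g, hs, hx⟩ := hj x
      rw [hx, mu_join q hq _ _ f g _ _ hs])
  simp only [Fintype.sum_prod_type, Finset.sum_const, Finset.card_univ, Fintype.card_fin,
    Fintype.card_bool, nsmul_eq_mul] at h
  have hF : (Fintype.card (FS k n) : ℝ) = (((n + (k + 1)).choose (k + 1) : ℕ) : ℝ) := by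
    rw [← card_FS, Nat.card_eq_fintype_card]
  rw [hF] at h
  have e1 : ∀ a : ℝ, ∑ G : {G : SimpleGraph (Fin n) // P _ G}, (q - 1) / q * (a * mu q G.1) =
      (q - 1) / q * (a * WW P q n) := by
    intro a
    unfold WW
    rw [Finset.mul_sum, Finset.mul_sum]
  simp only [e1] at h
  have e2 : ∑ T : {T : SimpleGraph (Fin (k + 1)) // P _ T},
      ((n : ℝ) * ((q - 1) / q * (mu q T.1 * WW P q n))) =
      (q - 1) / q * (WW P q (k + 1) * ((n : ℝ) * WW P q n)) := by
    have : WW P q (k + 1) = ∑ T : {T : SimpleGraph (Fin (k + 1)) // P _ T}, mu q T.1 := rfl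
    rw [this, Finset.sum_mul, Finset.mul_sum]
    exact Finset.sum_congr rfl (fun T _ => by ring)
  rw [e2] at h
  have e3 : ∑ J : {J : SimpleGraph (Fin (n + (k + 1))) // P _ J},
      ((Fintype.card (Fin (n + (k + 1)) × Bool) : ℕ) : ℝ) * mu q J.1 =
      WW P q (n + (k + 1)) * (((n + (k + 1) : ℕ) : ℝ) * 2) := by
    rw [Fintype.card_prod, Fintype.card_fin, Fintype.card_bool]
    have : WW P q (n + (k + 1)) =
      ∑ J : {J : SimpleGraph (Fin (n + (k + 1))) // P _ J}, mu q J.1 := rfl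
    rw [this, Finset.sum_mul]
    exact Finset.sum_congr rfl (fun T _ => by push_cast; ring)
  rw [e3] at h
  refine le_trans (le_of_eq ?_) h
  ring

end Pool.Agent.Run7.h604.ZH
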